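import Pool.Agent.Helper10.Sieve

/-! Elementary arithmetic sums. -/

namespace Pool.Agent.Helper10

open Finset

/-- primes below `z` coprime to `10` -/
def PP (z : ℕ) : Finset ℕ := (range z).filter (fun p => p.Prime ∧ p.Coprime 10)

lemma mem_PP (z p : ℕ) : p ∈ PP z ↔ p < z ∧ p.Prime ∧ p.Coprime 10 := by
  unfold PP
  rw [Finset.mem_filter, Finset.mem_range]

lemma three_le_of_prime (p : ℕ) (hp : p.Prime) (h : p.Coprime 10) : 3 ≤ p := by
  have h2 := hp.two_le
  rcases Nat.lt_or_ge p 3 with h3 | h3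
  · have : p = 2 := by omega
    subst this
    exact absurd h (by decide)
  · exact h3

lemma one_sub_sum_le_prod (s : Finset ℕ) (f : ℕ → ℝ) (h0 : ∀ i ∈ s, 0 ≤ f i) (h1 : ∀ i ∈ s, f i ≤ 1) :
    1 - ∑ i ∈ s, f i ≤ ∏ i ∈ s, (1 - f i) := by
  classical
  induction s using Finset.induction_on with
  | empty => simp
  | insert a s ha ih =>
    rw [Finset.sum_insert ha, Finset.prod_insert ha]
    have ih' := ih (fun i hi => h0 i (Finset.mem_insert_of_mem hi))
      (fun i hi => h1 i (Finset.mem_insert_of_mem hi))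
    have hsum : 0 ≤ ∑ i ∈ s, f i :=
      Finset.sum_nonneg fun i hi => h0 i (Finset.mem_insert_of_mem hi)
    have ha0 := h0 a (Finset.mem_insert_self _ _)
    have ha1 := h1 a (Finset.mem_insert_self _ _)
    nlinarith

lemma totient_div_ge (k : ℕ) (hk : 0 < k) :
    1 - ∑ p ∈ k.primeFactors, 1 / (p : ℝ) ≤ (Nat.totient k : ℝ) / k := by
  have hk0 : (k : ℝ) ≠ 0 := by positivity
  have h1 : (Nat.totient k : ℝ) = k * ∏ p ∈ k.primeFactors, (1 - (p : ℝ)⁻¹) := by
    have := Nat.totient_eq_mul_prod_factors k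
    have h2 := congrArg (fun x : ℚ => (x : ℝ)) this
    push_cast at h2
    exact h2
  rw [h1, mul_div_cancel_left₀ _ hk0]
  have h3 := one_sub_sum_le_prod k.primeFactors (fun p => (p : ℝ)⁻¹) (fun i _ => by positivity)
    (by
      intro i hi
      have := (Nat.prime_of_mem_primeFactors hi).one_lt
      apply inv_le_one_of_one_le₀
      exact_mod_cast this.le)
  simpa [one_div] using h3

lemma sum_inv_sq_three (S : Finset ℕ) (hS : ∀ m ∈ S, 3 ≤ m) : ∑ m ∈ S, 1 / (m : ℝ) ^ 2 ≤ 1 / 2 := by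
  set n := max 2 (S.sup id) with hn
  have hsub : S ⊆ Ioc 2 n := by
    intro m hm
    rw [Finset.mem_Ioc]
    have h1 : m ≤ S.sup id := Finset.le_sup (f := id) hm
    exact ⟨by have := hS m hm; omega, h1.trans (le_max_right _ _)⟩
  have h2 := sum_Ioc_inv_sq_le_sub (α := ℝ) (k := 2) (n := n) (by norm_num) (le_max_left _ _)
  calc ∑ m ∈ S, 1 / (m : ℝ) ^ 2 ≤ ∑ m ∈ Ioc 2 n, 1 / (m : ℝ) ^ 2 :=
        Finset.sum_le_sum_of_subset_of_nonneg hsub (fun _ _ _ => by positivity)
    _ = ∑ m ∈ Ioc 2 n, ((m : ℝ) ^ 2)⁻¹ := by simp only [one_div]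
    _ ≤ ((2 : ℕ) : ℝ)⁻¹ - (n : ℝ)⁻¹ := h2
    _ ≤ 1 / 2 := by
        have : 0 ≤ (n : ℝ)⁻¹ := by positivity
        push_cast
        linarith

/-- (A1) -/
lemma GG_ge (Y : ℕ) : HH Y / 2 ≤ GG Y := by
  classical
  have h1 : ∀ k ∈ DD Y, 1 / (k : ℝ) - ∑ p ∈ k.primeFactors, 1 / ((k : ℝ) * p) ≤
      (Nat.totient k : ℝ) / (k : ℝ) ^ 2 := by
    intro k hk
    have hk1 := ((mem_DD Y k).mp hk).1.1
    have hk0 : (0 : ℝ) < k := by exact_mod_cast hk1
    have h2 := totient_div_ge k hk1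
    have h3 := mul_le_mul_of_nonneg_left h2 (by positivity : 0 ≤ 1 / (k : ℝ))
    have e1 : 1 / (k : ℝ) * ((Nat.totient k : ℝ) / k) = (Nat.totient k : ℝ) / (k : ℝ) ^ 2 := by
      field_simp
    rw [e1, mul_sub, mul_one, Finset.mul_sum] at h3
    refine le_trans (le_of_eq ?_) h3
    congr 1
    apply Finset.sum_congr rfl
    intro p _
    rw [div_mul_div_comm, one_mul]
  have h2 : ∑ k ∈ DD Y, ∑ p ∈ k.primeFactors, 1 / ((k : ℝ) * p) ≤ HH Y / 2 := by
    rw [Finset.sum_sigma']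
    set S := (Icc 3 Y) with hS
    have h3 : ∑ x ∈ (DD Y).sigma (fun k => k.primeFactors), 1 / ((x.1 : ℝ) * x.2) ≤
        ∑ p ∈ S ×ˢ DD Y, 1 / (p.1 : ℝ) ^ 2 * (1 / (p.2 : ℝ)) := by
      have h4 : ∀ x ∈ (DD Y).sigma (fun k => k.primeFactors), 1 / ((x.1 : ℝ) * x.2) =
          1 / (x.2 : ℝ) ^ 2 * (1 / ((x.1 / x.2 : ℕ) : ℝ)) := by
        intro x hx
        rw [Finset.mem_sigma] at hx
        have hp := Nat.prime_of_mem_primeFactors hx.2
        have hd := Nat.dvd_of_mem_primeFactors hx.2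
        have hp0 : (x.2 : ℝ) ≠ 0 := by exact_mod_cast hp.ne_zero
        have hx1 := ((mem_DD Y x.1).mp hx.1).1.1
        have hx0 : (x.1 : ℝ) ≠ 0 := by positivity
        rw [Nat.cast_div hd hp0]
        field_simp
      rw [Finset.sum_congr rfl h4,
        ← Finset.sum_image (s := (DD Y).sigma (fun k => k.primeFactors))
          (g := fun x : (_ : ℕ) × ℕ => (x.2, x.1 / x.2))
          (f := fun p : ℕ × ℕ => 1 / (p.1 : ℝ) ^ 2 * (1 / (p.2 : ℝ)))]
      · apply Finset.sum_le_sum_of_subset_of_nonneg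
        · intro y hy
          rw [Finset.mem_image] at hy
          obtain ⟨x, hx, rfl⟩ := hy
          rw [Finset.mem_sigma] at hx
          have hp := Nat.prime_of_mem_primeFactors hx.2
          have hd := Nat.dvd_of_mem_primeFactors hx.2
          have hx1 := (mem_DD Y x.1).mp hx.1
          rw [Finset.mem_product, hS, Finset.mem_Icc]
          refine ⟨⟨three_le_of_prime x.2 hp (Nat.Coprime.coprime_dvd_left hd hx1.2.2), ?_⟩, ?_⟩
          · exact (Nat.le_of_dvd (by omega) hd).trans hx1.1.2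
          · exact dvd_mem_DD Y x.1 _ hx.1 (Nat.div_dvd_of_dvd hd)
        · intro _ _ _
          positivity
      · intro x hx y hy hxy
        rw [Finset.mem_coe, Finset.mem_sigma] at hx hy
        have hdx := Nat.dvd_of_mem_primeFactors hx.2
        have hdy := Nat.dvd_of_mem_primeFactors hy.2
        obtain ⟨k, p⟩ := x
        obtain ⟨k', p'⟩ := y
        simp only [Prod.mk.injEq] at hxy hdx hdy
        obtain ⟨rfl, h5⟩ := hxy
        have e1 : k = k' := by rw [← Nat.div_mul_cancel hdx, ← Nat.div_mul_cancel hdy, h5]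
        rw [e1]
    refine h3.trans ?_
    rw [Finset.sum_product]
    simp only
    rw [← Finset.sum_mul_sum]
    have h5 := sum_inv_sq_three S (by intro m hm; exact (Finset.mem_Icc.mp hm).1)
    have h6 : 0 ≤ HH Y := by unfold HH; positivity
    calc (∑ i ∈ S, 1 / (i : ℝ) ^ 2) * ∑ j ∈ DD Y, 1 / (j : ℝ) ≤ 1 / 2 * HH Y :=
          mul_le_mul_of_nonneg_right h5 h6
      _ = HH Y / 2 := by ring
  have h3 : HH Y - ∑ k ∈ DD Y, ∑ p ∈ k.primeFactors, 1 / ((k : ℝ) * p) ≤ GG Y := by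
    unfold HH GG
    rw [← Finset.sum_sub_distrib]
    exact Finset.sum_le_sum h1
  linarith

lemma GG_le (Y : ℕ) : GG Y ≤ HH Y := by
  unfold GG HH
  apply Finset.sum_le_sum
  intro k hk
  have hk1 := ((mem_DD Y k).mp hk).1.1
  have hk0 : (0 : ℝ) < k := by exact_mod_cast hk1
  have hφ : (Nat.totient k : ℝ) ≤ k := by exact_mod_cast Nat.totient_le k
  rw [div_le_div_iff₀ (by positivity) hk0]
  nlinarith

/-- (A2) -/
lemma sum_inv_cube (z : ℕ) : ∑ p ∈ PP z, 1 / (p : ℝ) ^ 3 ≤ 1 / 6 := by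
  have h3 : ∀ p ∈ PP z, 3 ≤ p := by
    intro p hp
    rw [mem_PP] at hp
    exact three_le_of_prime p hp.2.1 hp.2.2
  have h1 := sum_inv_sq_three (PP z) h3
  calc ∑ p ∈ PP z, 1 / (p : ℝ) ^ 3 ≤ ∑ p ∈ PP z, 1 / 3 * (1 / (p : ℝ) ^ 2) := by
        apply Finset.sum_le_sum
        intro p hp
        have hp3 : (3 : ℝ) ≤ p := by exact_mod_cast h3 p hp
        rw [div_mul_div_comm, one_mul, div_le_div_iff₀ (by positivity) (by positivity)]
        have : (0 : ℝ) ≤ (p : ℝ) ^ 2 := by positivity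
        nlinarith
    _ = 1 / 3 * ∑ p ∈ PP z, 1 / (p : ℝ) ^ 2 := by rw [Finset.mul_sum]
    _ ≤ 1 / 6 := by linarith

/-- Mertens upper bound -/
lemma mertens_upper (n : ℕ) (hn : 1 ≤ n) :
    ∑ p ∈ (Icc 1 n).filter Nat.Prime, Real.log p / p ≤ Real.log n + Real.log 4 := by
  classical
  have hnR : (0 : ℝ) < n := by exact_mod_cast hn
  set S := (Icc 1 n).filter Nat.Prime with hS
  have h1 : ∑ p ∈ S, Real.log p * ((n / p : ℕ) : ℝ) ≤ n * Real.log n := by
    have e1 : ∑ p ∈ S, Real.log p * ((n / p : ℕ) : ℝ) =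
        ∑ m ∈ Ioc 0 n, ∑ p ∈ S.filter (fun p => p ∣ m), Real.log p := by
      have e2 : ∀ p ∈ S, Real.log p * ((n / p : ℕ) : ℝ) =
          ∑ m ∈ Ioc 0 n, if p ∣ m then Real.log p else 0 := by
        intro p _
        rw [← Finset.sum_filter, Finset.sum_const, Nat.Ioc_filter_dvd_card_eq_div, nsmul_eq_mul]
        ring
      rw [Finset.sum_congr rfl e2, Finset.sum_comm]
      apply Finset.sum_congr rfl
      intro m _
      exact (Finset.sum_filter _ _).symm
    rw [e1]
    have e3 : ∀ m ∈ Ioc 0 n, ∑ p ∈ S.filter (fun p => p ∣ m), Real.log p ≤ Real.log n := by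
      intro m hm
      rw [Finset.mem_Ioc] at hm
      have h2 : ∑ p ∈ S.filter (fun p => p ∣ m), Real.log p ≤
          ∑ d ∈ m.divisors, ArithmeticFunction.vonMangoldt d := by
        have h3 : ∀ p ∈ S.filter (fun p => p ∣ m), Real.log p = ArithmeticFunction.vonMangoldt p := by
          intro p hp
          rw [Finset.mem_filter, hS, Finset.mem_filter] at hp
          rw [ArithmeticFunction.vonMangoldt_apply_prime hp.1.2]
        rw [Finset.sum_congr rfl h3]
        apply Finset.sum_le_sum_of_subset_of_nonneg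
        · intro p hp
          rw [Finset.mem_filter] at hp
          rw [Nat.mem_divisors]
          exact ⟨hp.2, by omega⟩
        · intro _ _ _
          exact ArithmeticFunction.vonMangoldt_nonneg
      rw [ArithmeticFunction.vonMangoldt_sum] at h2
      refine h2.trans ?_
      apply Real.log_le_log (by exact_mod_cast hm.1)
      exact_mod_cast hm.2
    refine (Finset.sum_le_sum e3).trans ?_
    rw [Finset.sum_const, Nat.card_Ioc, nsmul_eq_mul, Nat.sub_zero]
  have h2 : ∑ p ∈ S, Real.log p ≤ Real.log 4 * n := by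
    have := Chebyshev.theta_le_log4_mul_x (x := (n : ℝ)) hnR.le
    rw [Chebyshev.theta_eq_sum_Icc] at this
    refine le_trans ?_ this
    rw [Nat.floor_natCast, hS]
    apply Finset.sum_le_sum_of_subset_of_nonneg
    · intro p hp
      rw [Finset.mem_filter, Finset.mem_Icc] at hp ⊢
      exact ⟨⟨by omega, hp.1.2⟩, hp.2⟩
    · intro p _ _
      exact Real.log_natCast_nonneg p
  have h3 : n * ∑ p ∈ S, Real.log p / p ≤ n * (Real.log n + Real.log 4) := by
    have e1 : n * ∑ p ∈ S, Real.log p / p ≤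
        ∑ p ∈ S, (Real.log p * ((n / p : ℕ) : ℝ) + Real.log p) := by
      rw [Finset.mul_sum]
      apply Finset.sum_le_sum
      intro p hp
      rw [hS, Finset.mem_filter] at hp
      have hlog : 0 ≤ Real.log p := Real.log_natCast_nonneg p
      have hp0 : (0 : ℝ) < p := by exact_mod_cast hp.2.pos
      have hfl : (n : ℝ) / p ≤ ((n / p : ℕ) : ℝ) + 1 := by
        rw [div_le_iff₀ hp0]
        have : n < (n / p + 1) * p := by
          have := Nat.lt_div_mul_add (a := n) hp.2.pos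
          linarith
        exact_mod_cast this.le
      calc (n : ℝ) * (Real.log p / p) = Real.log p * (n / p) := by ring
        _ ≤ Real.log p * (((n / p : ℕ) : ℝ) + 1) := mul_le_mul_of_nonneg_left hfl hlog
        _ = Real.log p * ((n / p : ℕ) : ℝ) + Real.log p := by ring
    rw [Finset.sum_add_distrib] at e1
    linarith
  exact le_of_mul_le_mul_left h3 hnR

/-- (A3) -/
lemma sum_log_PP (z : ℕ) (hz : 1 ≤ z) :
    ∑ p ∈ PP z, (1 + Real.log p) / p ≤ 2 * (Real.log z + Real.log 4) := by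
  have h1 := mertens_upper z hz
  calc ∑ p ∈ PP z, (1 + Real.log p) / p ≤ ∑ p ∈ PP z, 2 * (Real.log p / p) := by
        apply Finset.sum_le_sum
        intro p hp
        rw [mem_PP] at hp
        have h3 := three_le_of_prime p hp.2.1 hp.2.2
        have hp0 : (0 : ℝ) < p := by exact_mod_cast (by omega : 0 < p)
        have hlog : 1 ≤ Real.log p := by
          rw [Real.le_log_iff_exp_le hp0]
          have : Real.exp 1 < 2.7182818286 := Real.exp_one_lt_d9
          have h4 : (3 : ℝ) ≤ p := by exact_mod_cast h3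
          linarith
        rw [← mul_div_assoc]
        apply div_le_div_of_nonneg_right _ hp0.le
        linarith
    _ = 2 * ∑ p ∈ PP z, Real.log p / p := by rw [Finset.mul_sum]
    _ ≤ 2 * ∑ p ∈ (Icc 1 z).filter Nat.Prime, Real.log p / p := by
        apply mul_le_mul_of_nonneg_left _ (by norm_num)
        apply Finset.sum_le_sum_of_subset_of_nonneg
        · intro p hp
          rw [mem_PP] at hp
          rw [Finset.mem_filter, Finset.mem_Icc]
          exact ⟨⟨hp.2.1.pos, hp.1.le⟩, hp.2.1⟩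
        · intro p _ _
          have := Real.log_natCast_nonneg p
          positivity
    _ ≤ 2 * (Real.log z + Real.log 4) := by linarith

lemma harm_ge (n : ℕ) : Real.log (n + 1) ≤ ∑ m ∈ Icc 1 n, (1 : ℝ) / m := by
  have h := log_add_one_le_harmonic n
  rw [harmonic_eq_sum_Icc] at h
  push_cast at h
  simpa [one_div] using h

/-- (A4) -/
lemma HH_ge (Y : ℕ) (hY : 1 ≤ Y) : 1 / 5 * (Real.log Y - Real.log 10) ≤ HH Y := by
  classical
  set M := (Icc 1 Y).filter (fun m => m.Coprime 10) with hM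
  -- lower bound for the sum over M
  have h1 : 2 / 5 * (Real.log Y - Real.log 10) ≤ ∑ m ∈ M, 1 / (m : ℝ) := by
    set n := Y / 10 with hn
    set C4 : Finset ℕ := {1, 3, 7, 9} with hC4
    have e1 : ∑ x ∈ Icc 1 n ×ˢ C4, 1 / ((10 * x.1 - x.2 : ℕ) : ℝ) ≤ ∑ m ∈ M, 1 / (m : ℝ) := by
      rw [← Finset.sum_image (s := Icc 1 n ×ˢ C4) (g := fun x : ℕ × ℕ => 10 * x.1 - x.2)
        (f := fun m : ℕ => 1 / (m : ℝ))]
      · apply Finset.sum_le_sum_of_subset_of_nonneg
        · intro m hm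
          rw [Finset.mem_image] at hm
          obtain ⟨⟨i, c⟩, hx, rfl⟩ := hm
          rw [Finset.mem_product, Finset.mem_Icc, hC4] at hx
          simp only at hx ⊢
          obtain ⟨⟨hi1, hi2⟩, hc⟩ := hx
          have hc' : c = 1 ∨ c = 3 ∨ c = 7 ∨ c = 9 := by simpa using hc
          rw [hM, Finset.mem_filter, Finset.mem_Icc]
          refine ⟨⟨by omega, by omega⟩, ?_⟩
          rw [show (10 : ℕ) = 2 * 5 by norm_num, Nat.Coprime, ← Nat.Coprime,
            Nat.coprime_mul_iff_right]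
          constructor
          · rw [Nat.coprime_two_right, Nat.odd_iff]
            omega
          · rw [Nat.coprime_comm, Nat.Prime.coprime_iff_not_dvd (by norm_num)]
            omega
        · intro _ _ _
          positivity
      · intro x hx y hy hxy
        rw [Finset.mem_coe, Finset.mem_product, Finset.mem_Icc, hC4] at hx hy
        obtain ⟨i, c⟩ := x
        obtain ⟨i', c'⟩ := y
        simp only at hx hy hxy
        have hc : c = 1 ∨ c = 3 ∨ c = 7 ∨ c = 9 := by simpa using hx.2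
        have hc' : c' = 1 ∨ c' = 3 ∨ c' = 7 ∨ c' = 9 := by simpa using hy.2
        have : i = i' ∧ c = c' := by omega
        rw [this.1, this.2]
    have e2 : 2 / 5 * ∑ i ∈ Icc 1 n, (1 : ℝ) / i ≤
        ∑ x ∈ Icc 1 n ×ˢ C4, 1 / ((10 * x.1 - x.2 : ℕ) : ℝ) := by
      rw [Finset.sum_product, Finset.mul_sum]
      apply Finset.sum_le_sum
      intro i hi
      rw [Finset.mem_Icc] at hi
      have hi0 : (0 : ℝ) < i := by exact_mod_cast hi.1
      have e3 : ∑ c ∈ C4, 1 / (10 * (i : ℝ)) ≤ ∑ c ∈ C4, 1 / ((10 * i - c : ℕ) : ℝ) := by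
        apply Finset.sum_le_sum
        intro c hc
        have hc' : c = 1 ∨ c = 3 ∨ c = 7 ∨ c = 9 := by simpa [hC4] using hc
        apply one_div_le_one_div_of_le
        · have : 0 < 10 * i - c := by omega
          exact_mod_cast this
        · have : 10 * i - c ≤ 10 * i := Nat.sub_le _ _
          exact_mod_cast this
      have e4 : C4.card = 4 := by rw [hC4]; rfl
      rw [Finset.sum_const, e4, nsmul_eq_mul] at e3
      refine le_trans (le_of_eq ?_) e3
      push_cast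
      field_simp
      norm_num
    have e5 : Real.log Y - Real.log 10 ≤ Real.log ((n : ℝ) + 1) := by
      have hY0 : (0 : ℝ) < Y := by exact_mod_cast hY
      rw [← Real.log_div hY0.ne' (by norm_num)]
      apply Real.log_le_log (by positivity)
      rw [div_le_iff₀ (by norm_num)]
      have : Y < (n + 1) * 10 := by omega
      exact_mod_cast this.le
    have e6 := harm_ge n
    linarith
  -- upper bound through the square-free kernel
  have h2 : ∑ m ∈ M, 1 / (m : ℝ) ≤ 2 * HH Y := by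
    have hex : ∀ m : ℕ, ∃ x : ℕ × ℕ, x.2 ^ 2 * x.1 = m ∧ Squarefree x.1 := by
      intro m
      obtain ⟨a, b, h1, h2⟩ := Nat.sq_mul_squarefree m
      exact ⟨(a, b), h1, h2⟩
    choose g hg using hex
    have e1 : ∑ m ∈ M, 1 / (m : ℝ) = ∑ m ∈ M, 1 / (((g m).1 : ℝ)) * (1 / (((g m).2 : ℝ)) ^ 2) := by
      apply Finset.sum_congr rfl
      intro m _
      have h3 := (hg m).1
      have h4 : (m : ℝ) = ((g m).2 : ℝ) ^ 2 * ((g m).1 : ℝ) := by exact_mod_cast h3.symm
      rw [div_mul_div_comm, one_mul, h4, mul_comm]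
    rw [e1, ← Finset.sum_image (s := M) (g := g)
      (f := fun x : ℕ × ℕ => 1 / (x.1 : ℝ) * (1 / (x.2 : ℝ) ^ 2))]
    · have e2 : ∑ x ∈ M.image g, 1 / (x.1 : ℝ) * (1 / (x.2 : ℝ) ^ 2) ≤
          ∑ x ∈ DD Y ×ˢ Icc 1 Y, 1 / (x.1 : ℝ) * (1 / (x.2 : ℝ) ^ 2) := by
        apply Finset.sum_le_sum_of_subset_of_nonneg
        · intro x hx
          rw [Finset.mem_image] at hx
          obtain ⟨m, hm, rfl⟩ := hx
          rw [hM, Finset.mem_filter, Finset.mem_Icc] at hm
          have h3 := (hg m).1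
          have ha : (g m).1 ∣ m := Dvd.intro_left _ h3
          have hb : (g m).2 ∣ m := by
            rw [sq, mul_assoc] at h3
            exact Dvd.intro _ h3
          have hm0 : 0 < m := by omega
          rw [Finset.mem_product, mem_DD, Finset.mem_Icc]
          exact ⟨⟨⟨Nat.pos_of_dvd_of_pos ha hm0, (Nat.le_of_dvd hm0 ha).trans hm.1.2⟩, (hg m).2,
            Nat.Coprime.coprime_dvd_left ha hm.2⟩, Nat.pos_of_dvd_of_pos hb hm0,
            (Nat.le_of_dvd hm0 hb).trans hm.1.2⟩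
        · intro _ _ _
          positivity
      refine e2.trans ?_
      rw [Finset.sum_product]
      simp only
      rw [← Finset.sum_mul_sum]
      have h5 := sum_inv_sq_le_two (Icc 1 Y) (by intro m hm; exact (Finset.mem_Icc.mp hm).1)
      have h6 : 0 ≤ HH Y := by unfold HH; positivity
      calc (∑ i ∈ DD Y, 1 / (i : ℝ)) * ∑ j ∈ Icc 1 Y, 1 / (j : ℝ) ^ 2 ≤ HH Y * 2 :=
            mul_le_mul_of_nonneg_left h5 h6
        _ = 2 * HH Y := by ring
    · intro m _ m' _ h
      rw [← (hg m).1, ← (hg m').1, h]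
  linarith

/-- (A5) -/
lemma short_sum (Y p : ℕ) (hY : 1 ≤ Y) (hp : 0 < p) :
    ∑ k ∈ (DD Y).filter (fun k => Y < k * p), 1 / (k : ℝ) ≤ 1 + Real.log p := by
  have hsub : (DD Y).filter (fun k => Y < k * p) ⊆ Icc 1 Y \ Icc 1 (Y / p) := by
    intro k hk
    rw [Finset.mem_filter, mem_DD] at hk
    rw [Finset.mem_sdiff, Finset.mem_Icc, Finset.mem_Icc]
    refine ⟨hk.1.1, ?_⟩
    rintro ⟨_, h⟩
    have h2 := hk.2
    rw [Nat.le_div_iff_mul_le hp] at h
    omega
  have h1 : ∑ k ∈ (DD Y).filter (fun k => Y < k * p), 1 / (k : ℝ) ≤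
      ∑ k ∈ Icc 1 Y \ Icc 1 (Y / p), 1 / (k : ℝ) :=
    Finset.sum_le_sum_of_subset_of_nonneg hsub (fun _ _ _ => by positivity)
  have h2 : ∑ k ∈ Icc 1 Y \ Icc 1 (Y / p), 1 / (k : ℝ) =
      ∑ k ∈ Icc 1 Y, 1 / (k : ℝ) - ∑ k ∈ Icc 1 (Y / p), 1 / (k : ℝ) := by
    rw [eq_sub_iff_add_eq]
    apply Finset.sum_sdiff
    apply Finset.Icc_subset_Icc_right
    exact Nat.div_le_self _ _
  have h3 := harmonic_Icc_le Y hY
  have h4 := harm_ge (Y / p)
  have hY0 : (0 : ℝ) < Y := by exact_mod_cast hY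
  have hp0 : (0 : ℝ) < p := by exact_mod_cast hp
  have h5 : Real.log Y ≤ Real.log (((Y / p : ℕ) : ℝ) + 1) + Real.log p := by
    rw [← Real.log_mul (by positivity) hp0.ne']
    apply Real.log_le_log hY0
    have : Y < (Y / p + 1) * p := by
      have := Nat.lt_div_mul_add (a := Y) hp
      linarith
    exact_mod_cast this.le
  linarith

/-- (A6) -/
lemma HH_le (Y : ℕ) (hY : 1 ≤ Y) : HH Y ≤ 1 + Real.log Y := by
  refine le_trans ?_ (harmonic_Icc_le Y hY)
  unfold HH DD
  exact Finset.sum_le_sum_of_subset_of_nonneg (Finset.filter_subset _ _) (fun _ _ _ => by positivity)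

/-- the combined main term -/
lemma main_term (Y z : ℕ) (hY : 1 ≤ Y) (hz : 1 ≤ z) :
    (5 / 12 * HH Y - 2 * (Real.log z + Real.log 4)) / HH Y ^ 2 ≤
      ∑ d1 ∈ DD Y, ∑ d2 ∈ DD Y, lam Y d1 * lam Y d2 / ((Nat.lcm d1 d2 : ℕ) : ℝ) -
      ∑ p ∈ PP z, ∑ d1 ∈ DD Y, ∑ d2 ∈ DD Y,
        lam Y d1 * lam Y d2 / ((Nat.lcm (Nat.lcm d1 d2) p : ℕ) : ℝ) := by
  have hH : 0 < HH Y := lt_of_lt_of_le one_pos (HH_ge_one Y hY)
  rw [Q0_eq Y hY]
  have h1 : ∑ p ∈ PP z, ∑ d1 ∈ DD Y, ∑ d2 ∈ DD Y,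
        lam Y d1 * lam Y d2 / ((Nat.lcm (Nat.lcm d1 d2) p : ℕ) : ℝ) ≤
      (GG Y * (1 / 6) + 2 * (Real.log z + Real.log 4)) / HH Y ^ 2 := by
    calc ∑ p ∈ PP z, ∑ d1 ∈ DD Y, ∑ d2 ∈ DD Y,
        lam Y d1 * lam Y d2 / ((Nat.lcm (Nat.lcm d1 d2) p : ℕ) : ℝ)
        ≤ ∑ p ∈ PP z, (GG Y * (1 / (p : ℝ) ^ 3) + (1 + Real.log p) / p) / HH Y ^ 2 := by
          apply Finset.sum_le_sum
          intro p hp
          rw [mem_PP] at hp
          refine (Qp_le Y p hY hp.2.1 hp.2.2).trans ?_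
          apply div_le_div_of_nonneg_right _ (by positivity)
          have h3 := short_sum Y p hY hp.2.1.pos
          have hp0 : (0 : ℝ) < p := by exact_mod_cast hp.2.1.pos
          have h4 := mul_le_mul_of_nonneg_left h3 (by positivity : 0 ≤ 1 / (p : ℝ))
          have e1 : 1 / (p : ℝ) * (1 + Real.log p) = (1 + Real.log p) / p := by ring
          have e2 : GG Y / (p : ℝ) ^ 3 = GG Y * (1 / (p : ℝ) ^ 3) := by ring
          rw [e2]
          linarith
      _ = (GG Y * ∑ p ∈ PP z, 1 / (p : ℝ) ^ 3 + ∑ p ∈ PP z, (1 + Real.log p) / p) / HH Y ^ 2 := by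
          rw [← Finset.sum_div, Finset.sum_add_distrib, Finset.mul_sum]
      _ ≤ (GG Y * (1 / 6) + 2 * (Real.log z + Real.log 4)) / HH Y ^ 2 := by
          apply div_le_div_of_nonneg_right _ (by positivity)
          have h5 := sum_inv_cube z
          have h6 := sum_log_PP z hz
          have h7 : 0 ≤ GG Y := by unfold GG; positivity
          have h8 := mul_le_mul_of_nonneg_left h5 h7
          linarith
  have h2 := GG_ge Y
  calc (5 / 12 * HH Y - 2 * (Real.log z + Real.log 4)) / HH Y ^ 2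
      ≤ (GG Y - (GG Y * (1 / 6) + 2 * (Real.log z + Real.log 4))) / HH Y ^ 2 := by
        apply div_le_div_of_nonneg_right _ (by positivity)
        linarith
    _ = GG Y / HH Y ^ 2 - (GG Y * (1 / 6) + 2 * (Real.log z + Real.log 4)) / HH Y ^ 2 := by
        rw [sub_div]
    _ ≤ _ := by linarith

end Pool.Agent.Helper10
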