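import Mathlib

/-! The character `e(x) = exp(2 pi i x)` and distance to the nearest integer. -/

namespace Pool.Agent.Helper10

open Finset

/-- `e(x) = exp(2 π i x)`. -/
noncomputable def ee (x : ℝ) : ℂ := Complex.exp (Complex.I * ((2 * Real.pi * x : ℝ) : ℂ))

/-- distance to the nearest integer. -/
noncomputable def nd (x : ℝ) : ℝ := |x - round x|

lemma ee_add (x y : ℝ) : ee (x + y) = ee x * ee y := by
  unfold ee
  rw [← Complex.exp_add]
  congr 1
  push_cast
  ring

lemma ee_zero : ee 0 = 1 := by simp [ee]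

lemma norm_ee (x : ℝ) : ‖ee x‖ = 1 := by
  unfold ee
  rw [mul_comm]
  exact Complex.norm_exp_ofReal_mul_I _

lemma ee_ne_zero (x : ℝ) : ee x ≠ 0 := Complex.exp_ne_zero _

lemma ee_int (n : ℤ) : ee n = 1 := by
  unfold ee
  have : Complex.I * ((2 * Real.pi * (n : ℝ) : ℝ) : ℂ) = (n : ℂ) * (2 * Real.pi * Complex.I) := by
    push_cast
    ring
  rw [this]
  exact Complex.exp_int_mul_two_pi_mul_I n

lemma ee_add_int (x : ℝ) (n : ℤ) : ee (x + n) = ee x := by
  rw [ee_add, ee_int, mul_one]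

lemma ee_sub_int (x : ℝ) (n : ℤ) : ee (x - n) = ee x := by
  have := ee_add_int (x - n) n
  rw [sub_add_cancel] at this
  exact this.symm

lemma ee_nat_mul (n : ℕ) (x : ℝ) : ee (n * x) = ee x ^ n := by
  induction n with
  | zero => simp [ee_zero]
  | succ n ih =>
    rw [pow_succ, ← ih, ← ee_add]
    congr 1
    push_cast
    ring

lemma ee_neg (x : ℝ) : ee (-x) = (starRingEnd ℂ) (ee x) := by
  unfold ee
  rw [← Complex.exp_conj]
  congr 1
  rw [map_mul, Complex.conj_I, Complex.conj_ofReal]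
  push_cast
  ring

lemma ee_sum {ι : Type*} (s : Finset ι) (f : ι → ℝ) : ee (∑ i ∈ s, f i) = ∏ i ∈ s, ee (f i) := by
  classical
  induction s using Finset.induction_on with
  | empty => simp [ee_zero]
  | insert a s ha ih => rw [Finset.sum_insert ha, Finset.prod_insert ha, ee_add, ih]

lemma nd_nonneg (x : ℝ) : 0 ≤ nd x := abs_nonneg _

lemma nd_le_half (x : ℝ) : nd x ≤ 1 / 2 := abs_sub_round x

lemma nd_le (x : ℝ) (n : ℤ) : nd x ≤ |x - n| := round_le x n

lemma nd_add_int (x : ℝ) (n : ℤ) : nd (x + n) = nd x := by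
  unfold nd
  rw [round_add_intCast]
  push_cast
  ring_nf

lemma nd_neg (x : ℝ) : nd (-x) = nd x := by
  apply le_antisymm
  · have := nd_le (-x) (-(round x))
    refine this.trans ?_
    unfold nd
    push_cast
    rw [show -x - -(round x : ℝ) = -(x - round x) by ring, abs_neg]
  · have := nd_le x (-(round (-x)))
    refine this.trans ?_
    unfold nd
    push_cast
    rw [show x - -(round (-x) : ℝ) = -(-x - round (-x)) by ring, abs_neg]

lemma norm_ee_sub_one (x : ℝ) : 4 * nd x ≤ ‖ee x - 1‖ := by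
  have h1 : ee x = ee (x - round x) := (ee_sub_int x _).symm
  rw [h1]
  unfold ee
  rw [Complex.norm_exp_I_mul_ofReal_sub_one]
  set y := x - round x with hy
  have hyabs : |y| ≤ 1 / 2 := abs_sub_round x
  have hsin : ‖2 * Real.sin (2 * Real.pi * y / 2)‖ = 2 * |Real.sin (Real.pi * y)| := by
    rw [Real.norm_eq_abs, abs_mul]
    congr 2
    · norm_num
    · ring_nf
  rw [hsin]
  have h2 : |Real.sin (Real.pi * y)| = Real.sin (Real.pi * |y|) := by
    have hpi := Real.pi_pos
    rcases le_total 0 y with h | h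
    · rw [abs_of_nonneg h, abs_of_nonneg]
      apply Real.sin_nonneg_of_nonneg_of_le_pi (by positivity)
      rw [abs_of_nonneg h] at hyabs
      nlinarith
    · rw [abs_of_nonpos h, mul_neg, Real.sin_neg, abs_of_nonpos]
      rw [abs_of_nonpos h] at hyabs
      have := Real.sin_nonneg_of_nonneg_of_le_pi (x := Real.pi * (-y)) (by nlinarith) (by nlinarith)
      rw [mul_neg, Real.sin_neg] at this
      linarith
  rw [h2]
  have h3 := Real.mul_le_sin (x := Real.pi * |y|) (by positivity) (by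
    have := Real.pi_pos
    nlinarith)
  have h4 : 2 / Real.pi * (Real.pi * |y|) = 2 * |y| := by
    field_simp
  rw [h4] at h3
  have : nd x = |y| := rfl
  rw [this]
  linarith

/-- Dirichlet kernel bound. -/
lemma norm_geom_ee (H : ℕ) (x : ℝ) (hx : 0 < nd x) :
    ‖∑ j ∈ range H, ee (j * x)‖ ≤ 1 / (2 * nd x) := by
  have h1 : ∀ j ∈ range H, ee (j * x) = ee x ^ j := fun j _ => ee_nat_mul j x
  rw [Finset.sum_congr rfl h1]
  have hne : ee x - 1 ≠ 0 := by
    intro h
    have := norm_ee_sub_one x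
    rw [h, norm_zero] at this
    linarith
  have hne' : ee x ≠ 1 := fun h => hne (by rw [h, sub_self])
  rw [geom_sum_eq hne']
  rw [norm_div]
  have h2 : ‖ee x ^ H - 1‖ ≤ 2 := by
    refine (norm_sub_le _ _).trans ?_
    rw [norm_pow, norm_ee]
    norm_num
  have h3 := norm_ee_sub_one x
  rw [div_le_div_iff₀ (by linarith) (by positivity)]
  nlinarith [nd_nonneg x]

lemma norm_geom_ee' (H : ℕ) (x : ℝ) : ‖∑ j ∈ range H, ee (j * x)‖ ≤ H := by
  refine (norm_sum_le _ _).trans ?_
  simp [norm_ee]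

/-- orthogonality. -/
lemma sum_ee_eq (q : ℕ) (hq : 0 < q) (m : ℤ) :
    ∑ a ∈ range q, ee ((a : ℝ) * ((m : ℝ) / q)) = if (q : ℤ) ∣ m then (q : ℂ) else 0 := by
  have hq' : (q : ℝ) ≠ 0 := by positivity
  split_ifs with h
  · obtain ⟨k, rfl⟩ := h
    have : ∀ a ∈ range q, ee ((a : ℝ) * ((((q : ℤ) * k : ℤ) : ℝ) / q)) = 1 := by
      intro a _
      have : (a : ℝ) * ((((q : ℤ) * k : ℤ) : ℝ) / q) = (((a : ℤ) * k : ℤ) : ℝ) := by
        push_cast
        field_simp
      rw [this, ee_int]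
    rw [Finset.sum_congr rfl this]
    simp
  · have h1 : ∀ a ∈ range q, ee ((a : ℝ) * ((m : ℝ) / q)) = ee ((m : ℝ) / q) ^ a :=
      fun a _ => ee_nat_mul a _
    rw [Finset.sum_congr rfl h1]
    have hne : ee ((m : ℝ) / q) ≠ 1 := by
      intro h1
      unfold ee at h1
      rw [Complex.exp_eq_one_iff] at h1
      obtain ⟨n, hn⟩ := h1
      apply h
      refine ⟨n, ?_⟩
      have h2 : ((2 * Real.pi * ((m : ℝ) / q) : ℝ) : ℂ) = ((n * (2 * Real.pi) : ℝ) : ℂ) := by
        have hI : Complex.I ≠ 0 := Complex.I_ne_zero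
        apply mul_left_cancel₀ hI
        rw [hn]
        push_cast
        ring
      have h3 : (2 * Real.pi * ((m : ℝ) / q) : ℝ) = n * (2 * Real.pi) := by exact_mod_cast h2
      have hpi := Real.pi_pos
      have h4 : (m : ℝ) / q = n := by
        have : (2 * Real.pi) ≠ 0 := by positivity
        apply mul_left_cancel₀ this
        rw [h3]
        ring
      rw [div_eq_iff hq'] at h4
      have : (m : ℝ) = ((q * n : ℤ) : ℝ) := by
        push_cast
        rw [h4]
        ring
      exact_mod_cast this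
    rw [geom_sum_eq hne]
    have : ee ((m : ℝ) / q) ^ q = 1 := by
      rw [← ee_nat_mul]
      have : (q : ℝ) * ((m : ℝ) / q) = (m : ℝ) := by field_simp
      rw [this, ee_int]
    rw [this]
    simp

lemma norm_one_add_ee_le (x : ℝ) : ‖(1 + ee x) / 2‖ ≤ 1 := by
  rw [norm_div]
  have : ‖1 + ee x‖ ≤ 2 := by
    refine (norm_add_le _ _).trans ?_
    rw [norm_ee]
    norm_num
  have h2 : ‖(2 : ℂ)‖ = 2 := by norm_num
  rw [h2]
  linarith

/-- parallelogram law gives the saving. -/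
lemma norm_one_add_ee_sq (x : ℝ) : ‖(1 + ee x) / 2‖ ^ 2 ≤ 1 - 4 * nd x ^ 2 := by
  have h1 : ‖1 + ee x‖ ^ 2 + ‖ee x - 1‖ ^ 2 = 4 := by
    have hp := parallelogram_law_with_norm ℝ (1 : ℂ) (ee x)
    have : ‖ee x - 1‖ = ‖1 - ee x‖ := norm_sub_rev _ _
    rw [this]
    rw [norm_ee, norm_one] at hp
    nlinarith
  have h2 := norm_ee_sub_one x
  have h3 : (4 * nd x) ^ 2 ≤ ‖ee x - 1‖ ^ 2 := by
    apply pow_le_pow_left₀ (by have := nd_nonneg x; linarith) h2
  rw [norm_div]
  have h4 : ‖(2 : ℂ)‖ = 2 := by norm_num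
  rw [h4, div_pow]
  nlinarith

end Pool.Agent.Helper10
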