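import Pool.Agent.Helper10.InnerBlock

/-! The first moment over reduced fractions with denominators in a dyadic interval. -/

namespace Pool.Agent.Helper10

open Finset

lemma centralBinom_sq_le (m : ℕ) : (3 * m + 1) * Nat.centralBinom m ^ 2 ≤ 16 ^ m := by
  induction m with
  | zero => simp
  | succ m ih =>
    have h := Nat.succ_mul_centralBinom_succ m
    have h2 : (m + 1) ^ 2 * ((3 * (m + 1) + 1) * Nat.centralBinom (m + 1) ^ 2) ≤
        (m + 1) ^ 2 * 16 ^ (m + 1) := by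
      calc (m + 1) ^ 2 * ((3 * (m + 1) + 1) * Nat.centralBinom (m + 1) ^ 2)
          = (3 * (m + 1) + 1) * ((m + 1) * Nat.centralBinom (m + 1)) ^ 2 := by ring
        _ = (3 * (m + 1) + 1) * (2 * (2 * m + 1) * Nat.centralBinom m) ^ 2 := by rw [h]
        _ = ((3 * m + 4) * (4 * (2 * m + 1) ^ 2)) * Nat.centralBinom m ^ 2 := by ring
        _ ≤ (16 * (m + 1) ^ 2 * (3 * m + 1)) * Nat.centralBinom m ^ 2 := by
            apply Nat.mul_le_mul_right
            nlinarith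
        _ = 16 * (m + 1) ^ 2 * ((3 * m + 1) * Nat.centralBinom m ^ 2) := by ring
        _ ≤ 16 * (m + 1) ^ 2 * 16 ^ m := Nat.mul_le_mul_left _ ih
        _ = (m + 1) ^ 2 * 16 ^ (m + 1) := by ring
    exact Nat.le_of_mul_le_mul_left h2 (by positivity)

lemma b_mul_c0 (b : ℕ) (hb : 10 ≤ b) :
    (b : ℝ) * ((Nat.centralBinom ((b - 1) ^ 2) : ℝ) / 4 ^ ((b - 1) ^ 2)) ≤ 5 / 6 := by
  set m := (b - 1) ^ 2 with hm
  have h1 : ((3 * m + 1) * Nat.centralBinom m ^ 2 : ℝ) ≤ 16 ^ m := by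
    exact_mod_cast centralBinom_sq_le m
  have hmR : (m : ℝ) = ((b : ℝ) - 1) ^ 2 := by
    rw [hm]
    push_cast
    rw [Nat.cast_sub (by omega)]
    simp
  have hbR : (10 : ℝ) ≤ b := by exact_mod_cast hb
  have h4 : ((4 : ℝ) ^ m) ^ 2 = 16 ^ m := by
    rw [← pow_mul, mul_comm, pow_mul]; norm_num
  have h2 : ((b : ℝ) * ((Nat.centralBinom m : ℝ) / 4 ^ m)) ^ 2 ≤ (5 / 6) ^ 2 := by
    rw [mul_pow, div_pow, h4]
    rw [← mul_div_assoc, div_le_iff₀ (by positivity)]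
    have h5 : (b : ℝ) ^ 2 * 36 ≤ 25 * (3 * m + 1) := by
      rw [hmR]
      nlinarith
    have h6 : (0 : ℝ) ≤ (Nat.centralBinom m : ℝ) ^ 2 := by positivity
    nlinarith [mul_le_mul_of_nonneg_right h5 h6]
  exact le_of_sq_le_sq h2 (by norm_num)

lemma pointwise (f1 f2 f3 l : ℝ) (m : ℕ) (h1 : 0 ≤ f1) (h1' : f1 ≤ 1) (h2 : 0 ≤ f2) (h2' : f2 ≤ 1)
    (h3 : 0 ≤ f3) (h3' : f3 ≤ 1) (hl : 0 < l) :
    f1 * f2 * f3 ≤ l / 2 * (f1 ^ 2 + f2 ^ 2) + f3 ^ (2 * m) / l ^ (2 * m) := by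
  rcases le_total f3 l with h | h
  · have hA : f1 * f2 * f3 ≤ l / 2 * (f1 ^ 2 + f2 ^ 2) := by
      have e1 : f1 * f2 * f3 ≤ f1 * f2 * l := mul_le_mul_of_nonneg_left h (by positivity)
      nlinarith [sq_nonneg (f1 - f2)]
    have hB : 0 ≤ f3 ^ (2 * m) / l ^ (2 * m) := by positivity
    linarith
  · have hA : f1 * f2 * f3 ≤ 1 := by
      apply mul_le_one₀ (mul_le_one₀ h1' h2 h2') h3 h3'
    have hB : 1 ≤ f3 ^ (2 * m) / l ^ (2 * m) := by
      rw [le_div_iff₀ (by positivity), one_mul]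
      exact pow_le_pow_left₀ hl.le h _
    have hC : 0 ≤ l / 2 * (f1 ^ 2 + f2 ^ 2) := by positivity
    linarith

/-- first moment -/
theorem S_bound (b : ℕ) (hb : 10 ≤ b) : ∃ C : ℝ, 0 < C ∧ ∃ θ : ℝ, 0 < θ ∧ θ < 1 ∧
    ∀ κ T j : ℕ, (∀ q : ℕ, q.Coprime b → q.Coprime κ) → 3 * j + 2 ≤ T →
      ∑ q ∈ QQ b (2 ^ j), ∑ a ∈ AA q, FF κ b T (Icc 1 T) ((a : ℝ) / q) ≤ C * (2 * θ) ^ j := by
  classical
  set m := (b - 1) ^ 2 with hm
  have hbR : (10 : ℝ) ≤ b := by exact_mod_cast hb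
  have hm1 : 1 ≤ m := by
    rw [hm]
    exact Nat.one_le_pow _ _ (by omega)
  have hmR : (1 : ℝ) ≤ m := by exact_mod_cast hm1
  set ν : ℝ := 1 - 1 / (6 * b) with hν
  have hν1 : ν < 1 := by
    rw [hν]
    have : (0 : ℝ) < 1 / (6 * b) := by positivity
    linarith
  have hν0 : 0 < ν := by
    rw [hν]
    have : 1 / (6 * (b : ℝ)) ≤ 1 / 60 := by
      apply one_div_le_one_div_of_le (by norm_num)
      linarith
    linarith
  have hνb : (5 : ℝ) / 6 ≤ ν ^ b := by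
    have h := one_add_mul_le_pow (a := -(1 / (6 * (b : ℝ)))) (by
      have : 1 / (6 * (b : ℝ)) ≤ 1 / 60 := by
        apply one_div_le_one_div_of_le (by norm_num)
        linarith
      linarith) b
    have e : 1 + (b : ℝ) * -(1 / (6 * (b : ℝ))) = 5 / 6 := by
      field_simp
      norm_num
    rw [e] at h
    rw [hν]
    exact h
  set σ : ℝ := 1 - (1 - ν) / (4 * m) with hσ
  have hσ1 : σ < 1 := by
    rw [hσ]
    have : 0 < (1 - ν) / (4 * m) := by
      apply div_pos (by linarith) (by positivity)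
    linarith
  have hσ0 : 0 < σ := by
    rw [hσ]
    have : (1 - ν) / (4 * m) ≤ 1 / 4 := by
      rw [div_le_div_iff₀ (by positivity) (by norm_num)]
      nlinarith
    linarith
  have hσm : (1 + ν) / 2 ≤ σ ^ (2 * m) := by
    have h := one_add_mul_le_pow (a := -((1 - ν) / (4 * m))) (by
      have : (1 - ν) / (4 * m) ≤ 1 / 4 := by
        rw [div_le_div_iff₀ (by positivity) (by norm_num)]
        nlinarith
      linarith) (2 * m)
    have e : 1 + ((2 * m : ℕ) : ℝ) * -((1 - ν) / (4 * m)) = (1 + ν) / 2 := by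
      push_cast
      field_simp
      ring
    rw [e] at h
    rw [hσ]
    exact h
  set μ : ℝ := (1 + 1 / σ) / 2 with hμ
  have hσinv : 1 < 1 / σ := by
    rw [lt_div_iff₀ hσ0]
    linarith
  have hμ1 : 1 < μ := by
    rw [hμ]
    linarith
  have hσμ : σ * μ = (1 + σ) / 2 := by
    rw [hμ]
    field_simp
    ring
  obtain ⟨k, hk⟩ := pow_unbounded_of_one_lt ((b : ℝ) ^ 6) hμ1
  have hk0 : k ≠ 0 := by
    rintro rfl
    rw [pow_zero] at hk
    have : (1 : ℝ) ≤ (b : ℝ) ^ 6 := one_le_pow₀ (by linarith)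
    linarith
  obtain ⟨C0, hC0, hdiv⟩ := divisor_bound k
  have hC0R : (1 : ℝ) ≤ C0 := by exact_mod_cast hC0
  set C' : ℝ := C0 * b ^ 5 with hC'
  have hC'1 : 1 ≤ C' := by
    rw [hC']
    have : (1 : ℝ) ≤ (b : ℝ) ^ 5 := one_le_pow₀ (by linarith)
    nlinarith
  set θ1 : ℝ := (1 + σ) / 2 with hθ1
  set θ2 : ℝ := ν / ((1 + ν) / 2) with hθ2
  have hθ2lt : θ2 < 1 := by
    rw [hθ2, div_lt_one (by linarith)]
    linarith
  have hθ2pos : 0 < θ2 := by
    rw [hθ2]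
    apply div_pos hν0 (by linarith)
  have hθ1lt : θ1 < 1 := by
    rw [hθ1]
    linarith
  have hθ1pos : 0 < θ1 := by
    rw [hθ1]
    linarith
  refine ⟨4 * C' + 20 * m * b ^ 2, by positivity, max θ1 θ2, lt_max_of_lt_left hθ1pos,
    max_lt hθ1lt hθ2lt, ?_⟩
  clear_value θ1 θ2 C' μ σ ν
  intro κ T j hκ hT
  set R : ℕ := 2 ^ j with hR
  have hR1 : 1 ≤ R := Nat.one_le_two_pow
  have hRR : (R : ℝ) = 2 ^ j := by rw [hR]; push_cast; rfl
  have hRpos : (0 : ℝ) < R := by rw [hRR]; positivity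
  set L := Nat.log b (2 * R) + 1 with hL
  have hL1 : 2 * R < b ^ L := Nat.lt_pow_succ_log_self (by omega) _
  have hL2 : b ^ (L - 1) ≤ 2 * R := by
    rw [hL, Nat.add_sub_cancel]
    exact Nat.pow_log_le_self b (by omega)
  have hLj : L ≤ j + 2 := by
    have h1 : 2 ^ (L - 1) ≤ 2 ^ (j + 1) := by
      calc 2 ^ (L - 1) ≤ b ^ (L - 1) := Nat.pow_le_pow_left (by omega) _
        _ ≤ 2 * R := hL2
        _ = 2 ^ (j + 1) := by rw [hR, pow_succ]; ring
    have := (Nat.pow_le_pow_iff_right (by norm_num : 1 < 2)).mp h1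
    omega
  have hL2' : b ^ L ≤ 2 * b * R := by
    have : b ^ L = b * b ^ (L - 1) := by
      rw [← pow_succ']
      congr 1
    rw [this]
    calc b * b ^ (L - 1) ≤ b * (2 * R) := Nat.mul_le_mul_left _ hL2
      _ = 2 * b * R := by ring
  have hbL : j ≤ b * L := by
    have h1 : 2 ^ j < 2 ^ (b * L) := by
      calc 2 ^ j ≤ 2 * R := by rw [← hR]; omega
        _ < b ^ L := hL1
        _ ≤ (2 ^ b) ^ L := Nat.pow_le_pow_left (Nat.lt_two_pow_self).le _
        _ = 2 ^ (b * L) := by rw [← pow_mul]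
    exact ((Nat.pow_lt_pow_iff_right (by norm_num : 1 < 2)).mp h1).le
  have h56 : ((5 : ℝ) / 6) ^ L ≤ ν ^ j := by
    calc ((5 : ℝ) / 6) ^ L ≤ (ν ^ b) ^ L := pow_le_pow_left₀ (by norm_num) hνb L
      _ = ν ^ (b * L) := by rw [← pow_mul]
      _ ≤ ν ^ j := pow_le_pow_of_le_one hν0.le hν1.le hbL
  -- blocks
  set I := Icc 1 L with hI
  set J1 := Ioc L (L + j) with hJ1
  set J2 := Ioc (L + j) (L + 2 * j) with hJ2
  set t1 := L + 2 * j with ht1
  have ht1T : t1 ≤ T := by omega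
  -- D
  set D : ℕ := ⌊C' * μ ^ j⌋₊ with hDdef
  have hμj : (1 : ℝ) ≤ μ ^ j := one_le_pow₀ hμ1.le
  have hD : ∀ n : ℕ, 1 ≤ n → n ≤ b ^ (2 * t1 + 1) → tau n ≤ D := by
    intro n hn1 hn2
    apply Nat.le_floor
    have h1 : ((tau n : ℝ)) ^ k ≤ C0 * (n : ℝ) := by exact_mod_cast hdiv n (by omega)
    have h2 : (n : ℝ) ≤ (b : ℝ) ^ (5 + 6 * j) := by
      have : n ≤ b ^ (5 + 6 * j) := hn2.trans (Nat.pow_le_pow_right (by omega) (by omega))
      exact_mod_cast this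
    have h3 : ((tau n : ℝ)) ^ k ≤ (C' * μ ^ j) ^ k := by
      calc ((tau n : ℝ)) ^ k ≤ C0 * (n : ℝ) := h1
        _ ≤ C0 * (b : ℝ) ^ (5 + 6 * j) := mul_le_mul_of_nonneg_left h2 (by positivity)
        _ = C' * ((b : ℝ) ^ 6) ^ j := by rw [hC', pow_add, pow_mul]; ring
        _ ≤ C' * (μ ^ k) ^ j := by
            apply mul_le_mul_of_nonneg_left _ (by positivity)
            exact pow_le_pow_left₀ (by positivity) hk.le j
        _ ≤ C' ^ k * (μ ^ k) ^ j := by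
            apply mul_le_mul_of_nonneg_right _ (by positivity)
            exact le_self_pow₀ hC'1 hk0
        _ = (C' * μ ^ j) ^ k := by
            rw [mul_pow C' (μ ^ j) k, ← pow_mul, ← pow_mul, mul_comm k j]
    exact (pow_le_pow_iff_left₀ (by positivity) (by positivity) hk0).mp h3
  have hDle : (D : ℝ) ≤ C' * μ ^ j := Nat.floor_le (by positivity)
  have hJ1sub : J1 ⊆ Icc 1 t1 := by
    intro t ht
    rw [hJ1, Finset.mem_Ioc] at ht
    rw [Finset.mem_Icc]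
    omega
  have hJ2sub : J2 ⊆ Icc 1 t1 := by
    intro t ht
    rw [hJ2, Finset.mem_Ioc] at ht
    rw [Finset.mem_Icc]
    omega
  have hJ1c : J1.card = j := by rw [hJ1, Nat.card_Ioc]; omega
  have hJ2c : J2.card = j := by rw [hJ2, Nat.card_Ioc]; omega
  have hT1 := T2_bound κ b T t1 R D (by omega) hκ ht1T J1 hJ1sub hD
  have hT2 := T2_bound κ b T t1 R D (by omega) hκ ht1T J2 hJ2sub hD
  rw [hJ1c] at hT1
  rw [hJ2c] at hT2
  have hsimp : 2 * (R : ℝ) * ((R : ℝ) / 2 ^ j + D) ≤ 4 * C' * R * μ ^ j := by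
    rw [hRR, div_self (by positivity)]
    have h1 : 1 + (D : ℝ) ≤ 2 * (C' * μ ^ j) := by
      have : 1 ≤ C' * μ ^ j := by nlinarith
      linarith
    have h2 : (0 : ℝ) < 2 ^ j := by positivity
    nlinarith
  have hTm := inner_moment κ b T L R m (by omega) (by rw [hm]) hκ (by omega) hR1 (by
    have h1 : (2 * R) ^ 2 ≤ (b ^ L) ^ 2 := Nat.pow_le_pow_left hL1.le 2
    have h2 : (b ^ L) ^ 2 ≤ m * b ^ (2 * L + 1) := by
      rw [← pow_mul, mul_comm L 2, pow_succ]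
      have : 1 ≤ m * b := Nat.mul_pos hm1 (by omega)
      calc b ^ (2 * L) = 1 * b ^ (2 * L) := by ring
        _ ≤ (m * b) * b ^ (2 * L) := Nat.mul_le_mul_right _ this
        _ = m * (b ^ (2 * L) * b) := by ring
    omega)
  set c0 : ℝ := (Nat.centralBinom m : ℝ) / 4 ^ m with hc0
  have hc0pos : 0 ≤ c0 := by positivity
  have hbc0 : (b : ℝ) * c0 ≤ 5 / 6 := b_mul_c0 b hb
  have hTm' : 5 * ((m * b ^ (2 * L + 1) + 1 : ℕ) : ℝ) * c0 ^ L ≤ 20 * m * b ^ 2 * R * ν ^ j := by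
    have h1 : ((m * b ^ (2 * L + 1) + 1 : ℕ) : ℝ) ≤ 2 * m * b * ((b : ℝ) ^ L * (b : ℝ) ^ L) := by
      have h2 : m * b ^ (2 * L + 1) + 1 ≤ 2 * m * b * (b ^ L * b ^ L) := by
        have e : b ^ (2 * L + 1) = b * (b ^ L * b ^ L) := by
          rw [← pow_add, ← pow_succ']
          congr 1
          ring
        rw [e]
        have : 1 ≤ m * (b * (b ^ L * b ^ L)) :=
          Nat.mul_pos hm1 (Nat.mul_pos (by omega) (Nat.mul_pos (Nat.pow_pos (by omega))
            (Nat.pow_pos (by omega))))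
        have e2 : 2 * m * b * (b ^ L * b ^ L) = 2 * (m * (b * (b ^ L * b ^ L))) := by ring
        omega
      exact_mod_cast h2
    calc 5 * ((m * b ^ (2 * L + 1) + 1 : ℕ) : ℝ) * c0 ^ L
        ≤ 5 * (2 * m * b * ((b : ℝ) ^ L * (b : ℝ) ^ L)) * c0 ^ L := by
          apply mul_le_mul_of_nonneg_right _ (by positivity)
          linarith
      _ = 10 * m * b * (b : ℝ) ^ L * ((b : ℝ) * c0) ^ L := by rw [mul_pow]; ring
      _ ≤ 10 * m * b * (b : ℝ) ^ L * (5 / 6) ^ L := by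
          apply mul_le_mul_of_nonneg_left _ (by positivity)
          exact pow_le_pow_left₀ (by positivity) hbc0 L
      _ ≤ 10 * m * b * (2 * b * R) * (5 / 6) ^ L := by
          apply mul_le_mul_of_nonneg_right _ (by positivity)
          apply mul_le_mul_of_nonneg_left _ (by positivity)
          exact_mod_cast hL2'
      _ ≤ 10 * m * b * (2 * b * R) * ν ^ j := by
          apply mul_le_mul_of_nonneg_left h56 (by positivity)
      _ = 20 * m * b ^ 2 * R * ν ^ j := by ring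
  -- pointwise
  have hlam : 0 < σ ^ j := by positivity
  have hpt : ∀ α : ℝ, FF κ b T (Icc 1 T) α ≤
      σ ^ j / 2 * (FF κ b T J1 α ^ 2 + FF κ b T J2 α ^ 2) +
        FF κ b T I α ^ (2 * m) / (σ ^ j) ^ (2 * m) := by
    intro α
    have h1 : FF κ b T (Icc 1 T) α ≤ FF κ b T ((J1 ∪ J2) ∪ I) α := by
      apply FF_anti
      intro t ht
      rw [Finset.mem_union, Finset.mem_union, hJ1, hJ2, hI, Finset.mem_Ioc, Finset.mem_Ioc,
        Finset.mem_Icc] at ht
      rw [Finset.mem_Icc]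
      omega
    rw [FF_union, FF_union] at h1
    · exact h1.trans (pointwise _ _ _ _ m (FF_nonneg _ _ _ _ _) (FF_le_one _ _ _ _ _)
        (FF_nonneg _ _ _ _ _) (FF_le_one _ _ _ _ _) (FF_nonneg _ _ _ _ _) (FF_le_one _ _ _ _ _)
        hlam)
    · rw [Finset.disjoint_left]
      intro t ht ht'
      rw [hJ1, Finset.mem_Ioc] at ht
      rw [hJ2, Finset.mem_Ioc] at ht'
      omega
    · rw [Finset.disjoint_left]
      intro t ht ht'
      rw [Finset.mem_union, hJ1, hJ2, Finset.mem_Ioc, Finset.mem_Ioc] at ht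
      rw [hI, Finset.mem_Icc] at ht'
      omega
  have hsum : ∑ q ∈ QQ b R, ∑ a ∈ AA q, FF κ b T (Icc 1 T) ((a : ℝ) / q) ≤
      σ ^ j / 2 * (∑ q ∈ QQ b R, ∑ a ∈ AA q, FF κ b T J1 ((a : ℝ) / q) ^ 2 +
        ∑ q ∈ QQ b R, ∑ a ∈ AA q, FF κ b T J2 ((a : ℝ) / q) ^ 2) +
      (∑ q ∈ QQ b R, ∑ a ∈ AA q, FF κ b T I ((a : ℝ) / q) ^ (2 * m)) / (σ ^ j) ^ (2 * m) := by
    rw [← Finset.sum_add_distrib, Finset.mul_sum, Finset.sum_div, ← Finset.sum_add_distrib]
    apply Finset.sum_le_sum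
    intro q _
    rw [← Finset.sum_add_distrib, Finset.mul_sum, Finset.sum_div, ← Finset.sum_add_distrib]
    apply Finset.sum_le_sum
    intro a _
    exact hpt _
  have hθmax1 : σ * μ ≤ max θ1 θ2 := by rw [hσμ]; exact le_max_left _ _
  have hθmax2 : ν / σ ^ (2 * m) ≤ max θ1 θ2 := by
    refine le_trans ?_ (le_max_right _ _)
    rw [hθ2]
    exact div_le_div_of_nonneg_left hν0.le (by linarith) hσm
  have hmaxpos : 0 < max θ1 θ2 := lt_max_of_lt_left hθ1pos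
  calc ∑ q ∈ QQ b R, ∑ a ∈ AA q, FF κ b T (Icc 1 T) ((a : ℝ) / q)
      ≤ σ ^ j / 2 * (4 * C' * R * μ ^ j + 4 * C' * R * μ ^ j) +
        (20 * m * b ^ 2 * R * ν ^ j) / (σ ^ j) ^ (2 * m) := by
        refine hsum.trans ?_
        apply add_le_add
        · apply mul_le_mul_of_nonneg_left _ (by positivity)
          exact add_le_add (hT1.trans hsimp) (hT2.trans hsimp)
        · apply div_le_div_of_nonneg_right (hTm.trans hTm') (by positivity)
    _ = 4 * C' * R * (σ * μ) ^ j + 20 * m * b ^ 2 * R * (ν / σ ^ (2 * m)) ^ j := by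
        rw [mul_pow σ μ j, div_pow ν _ j, ← pow_mul, ← pow_mul, mul_comm j (2 * m)]
        ring
    _ ≤ 4 * C' * R * (max θ1 θ2) ^ j + 20 * m * b ^ 2 * R * (max θ1 θ2) ^ j := by
        apply add_le_add
        · apply mul_le_mul_of_nonneg_left _ (by positivity)
          exact pow_le_pow_left₀ (by positivity) hθmax1 j
        · apply mul_le_mul_of_nonneg_left _ (by positivity)
          exact pow_le_pow_left₀ (by positivity) hθmax2 j
    _ = (4 * C' + 20 * m * b ^ 2) * (2 * max θ1 θ2) ^ j := by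
        rw [hRR, mul_pow]
        ring

end Pool.Agent.Helper10
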