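import Pool.Agent.Helper10.Moments

/-! Pointwise bound for the product at reduced fractions. -/

namespace Pool.Agent.Helper10

open Finset

lemma window (κ b T q a k s : ℕ) (hb : 2 ≤ b) (hb2 : 2 ∣ b) (hκ : q.Coprime κ) (hq : 1 < q)
    (hqb : q.Coprime b) (ha : a.Coprime q) (hqk : q ≤ b ^ k) (hs : 1 ≤ s) (hsT : s + (2 * k + 2) ≤ T) :
    ∃ t, s ≤ t ∧ t ≤ s + (2 * k + 2) ∧
      1 / ((b : ℝ) + 1) ^ 2 ≤ nd ((a : ℝ) / q * ((κ * ww b T t : ℕ) : ℝ)) := by
  by_contra hcon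
  push Not at hcon
  have hq0 : (0 : ℝ) < q := by exact_mod_cast (by omega : 0 < q)
  set y : ℕ → ℝ := fun t => (a : ℝ) / q * ((κ * ww b T t : ℕ) : ℝ) with hy
  set x : ℕ → ℤ := fun t => (a : ℤ) * (κ * ww b T t : ℕ) - q * round (y t) with hx
  have hxy : ∀ t, (x t : ℝ) = q * (y t - round (y t)) := by
    intro t
    simp only [hx, hy]
    push_cast
    field_simp
  have hxlt : ∀ t, s ≤ t → t ≤ s + (2 * k + 2) → ((b : ℤ) + 1) ^ 2 * |x t| < q := by
    intro t h1 h2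
    have h3 := hcon t h1 h2
    have h4 : |(x t : ℝ)| = q * nd (y t) := by
      rw [hxy, abs_mul, abs_of_pos hq0]
      rfl
    have h5 : ((b : ℝ) + 1) ^ 2 * |(x t : ℝ)| < q := by
      rw [h4]
      rw [lt_div_iff₀ (by positivity)] at h3
      have h6 : nd (y t) * ((b : ℝ) + 1) ^ 2 < 1 := h3
      calc ((b : ℝ) + 1) ^ 2 * ((q : ℝ) * nd (y t)) = (q : ℝ) * (nd (y t) * ((b : ℝ) + 1) ^ 2) := by
            ring
        _ < (q : ℝ) * 1 := by apply mul_lt_mul_of_pos_left h6 hq0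
        _ = (q : ℝ) := mul_one _
    exact_mod_cast h5
  -- the exact recurrence
  have hrec : ∀ t, s + 1 ≤ t → t + 1 ≤ s + (2 * k + 2) →
      (b : ℤ) * (x (t + 1) + x (t - 1)) = ((b : ℤ) ^ 2 + 1) * x t := by
    intro t h1 h2
    have hw := ww_rec b T t (by omega) (by omega)
    have hwZ : (b : ℤ) * ((ww b T (t + 1) : ℤ) + ww b T (t - 1)) =
        ((b : ℤ) ^ 2 + 1) * ww b T t := by exact_mod_cast hw
    set E : ℤ := (b : ℤ) * (x (t + 1) + x (t - 1)) - ((b : ℤ) ^ 2 + 1) * x t with hE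
    have hdvd : (q : ℤ) ∣ E := by
      refine ⟨-((b : ℤ) * (round (y (t + 1)) + round (y (t - 1))) -
        ((b : ℤ) ^ 2 + 1) * round (y t)), ?_⟩
      rw [hE]
      simp only [hx]
      push_cast
      linear_combination (a : ℤ) * κ * hwZ
    have habs : |E| < q := by
      have h3 := hxlt (t + 1) (by omega) (by omega)
      have h4 := hxlt (t - 1) (by omega) (by omega)
      have h5 := hxlt t (by omega) (by omega)
      have hbZ : (2 : ℤ) ≤ b := by exact_mod_cast hb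
      have h6 : |E| ≤ (b : ℤ) * |x (t + 1)| + (b : ℤ) * |x (t - 1)| + ((b : ℤ) ^ 2 + 1) * |x t| := by
        rw [hE]
        have e1 : (b : ℤ) * (x (t + 1) + x (t - 1)) - ((b : ℤ) ^ 2 + 1) * x t =
            (b : ℤ) * x (t + 1) + (b : ℤ) * x (t - 1) + (-(((b : ℤ) ^ 2 + 1) * x t)) := by ring
        rw [e1]
        refine (abs_add_three _ _ _).trans ?_
        rw [abs_neg, abs_mul, abs_mul, abs_mul, abs_of_nonneg (by linarith : (0 : ℤ) ≤ b),
          abs_of_nonneg (by positivity : (0 : ℤ) ≤ (b : ℤ) ^ 2 + 1)]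
      have h7 : ((b : ℤ) + 1) ^ 2 * |E| < ((b : ℤ) + 1) ^ 2 * q := by
        have e2 : ((b : ℤ) + 1) ^ 2 * |E| ≤ (b : ℤ) * (((b : ℤ) + 1) ^ 2 * |x (t + 1)|) +
            (b : ℤ) * (((b : ℤ) + 1) ^ 2 * |x (t - 1)|) +
            ((b : ℤ) ^ 2 + 1) * (((b : ℤ) + 1) ^ 2 * |x t|) := by
          have := mul_le_mul_of_nonneg_left h6 (by positivity : (0 : ℤ) ≤ ((b : ℤ) + 1) ^ 2)
          linarith
        have e3 : (b : ℤ) * (((b : ℤ) + 1) ^ 2 * |x (t + 1)|) < (b : ℤ) * q :=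
          mul_lt_mul_of_pos_left h3 (by linarith)
        have e4 : (b : ℤ) * (((b : ℤ) + 1) ^ 2 * |x (t - 1)|) < (b : ℤ) * q :=
          mul_lt_mul_of_pos_left h4 (by linarith)
        have e5 : ((b : ℤ) ^ 2 + 1) * (((b : ℤ) + 1) ^ 2 * |x t|) < ((b : ℤ) ^ 2 + 1) * q :=
          mul_lt_mul_of_pos_left h5 (by positivity)
        linarith
      exact lt_of_mul_lt_mul_left h7 (by positivity)
    have := Int.eq_zero_of_abs_lt_dvd hdvd habs
    linarith
  -- divisibility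
  have hcop : ∀ i : ℕ, IsCoprime ((b : ℤ) ^ i) ((b : ℤ) ^ 2 + 1) := by
    intro i
    apply IsCoprime.pow_left
    exact ⟨-(b : ℤ), 1, by ring⟩
  have hdiv : ∀ i : ℕ, ∀ t, s + i ≤ t → t + i ≤ s + (2 * k + 2) → (b : ℤ) ^ i ∣ x t := by
    intro i
    induction i with
    | zero => intro t _ _; simp
    | succ i ih =>
      intro t h1 h2
      have h3 := ih (t + 1) (by omega) (by omega)
      have h4 := ih (t - 1) (by omega) (by omega)
      have h5 := hrec t (by omega) (by omega)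
      have h6 : (b : ℤ) ^ (i + 1) ∣ ((b : ℤ) ^ 2 + 1) * x t := by
        rw [← h5, pow_succ']
        exact mul_dvd_mul_left _ (dvd_add h3 h4)
      exact (hcop (i + 1)).dvd_of_dvd_mul_left h6
  have hzero : ∀ t, s + k ≤ t → t + k ≤ s + (2 * k + 2) → x t = 0 := by
    intro t h1 h2
    apply Int.eq_zero_of_abs_lt_dvd (hdiv k t h1 h2)
    have h3 := hxlt t (by omega) (by omega)
    have h4 : (q : ℤ) ≤ (b : ℤ) ^ k := by exact_mod_cast hqk
    have h5 : |x t| ≤ ((b : ℤ) + 1) ^ 2 * |x t| := by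
      have : (0 : ℤ) ≤ |x t| := abs_nonneg _
      have : (1 : ℤ) ≤ ((b : ℤ) + 1) ^ 2 := by
        have : (2 : ℤ) ≤ b := by exact_mod_cast hb
        nlinarith
      nlinarith
    linarith
  have hdvdw : ∀ t, t ≤ T → x t = 0 → q ∣ 1 + b ^ (2 * t) := by
    intro t htT h
    have h1 : (a : ℤ) * (κ * ww b T t : ℕ) = q * round (y t) := by
      have : (a : ℤ) * (κ * ww b T t : ℕ) - q * round (y t) = 0 := h
      linarith
    have h2 : (q : ℤ) ∣ ((a * (κ * ww b T t) : ℕ) : ℤ) := by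
      push_cast
      push_cast at h1
      exact ⟨_, h1⟩
    have h3 : q ∣ a * (κ * ww b T t) := by exact_mod_cast h2
    have h4 : q ∣ κ * ww b T t := Nat.Coprime.dvd_of_dvd_mul_left ha.symm h3
    have h5 : q ∣ ww b T t := Nat.Coprime.dvd_of_dvd_mul_left hκ h4
    have h6 : ww b T t = b ^ (T - t) * (1 + b ^ (2 * t)) := by
      unfold ww
      rw [mul_add, mul_one, ← pow_add]
      congr 2
      omega
    rw [h6] at h5
    exact Nat.Coprime.dvd_of_dvd_mul_left (Nat.Coprime.pow_right _ hqb) h5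
  set c := s + k + 1 with hc
  have hA := hdvdw c (by omega) (hzero c (by omega) (by omega))
  have hB := hdvdw (c + 1) (by omega) (hzero (c + 1) (by omega) (by omega))
  have hAZ : (q : ℤ) ∣ 1 + (b : ℤ) ^ (2 * c) := by exact_mod_cast hA
  have hBZ : (q : ℤ) ∣ 1 + (b : ℤ) ^ (2 * (c + 1)) := by exact_mod_cast hB
  have hC : (q : ℤ) ∣ (b : ℤ) ^ 2 - 1 := by
    have e : (b : ℤ) ^ 2 - 1 = (b : ℤ) ^ 2 * (1 + (b : ℤ) ^ (2 * c)) - (1 + (b : ℤ) ^ (2 * (c + 1))) := by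
      rw [show 2 * (c + 1) = 2 * c + 2 by ring, pow_add]
      ring
    rw [e]
    exact dvd_sub (Dvd.dvd.mul_left hAZ _) hBZ
  have hD : (q : ℤ) ∣ (b : ℤ) ^ (2 * c) - 1 := by
    have : (b : ℤ) ^ 2 - 1 ∣ ((b : ℤ) ^ 2) ^ c - 1 ^ c := sub_dvd_pow_sub_pow _ _ _
    rw [one_pow, ← pow_mul] at this
    exact hC.trans this
  have hE : (q : ℤ) ∣ 2 := by
    have e : (2 : ℤ) = (1 + (b : ℤ) ^ (2 * c)) - ((b : ℤ) ^ (2 * c) - 1) := by ring
    rw [e]
    exact dvd_sub hAZ hD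
  have hE' : q ∣ 2 := by exact_mod_cast hE
  have hq2 : q = 2 := by
    have := Nat.le_of_dvd (by norm_num) hE'
    omega
  rw [hq2] at hqb
  exact absurd hqb (by
    rw [Nat.coprime_two_left, ← Nat.not_even_iff_odd, not_not]
    exact (even_iff_two_dvd).mpr hb2)

/-- sup bound -/
theorem sup_bound (b : ℕ) (hb : 2 ≤ b) (hb2 : 2 ∣ b) : ∃ ρ : ℝ, 0 < ρ ∧ ρ < 1 ∧
    ∀ κ T q a k : ℕ, q.Coprime κ → 1 < q → q.Coprime b → a.Coprime q → q ≤ b ^ k →
      FF κ b T (Icc 1 T) ((a : ℝ) / q) ≤ ρ ^ (T / (2 * k + 3)) := by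
  classical
  have hbR : (2 : ℝ) ≤ b := by exact_mod_cast hb
  have h81 : (81 : ℝ) ≤ ((b : ℝ) + 1) ^ 4 := by
    have : (3 : ℝ) ^ 4 ≤ ((b : ℝ) + 1) ^ 4 := pow_le_pow_left₀ (by norm_num) (by linarith) 4
    linarith
  refine ⟨1 - 2 / ((b : ℝ) + 1) ^ 4, ?_, ?_, ?_⟩
  · have : 2 / ((b : ℝ) + 1) ^ 4 ≤ 2 / 81 := by
      apply div_le_div_of_nonneg_left (by norm_num) (by norm_num) h81
    linarith
  · have : 0 < 2 / ((b : ℝ) + 1) ^ 4 := by positivity
    linarith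
  intro κ T q a k hκ hq hqb ha hqk
  set ρ : ℝ := 1 - 2 / ((b : ℝ) + 1) ^ 4 with hρ
  have hρ0 : 0 ≤ ρ := by
    have : 2 / ((b : ℝ) + 1) ^ 4 ≤ 2 / 81 := by
      apply div_le_div_of_nonneg_left (by norm_num) (by norm_num) h81
    rw [hρ]
    linarith
  set n := T / (2 * k + 3) with hn
  have hnT : n * (2 * k + 3) ≤ T := Nat.div_mul_le_self _ _
  have hwin : ∀ i : ℕ, ∃ t, i < n → (i * (2 * k + 3) + 1 ≤ t ∧ t ≤ (i + 1) * (2 * k + 3) ∧
      1 / ((b : ℝ) + 1) ^ 2 ≤ nd ((a : ℝ) / q * ((κ * ww b T t : ℕ) : ℝ))) := by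
    intro i
    by_cases hi : i < n
    · have h1 : (i + 1) * (2 * k + 3) ≤ T :=
        (Nat.mul_le_mul_right _ (by omega : i + 1 ≤ n)).trans hnT
      have e1 : (i + 1) * (2 * k + 3) = i * (2 * k + 3) + (2 * k + 3) := by ring
      obtain ⟨t, h2, h3, h4⟩ := window κ b T q a k (i * (2 * k + 3) + 1) hb hb2 hκ hq hqb ha hqk
        (by omega) (by omega)
      exact ⟨t, fun _ => ⟨h2, by omega, h4⟩⟩
    · exact ⟨0, fun h => absurd h hi⟩
  choose t ht using hwin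
  have hinj : Set.InjOn t (range n : Finset ℕ) := by
    intro i hi j hj hij
    rw [Finset.mem_coe, Finset.mem_range] at hi hj
    obtain ⟨h1, h2, _⟩ := ht i hi
    obtain ⟨h3, h4, _⟩ := ht j hj
    rw [hij] at h1 h2
    by_contra hne
    rcases Nat.lt_or_gt_of_ne hne with h | h
    · have : (i + 1) * (2 * k + 3) ≤ j * (2 * k + 3) := Nat.mul_le_mul_right _ h
      omega
    · have : (j + 1) * (2 * k + 3) ≤ i * (2 * k + 3) := Nat.mul_le_mul_right _ h
      omega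
  have hsub : (range n).image t ⊆ Icc 1 T := by
    intro x hx
    rw [Finset.mem_image] at hx
    obtain ⟨i, hi, rfl⟩ := hx
    rw [Finset.mem_range] at hi
    obtain ⟨h1, h2, _⟩ := ht i hi
    have h3 : (i + 1) * (2 * k + 3) ≤ T :=
      (Nat.mul_le_mul_right _ (by omega : i + 1 ≤ n)).trans hnT
    rw [Finset.mem_Icc]
    omega
  refine (FF_anti κ b T _ _ hsub _).trans ?_
  unfold FF
  rw [Finset.prod_image (fun i hi j hj h => hinj (by simpa using hi) (by simpa using hj) h)]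
  calc ∏ i ∈ range n, ‖(1 + ee ((a : ℝ) / q * ((κ * ww b T (t i) : ℕ) : ℝ))) / 2‖
      ≤ ∏ _i ∈ range n, ρ := by
        apply Finset.prod_le_prod (fun _ _ => norm_nonneg _)
        intro i hi
        rw [Finset.mem_range] at hi
        obtain ⟨_, _, h3⟩ := ht i hi
        have h4 := norm_one_add_ee_sq ((a : ℝ) / q * ((κ * ww b T (t i) : ℕ) : ℝ))
        set z := nd ((a : ℝ) / q * ((κ * ww b T (t i) : ℕ) : ℝ)) with hz
        have h5 : (1 / ((b : ℝ) + 1) ^ 2) ^ 2 ≤ z ^ 2 := pow_le_pow_left₀ (by positivity) h3 2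
        have h6 : (1 / ((b : ℝ) + 1) ^ 2) ^ 2 = 1 / ((b : ℝ) + 1) ^ 4 := by
          rw [div_pow, one_pow, ← pow_mul]
        rw [h6] at h5
        apply le_of_sq_le_sq _ hρ0
        refine h4.trans ?_
        rw [hρ]
        have h7 : 2 / ((b : ℝ) + 1) ^ 4 = 2 * (1 / ((b : ℝ) + 1) ^ 4) := by ring
        rw [h7]
        nlinarith [sq_nonneg (1 / ((b : ℝ) + 1) ^ 4)]
    _ = ρ ^ n := by rw [Finset.prod_const, Finset.card_range]

end Pool.Agent.Helper10
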