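import Pool.Agent.Helper10.Count
import Pool.Agent.Helper10.SBound
import Pool.Agent.Helper10.SupBound

/-! Level of distribution: the weighted sum of the error terms is small. -/

namespace Pool.Agent.Helper10

open Finset Filter

lemma tau_cube (μ : ℝ) (hμ : 1 < μ) : ∃ C : ℝ, 1 ≤ C ∧ ∀ j q : ℕ, 1 ≤ q → q ≤ 2 ^ (j + 1) →
    ((tau q : ℝ)) ^ 3 ≤ C * μ ^ j := by
  obtain ⟨k, hk⟩ := pow_unbounded_of_one_lt 2 hμ
  have hk0 : k ≠ 0 := by
    rintro rfl
    rw [pow_zero] at hk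
    linarith
  obtain ⟨C0, hC0, hdiv⟩ := divisor_bound (3 * k)
  have hC0R : (1 : ℝ) ≤ C0 := by exact_mod_cast hC0
  refine ⟨2 * C0, by linarith, ?_⟩
  intro j q hq1 hq2
  have h1 : ((tau q : ℝ)) ^ (3 * k) ≤ C0 * (q : ℝ) := by exact_mod_cast hdiv q (by omega)
  have h2 : (q : ℝ) ≤ 2 * 2 ^ j := by
    have : q ≤ 2 * 2 ^ j := by rw [← pow_succ']; exact hq2
    exact_mod_cast this
  have h3 : (((tau q : ℝ)) ^ 3) ^ k ≤ (2 * C0 * μ ^ j) ^ k := by
    rw [← pow_mul]
    calc ((tau q : ℝ)) ^ (3 * k) ≤ C0 * (q : ℝ) := h1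
      _ ≤ C0 * (2 * 2 ^ j) := mul_le_mul_of_nonneg_left h2 (by positivity)
      _ = (2 * C0) * 2 ^ j := by ring
      _ ≤ (2 * C0) * (μ ^ k) ^ j := by
          apply mul_le_mul_of_nonneg_left _ (by positivity)
          exact pow_le_pow_left₀ (by norm_num) hk.le j
      _ ≤ (2 * C0) ^ k * (μ ^ k) ^ j := by
          apply mul_le_mul_of_nonneg_right _ (by positivity)
          exact le_self_pow₀ (by linarith) hk0
      _ = (2 * C0 * μ ^ j) ^ k := by
          rw [mul_pow (2 * (C0 : ℝ)) (μ ^ j) k, ← pow_mul, ← pow_mul, mul_comm k j]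
  exact (pow_le_pow_iff_left₀ (by positivity) (by positivity) hk0).mp h3

/-- the weighted error over one dyadic block -/
noncomputable def blk (κ b T j : ℕ) : ℝ := ∑ q ∈ QQ b (2 ^ j), ((tau q : ℝ)) ^ 3 * Psi κ b T q / q

lemma blk_large (b : ℕ) (hb : 10 ≤ b) : ∃ C : ℝ, 0 < C ∧ ∃ θ : ℝ, 0 < θ ∧ θ < 1 ∧
    ∀ κ T j : ℕ, (∀ q : ℕ, q.Coprime b → q.Coprime κ) → 3 * j + 2 ≤ T →
      blk κ b T j ≤ C * θ ^ j := by
  obtain ⟨C1, hC1, θ, hθ0, hθ1, hS⟩ := S_bound b hb
  set μ : ℝ := (1 + 1 / θ) / 2 with hμ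
  have hinv : 1 < 1 / θ := by
    rw [lt_div_iff₀ hθ0]
    linarith
  have hμ1 : 1 < μ := by
    rw [hμ]
    linarith
  have hθμ : θ * μ = (1 + θ) / 2 := by
    rw [hμ]
    field_simp
    ring
  obtain ⟨C2, hC2, htau⟩ := tau_cube μ hμ1
  refine ⟨C2 * C1, by positivity, θ * μ, by positivity, by rw [hθμ]; linarith, ?_⟩
  clear_value μ
  intro κ T j hκ hT
  have h1 := hS κ T j hκ hT
  calc blk κ b T j ≤ ∑ q ∈ QQ b (2 ^ j), (C2 * μ ^ j) / 2 ^ j * Psi κ b T q := by
        unfold blk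
        apply Finset.sum_le_sum
        intro q hq
        unfold QQ at hq
        rw [Finset.mem_filter, Finset.mem_Ioc] at hq
        have hqpos : 0 < q := by have := hq.1.1; have : 0 < 2 ^ j := by positivity
                                 omega
        have hq' : (0 : ℝ) < q := by exact_mod_cast hqpos
        have h2 := htau j q hqpos (by rw [pow_succ']; exact hq.1.2)
        have h3 : (2 : ℝ) ^ j ≤ q := by exact_mod_cast hq.1.1.le
        have h4 : ((tau q : ℝ)) ^ 3 / q ≤ (C2 * μ ^ j) / 2 ^ j := by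
          apply div_le_div₀ (by positivity) h2 (by positivity) h3
        calc ((tau q : ℝ)) ^ 3 * Psi κ b T q / q = ((tau q : ℝ)) ^ 3 / q * Psi κ b T q := by ring
          _ ≤ (C2 * μ ^ j) / 2 ^ j * Psi κ b T q :=
            mul_le_mul_of_nonneg_right h4 (Psi_nonneg _ _ _ _)
    _ = (C2 * μ ^ j) / 2 ^ j * ∑ q ∈ QQ b (2 ^ j), Psi κ b T q := by rw [Finset.mul_sum]
    _ ≤ (C2 * μ ^ j) / 2 ^ j * (C1 * (2 * θ) ^ j) := by
        apply mul_le_mul_of_nonneg_left _ (by positivity)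
        exact h1
    _ = C2 * C1 * (θ * μ) ^ j := by
        rw [mul_pow, mul_pow]
        field_simp

lemma AA_card_le (q : ℕ) : (AA q).card ≤ q := by
  unfold AA
  exact (Finset.card_filter_le _ _).trans_eq (Finset.card_range q)

lemma tau_le_self (q : ℕ) : tau q ≤ q := Nat.card_divisors_le_self q

lemma blk_small (b : ℕ) (hb : 2 ≤ b) (hb2 : 2 ∣ b) : ∃ ρ : ℝ, 0 < ρ ∧ ρ < 1 ∧
    ∀ κ T j : ℕ, (∀ q : ℕ, q.Coprime b → q.Coprime κ) →
      blk κ b T j ≤ 8 * 16 ^ j * ρ ^ (T / (2 * j + 5)) := by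
  obtain ⟨ρ, hρ0, hρ1, hsup⟩ := sup_bound b hb hb2
  refine ⟨ρ, hρ0, hρ1, ?_⟩
  intro κ T j hκ
  calc blk κ b T j ≤ ∑ q ∈ QQ b (2 ^ j), (8 * 8 ^ j) * ρ ^ (T / (2 * j + 5)) := by
        unfold blk
        apply Finset.sum_le_sum
        intro q hq
        unfold QQ at hq
        rw [Finset.mem_filter, Finset.mem_Ioc] at hq
        have h2j : 0 < 2 ^ j := by positivity
        have hq1 : 1 < q := by omega
        have hq' : (0 : ℝ) < q := by exact_mod_cast (by omega : 0 < q)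
        have hPsi : Psi κ b T q ≤ q * ρ ^ (T / (2 * j + 5)) := by
          unfold Psi
          calc ∑ a ∈ AA q, FF κ b T (Icc 1 T) ((a : ℝ) / q) ≤
              ∑ a ∈ AA q, ρ ^ (T / (2 * j + 5)) := by
                apply Finset.sum_le_sum
                intro a ha
                unfold AA at ha
                rw [Finset.mem_filter] at ha
                have := hsup κ T q a (j + 1) (hκ q hq.2) hq1 hq.2 ha.2 (by
                  calc q ≤ 2 * 2 ^ j := hq.1.2
                    _ = 2 ^ (j + 1) := by rw [pow_succ']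
                    _ ≤ b ^ (j + 1) := Nat.pow_le_pow_left hb _)
                rw [show 2 * (j + 1) + 3 = 2 * j + 5 by ring] at this
                exact this
            _ = ((AA q).card : ℝ) * ρ ^ (T / (2 * j + 5)) := by
                rw [Finset.sum_const, nsmul_eq_mul]
            _ ≤ q * ρ ^ (T / (2 * j + 5)) := by
                apply mul_le_mul_of_nonneg_right _ (by positivity)
                exact_mod_cast AA_card_le q
        have hq8 : ((tau q : ℝ)) ^ 3 ≤ 8 * 8 ^ j := by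
          have h1 : tau q ^ 3 ≤ 8 * 8 ^ j := by
            calc tau q ^ 3 ≤ (2 * 2 ^ j) ^ 3 :=
                  Nat.pow_le_pow_left ((tau_le_self q).trans hq.1.2) 3
              _ = 8 * 8 ^ j := by
                  rw [mul_pow, ← pow_mul, mul_comm j 3, pow_mul]
                  norm_num
          exact_mod_cast h1
        calc ((tau q : ℝ)) ^ 3 * Psi κ b T q / q
            ≤ (8 * 8 ^ j) * (q * ρ ^ (T / (2 * j + 5))) / q := by
              apply div_le_div_of_nonneg_right _ hq'.le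
              apply mul_le_mul hq8 hPsi (Psi_nonneg _ _ _ _) (by positivity)
          _ = (8 * 8 ^ j) * ρ ^ (T / (2 * j + 5)) := by field_simp
    _ = ((QQ b (2 ^ j)).card : ℝ) * ((8 * 8 ^ j) * ρ ^ (T / (2 * j + 5))) := by
        rw [Finset.sum_const, nsmul_eq_mul]
    _ ≤ 2 ^ j * ((8 * 8 ^ j) * ρ ^ (T / (2 * j + 5))) := by
        apply mul_le_mul_of_nonneg_right _ (by positivity)
        have : (QQ b (2 ^ j)).card ≤ 2 ^ j := by
          unfold QQ
          refine (Finset.card_filter_le _ _).trans ?_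
          rw [Nat.card_Ioc]
          omega
        exact_mod_cast this
    _ = 8 * 16 ^ j * ρ ^ (T / (2 * j + 5)) := by
        have : (16 : ℝ) ^ j = 2 ^ j * 8 ^ j := by rw [← mul_pow]; norm_num
        rw [this]
        ring

/-- total over all dyadic blocks -/
lemma blk_total (b : ℕ) (hb : 10 ≤ b) (hb2 : 2 ∣ b) : ∃ C : ℝ, 0 < C ∧ ∃ θ : ℝ, 0 < θ ∧ θ < 1 ∧
    ∃ s : ℕ, 0 < s ∧ ∀ κ T J : ℕ, (∀ q : ℕ, q.Coprime b → q.Coprime κ) → 3 * J ≤ T →
      ∑ j ∈ range J, blk κ b T j ≤ C * θ ^ (Nat.sqrt (T / s)) := by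
  obtain ⟨C, hC, θ, hθ0, hθ1, hL⟩ := blk_large b hb
  obtain ⟨ρ, hρ0, hρ1, hS⟩ := blk_small b (by omega) hb2
  obtain ⟨s, hs⟩ := exists_pow_lt_of_lt_one (show (0 : ℝ) < 1 / 32 by norm_num) hρ1
  have hs0 : 0 < s := by
    rcases Nat.eq_zero_or_pos s with h | h
    · rw [h, pow_zero] at hs
      norm_num at hs
    · exact h
  set θ' : ℝ := max (1 / 2) θ with hθ'
  have hθ'0 : 0 < θ' := lt_max_of_lt_right hθ0
  have hθ'1 : θ' < 1 := max_lt (by norm_num) hθ1
  refine ⟨8 + C / (1 - θ), by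
    have : 0 < C / (1 - θ) := div_pos hC (by linarith)
    linarith, θ', hθ'0, hθ'1, 7 * s, by omega, ?_⟩
  intro κ T J hκ hT
  set u := Nat.sqrt (T / (7 * s)) with hu
  have hu2 : 7 * s * (u * u) ≤ T := by
    calc 7 * s * (u * u) ≤ 7 * s * (T / (7 * s)) := Nat.mul_le_mul_left _ (Nat.sqrt_le _)
      _ ≤ T := Nat.mul_div_le _ _
  -- each block is bounded by one of the two
  have hblk0 : ∀ j, 0 ≤ blk κ b T j := by
    intro j
    unfold blk
    apply Finset.sum_nonneg
    intro q _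
    have := Psi_nonneg κ b T q
    positivity
  have hsmall : ∀ j < u, blk κ b T j ≤ 8 * 16 ^ j * (1 / 32) ^ u := by
    intro j hj
    refine (hS κ T j hκ).trans ?_
    apply mul_le_mul_of_nonneg_left _ (by positivity)
    have h1 : s * u ≤ T / (2 * j + 5) := by
      rw [Nat.le_div_iff_mul_le (by omega)]
      calc s * u * (2 * j + 5) ≤ s * u * (7 * u) := Nat.mul_le_mul_left _ (by omega)
        _ = 7 * s * (u * u) := by ring
        _ ≤ T := hu2
    calc ρ ^ (T / (2 * j + 5)) ≤ ρ ^ (s * u) := pow_le_pow_of_le_one hρ0.le hρ1.le h1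
      _ = (ρ ^ s) ^ u := by rw [pow_mul]
      _ ≤ (1 / 32) ^ u := pow_le_pow_left₀ (by positivity) hs.le u
  have hlarge : ∀ j ∈ range J, blk κ b T j ≤ C * θ ^ j := by
    intro j hj
    rw [Finset.mem_range] at hj
    exact hL κ T j hκ (by omega)
  have hsplit : ∑ j ∈ range J, blk κ b T j ≤
      ∑ j ∈ range u, 8 * 16 ^ j * (1 / 32) ^ u + ∑ j ∈ Ico u (u + J), C * θ ^ j := by
    have h1 : ∑ j ∈ range J, blk κ b T j =
        ∑ j ∈ (range J).filter (fun j => j < u), blk κ b T j +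
          ∑ j ∈ (range J).filter (fun j => ¬ j < u), blk κ b T j :=
      (Finset.sum_filter_add_sum_filter_not _ _ _).symm
    rw [h1]
    apply add_le_add
    · calc ∑ j ∈ (range J).filter (fun j => j < u), blk κ b T j
          ≤ ∑ j ∈ (range J).filter (fun j => j < u), 8 * 16 ^ j * (1 / 32 : ℝ) ^ u := by
            apply Finset.sum_le_sum
            intro j hj
            rw [Finset.mem_filter] at hj
            exact hsmall j hj.2
        _ ≤ ∑ j ∈ range u, 8 * 16 ^ j * (1 / 32) ^ u := by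
            apply Finset.sum_le_sum_of_subset_of_nonneg
            · intro j hj
              rw [Finset.mem_filter] at hj
              exact Finset.mem_range.mpr hj.2
            · intro _ _ _
              positivity
    · calc ∑ j ∈ (range J).filter (fun j => ¬ j < u), blk κ b T j
          ≤ ∑ j ∈ (range J).filter (fun j => ¬ j < u), C * θ ^ j := by
            apply Finset.sum_le_sum
            intro j hj
            rw [Finset.mem_filter] at hj
            exact hlarge j hj.1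
        _ ≤ ∑ j ∈ Ico u (u + J), C * θ ^ j := by
            apply Finset.sum_le_sum_of_subset_of_nonneg
            · intro j hj
              rw [Finset.mem_filter, Finset.mem_range] at hj
              rw [Finset.mem_Ico]
              omega
            · intro _ _ _
              positivity
  refine hsplit.trans ?_
  have hA : ∑ j ∈ range u, 8 * 16 ^ j * (1 / 32 : ℝ) ^ u ≤ 8 * (1 / 2) ^ u := by
    rw [← Finset.sum_mul, ← Finset.mul_sum]
    have h1 : ∑ j ∈ range u, (16 : ℝ) ^ j ≤ 16 ^ u := by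
      rw [geom_sum_eq (by norm_num)]
      have : (1 : ℝ) ≤ 16 ^ u := one_le_pow₀ (by norm_num)
      rw [div_le_iff₀ (by norm_num)]
      linarith
    calc 8 * (∑ j ∈ range u, (16 : ℝ) ^ j) * (1 / 32) ^ u ≤ 8 * 16 ^ u * (1 / 32) ^ u := by
          apply mul_le_mul_of_nonneg_right _ (by positivity)
          linarith
      _ = 8 * (1 / 2) ^ u := by
          rw [mul_assoc, ← mul_pow]
          norm_num
  have hB : ∑ j ∈ Ico u (u + J), C * θ ^ j ≤ C / (1 - θ) * θ ^ u := by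
    rw [← Finset.mul_sum, Finset.sum_Ico_eq_sum_range, Nat.add_sub_cancel_left]
    have h1 : ∀ i ∈ range J, θ ^ (u + i) = θ ^ u * θ ^ i := fun i _ => pow_add _ _ _
    rw [Finset.sum_congr rfl h1, ← Finset.mul_sum]
    have h2 : ∑ i ∈ range J, θ ^ i ≤ 1 / (1 - θ) := by
      rw [geom_sum_eq hθ1.ne]
      have e : (θ ^ J - 1) / (θ - 1) = (1 - θ ^ J) / (1 - θ) := by
        rw [← neg_sub, ← neg_sub 1 θ, neg_div_neg_eq]
      rw [e]
      apply div_le_div_of_nonneg_right _ (by linarith)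
      have : 0 ≤ θ ^ J := by positivity
      linarith
    calc C * (θ ^ u * ∑ i ∈ range J, θ ^ i) ≤ C * (θ ^ u * (1 / (1 - θ))) := by
          apply mul_le_mul_of_nonneg_left _ hC.le
          apply mul_le_mul_of_nonneg_left h2 (by positivity)
      _ = C / (1 - θ) * θ ^ u := by ring
  have hA' : (1 / 2 : ℝ) ^ u ≤ θ' ^ u := pow_le_pow_left₀ (by norm_num) (le_max_left _ _) u
  have hB' : θ ^ u ≤ θ' ^ u := pow_le_pow_left₀ hθ0.le (le_max_right _ _) u
  have hCpos : 0 ≤ C / (1 - θ) := (div_pos hC (by linarith)).le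
  calc ∑ j ∈ range u, 8 * 16 ^ j * (1 / 32 : ℝ) ^ u + ∑ j ∈ Ico u (u + J), C * θ ^ j
      ≤ 8 * (1 / 2) ^ u + C / (1 - θ) * θ ^ u := add_le_add hA hB
    _ ≤ 8 * θ' ^ u + C / (1 - θ) * θ' ^ u := by
        apply add_le_add
        · linarith
        · exact mul_le_mul_of_nonneg_left hB' hCpos
    _ = (8 + C / (1 - θ)) * θ' ^ u := by ring

/-- the weighted error sum -/
noncomputable def errSum (κ b T N0 Q : ℕ) : ℝ :=
  ∑ q ∈ (Icc 1 Q).filter (fun q => q.Coprime b),
    ((tau q : ℝ)) ^ 3 * |(cnt κ b T N0 q : ℝ) - 2 ^ T / q|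

lemma errSum_le (κ b T N0 Q J : ℕ) (hQ : Q ≤ 2 ^ J) :
    errSum κ b T N0 Q ≤ 2 ^ T * hsum 3 Q * ∑ j ∈ range J, blk κ b T j := by
  classical
  unfold errSum
  -- insert the count bound
  have h1 : ∑ q ∈ (Icc 1 Q).filter (fun q => q.Coprime b),
      ((tau q : ℝ)) ^ 3 * |(cnt κ b T N0 q : ℝ) - 2 ^ T / q| ≤
      ∑ q ∈ (Icc 1 Q).filter (fun q => q.Coprime b),
        ∑ d ∈ q.divisors.erase 1, 2 ^ T * (((tau q : ℝ)) ^ 3 / q * Psi κ b T d) := by
    apply Finset.sum_le_sum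
    intro q hq
    rw [Finset.mem_filter, Finset.mem_Icc] at hq
    calc ((tau q : ℝ)) ^ 3 * |(cnt κ b T N0 q : ℝ) - 2 ^ T / q| ≤
        ((tau q : ℝ)) ^ 3 * (2 ^ T / q * ∑ d ∈ q.divisors.erase 1, Psi κ b T d) :=
          mul_le_mul_of_nonneg_left (count_bound κ b T N0 q (by omega)) (by positivity)
      _ = ∑ d ∈ q.divisors.erase 1, 2 ^ T * (((tau q : ℝ)) ^ 3 / q * Psi κ b T d) := by
          rw [Finset.mul_sum, Finset.mul_sum]
          apply Finset.sum_congr rfl
          intro d _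
          ring
  refine h1.trans ?_
  rw [Finset.sum_sigma']
  -- map (q,d) to (d, q/d)
  set Dset := (Icc 2 Q).filter (fun d => d.Coprime b) with hDset
  have h2 : ∑ x ∈ ((Icc 1 Q).filter (fun q => q.Coprime b)).sigma (fun q => q.divisors.erase 1),
      2 ^ T * (((tau x.1 : ℝ)) ^ 3 / x.1 * Psi κ b T x.2) ≤
      ∑ p ∈ Dset ×ˢ Icc 1 Q, 2 ^ T * ((((tau p.1 : ℝ)) ^ 3 * Psi κ b T p.1 / p.1) *
        (((tau p.2 : ℝ)) ^ 3 / p.2)) := by
    have h3 : ∀ x ∈ ((Icc 1 Q).filter (fun q => q.Coprime b)).sigma (fun q => q.divisors.erase 1),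
        2 ^ T * (((tau x.1 : ℝ)) ^ 3 / x.1 * Psi κ b T x.2) ≤
        2 ^ T * ((((tau x.2 : ℝ)) ^ 3 * Psi κ b T x.2 / x.2) *
        (((tau (x.1 / x.2) : ℝ)) ^ 3 / ((x.1 / x.2 : ℕ) : ℝ))) := by
      intro x hx
      rw [Finset.mem_sigma, Finset.mem_filter, Finset.mem_Icc, Finset.mem_erase,
        Nat.mem_divisors] at hx
      obtain ⟨⟨⟨hx1, hx2⟩, hx3⟩, hx4, hx5, hx6⟩ := hx
      obtain ⟨q, d⟩ := x
      simp only at hx1 hx2 hx3 hx4 hx5 hx6 ⊢
      obtain ⟨e, rfl⟩ := hx5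
      have hd : 0 < d := Nat.pos_of_mul_pos_right (by omega : 0 < d * e)
      have he : 0 < e := Nat.pos_of_mul_pos_left (by omega : 0 < d * e)
      rw [Nat.mul_div_cancel_left e hd]
      apply mul_le_mul_of_nonneg_left _ (by positivity)
      have hdR : (0 : ℝ) < d := by exact_mod_cast hd
      have heR : (0 : ℝ) < e := by exact_mod_cast he
      have ht : ((tau (d * e) : ℝ)) ^ 3 ≤ ((tau d : ℝ)) ^ 3 * ((tau e : ℝ)) ^ 3 := by
        rw [← mul_pow]
        apply pow_le_pow_left₀ (by positivity)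
        exact_mod_cast tau_mul_le d e
      have hP := Psi_nonneg κ b T d
      calc ((tau (d * e) : ℝ)) ^ 3 / ((d * e : ℕ) : ℝ) * Psi κ b T d
          ≤ (((tau d : ℝ)) ^ 3 * ((tau e : ℝ)) ^ 3) / ((d * e : ℕ) : ℝ) * Psi κ b T d := by
            apply mul_le_mul_of_nonneg_right _ hP
            exact div_le_div_of_nonneg_right ht (by positivity)
        _ = ((tau d : ℝ)) ^ 3 * Psi κ b T d / d * (((tau e : ℝ)) ^ 3 / e) := by
            push_cast
            field_simp
    refine (Finset.sum_le_sum h3).trans ?_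
    rw [← Finset.sum_image (s := ((Icc 1 Q).filter (fun q => q.Coprime b)).sigma
        (fun q => q.divisors.erase 1))
      (g := fun x : (_ : ℕ) × ℕ => (x.2, x.1 / x.2))
      (f := fun p : ℕ × ℕ => 2 ^ T * ((((tau p.1 : ℝ)) ^ 3 * Psi κ b T p.1 / p.1) *
        (((tau p.2 : ℝ)) ^ 3 / (p.2 : ℝ))))]
    · apply Finset.sum_le_sum_of_subset_of_nonneg
      · intro p hp
        rw [Finset.mem_image] at hp
        obtain ⟨x, hx, rfl⟩ := hp
        rw [Finset.mem_sigma, Finset.mem_filter, Finset.mem_Icc, Finset.mem_erase,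
          Nat.mem_divisors] at hx
        obtain ⟨⟨⟨hx1, hx2⟩, hx3⟩, hx4, hx5, hx6⟩ := hx
        have hle := Nat.le_of_dvd (by omega) hx5
        have hpos : 0 < x.2 := Nat.pos_of_dvd_of_pos hx5 (by omega)
        rw [Finset.mem_product, hDset, Finset.mem_filter, Finset.mem_Icc, Finset.mem_Icc]
        refine ⟨⟨⟨by omega, by omega⟩, Nat.Coprime.coprime_dvd_left hx5 hx3⟩, ?_, ?_⟩
        · exact Nat.div_pos hle hpos
        · exact (Nat.div_le_self _ _).trans hx2
      · intro p _ _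
        have := Psi_nonneg κ b T p.1
        positivity
    · intro x hx y hy hxy
      rw [Finset.mem_coe, Finset.mem_sigma, Finset.mem_filter, Finset.mem_Icc, Finset.mem_erase,
          Nat.mem_divisors] at hx hy
      obtain ⟨q, d⟩ := x
      obtain ⟨q', d'⟩ := y
      simp only [Prod.mk.injEq] at hx hy hxy
      obtain ⟨rfl, h5⟩ := hxy
      have e1 : q = q' := by
        rw [← Nat.div_mul_cancel hx.2.2.1, ← Nat.div_mul_cancel hy.2.2.1, h5]
      rw [e1]
  refine h2.trans ?_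
  rw [← Finset.mul_sum, Finset.sum_product]
  have h4 : ∑ x ∈ Dset, ∑ y ∈ Icc 1 Q, ((tau x : ℝ)) ^ 3 * Psi κ b T x / x *
      (((tau y : ℝ)) ^ 3 / y) = (∑ x ∈ Dset, ((tau x : ℝ)) ^ 3 * Psi κ b T x / x) * hsum 3 Q := by
    unfold hsum
    rw [Finset.sum_mul]
    apply Finset.sum_congr rfl
    intro x _
    rw [Finset.mul_sum]
  rw [h4]
  have h5 : ∑ x ∈ Dset, ((tau x : ℝ)) ^ 3 * Psi κ b T x / x ≤ ∑ j ∈ range J, blk κ b T j := by
    unfold blk
    rw [← Finset.sum_biUnion]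
    · apply Finset.sum_le_sum_of_subset_of_nonneg
      · intro x hx
        rw [hDset, Finset.mem_filter, Finset.mem_Icc] at hx
        obtain ⟨⟨hx1, hx2⟩, hx3⟩ := hx
        rw [Finset.mem_biUnion]
        set j := Nat.clog 2 x - 1 with hj
        have hc0 : 0 < Nat.clog 2 x := Nat.clog_pos (by norm_num) hx1
        have hlt : 2 ^ j < x := by
          have := Nat.pow_pred_clog_lt_self (b := 2) (by norm_num) (x := x) (by omega)
          simpa [hj] using this
        have hle : x ≤ 2 ^ (j + 1) := by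
          have := Nat.le_pow_clog (b := 2) (by norm_num) x
          rw [show j + 1 = Nat.clog 2 x by omega]
          exact this
        refine ⟨j, ?_, ?_⟩
        · rw [Finset.mem_range]
          have : 2 ^ j < 2 ^ J := lt_of_lt_of_le hlt (hx2.trans hQ)
          exact (Nat.pow_lt_pow_iff_right (by norm_num)).mp this
        · unfold QQ
          rw [Finset.mem_filter, Finset.mem_Ioc]
          refine ⟨⟨hlt, ?_⟩, hx3⟩
          rw [← pow_succ']
          exact hle
      · intro x _ _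
        have := Psi_nonneg κ b T x
        positivity
    · intro i _ j _ hij
      simp only [Function.onFun]
      rw [Finset.disjoint_left]
      intro x hx hx'
      unfold QQ at hx hx'
      rw [Finset.mem_filter, Finset.mem_Ioc, ← pow_succ'] at hx hx'
      rcases Nat.lt_or_gt_of_ne hij with h | h
      · have : 2 ^ (i + 1) ≤ 2 ^ j := Nat.pow_le_pow_right (by norm_num) h
        omega
      · have : 2 ^ (j + 1) ≤ 2 ^ i := Nat.pow_le_pow_right (by norm_num) h
        omega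
  calc 2 ^ T * ((∑ x ∈ Dset, ((tau x : ℝ)) ^ 3 * Psi κ b T x / x) * hsum 3 Q)
      ≤ 2 ^ T * ((∑ j ∈ range J, blk κ b T j) * hsum 3 Q) := by
        apply mul_le_mul_of_nonneg_left _ (by positivity)
        exact mul_le_mul_of_nonneg_right h5 (hsum_nonneg _ _)
    _ = 2 ^ T * hsum 3 Q * ∑ j ∈ range J, blk κ b T j := by ring

/-- **Level of distribution.** -/
theorem err_small (b : ℕ) (hb : 10 ≤ b) (hb2 : 2 ∣ b) : ∃ T0 : ℕ, ∀ T : ℕ, T0 ≤ T →
    ∀ κ N0 Q : ℕ, (∀ q : ℕ, q.Coprime b → q.Coprime κ) → Q ≤ 2 ^ (T / 3) →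
      errSum κ b T N0 Q ≤ 2 ^ T / (T : ℝ) ^ 2 := by
  obtain ⟨C, hC, θ, hθ0, hθ1, s, hs, htot⟩ := blk_total b hb hb2
  -- polynomial times geometric tends to zero
  have hlim : Tendsto (fun u : ℕ => (u : ℝ) ^ 20 * θ ^ u) atTop (nhds 0) :=
    tendsto_pow_const_mul_const_pow_of_abs_lt_one 20 (by rw [abs_of_pos hθ0]; exact hθ1)
  have hCs : 0 < C * (2 * (4 * s : ℝ)) ^ 10 := by positivity
  have hev := (hlim.eventually (gt_mem_nhds (show (0 : ℝ) < 1 / (C * (2 * (4 * s : ℝ)) ^ 10) by positivity)))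
  obtain ⟨u0, hu0⟩ := Filter.eventually_atTop.mp hev
  refine ⟨s * (u0 + 1) ^ 2 + 1, ?_⟩
  intro T hT κ N0 Q hκ hQ
  have hT1 : 1 ≤ T := by omega
  have hTR : (1 : ℝ) ≤ T := by exact_mod_cast hT1
  set u := Nat.sqrt (T / s) with hu
  have hu1 : u0 + 1 ≤ u := by
    rw [hu, Nat.le_sqrt, Nat.le_div_iff_mul_le hs]
    nlinarith
  have hu2 : T < s * ((u + 1) * (u + 1)) := by
    have h1 : T / s < (u + 1) * (u + 1) := Nat.lt_succ_sqrt _
    rw [Nat.div_lt_iff_lt_mul hs] at h1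
    linarith
  have hTu : (T : ℝ) ≤ 4 * s * (u : ℝ) ^ 2 := by
    have h1 : (T : ℝ) ≤ s * ((u + 1) * (u + 1)) := by exact_mod_cast hu2.le
    have h2 : (1 : ℝ) ≤ u := by exact_mod_cast (by omega : 1 ≤ u)
    have h3 : ((u : ℝ) + 1) * (u + 1) ≤ 4 * (u : ℝ) ^ 2 := by nlinarith
    have hsR : (0 : ℝ) < s := by exact_mod_cast hs
    nlinarith
  rcases Nat.eq_zero_or_pos Q with hQ0 | hQ0
  · subst hQ0
    unfold errSum
    simp
    positivity
  have h1 := errSum_le κ b T N0 Q (T / 3) hQ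
  have h2 := htot κ T (T / 3) hκ (Nat.mul_div_le _ _)
  have h3 : hsum 3 Q ≤ (2 * (T : ℝ)) ^ 8 := by
    refine (hsum_le 3 Q hQ0).trans ?_
    norm_num
    have hlog : Real.log Q ≤ T := by
      have e1 : Real.log Q ≤ Real.log ((2 : ℝ) ^ (T / 3)) := by
        apply Real.log_le_log (by exact_mod_cast hQ0)
        exact_mod_cast hQ
      rw [Real.log_pow] at e1
      have e2 : ((T / 3 : ℕ) : ℝ) ≤ T := by exact_mod_cast Nat.div_le_self _ _
      have e3 : Real.log 2 ≤ 1 := by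
        have := Real.log_two_lt_d9
        linarith
      have e4 : (0 : ℝ) ≤ Real.log 2 := Real.log_nonneg (by norm_num)
      have e5 : (0 : ℝ) ≤ ((T / 3 : ℕ) : ℝ) := by positivity
      nlinarith
    have hlog0 : 0 ≤ Real.log Q := Real.log_natCast_nonneg Q
    apply pow_le_pow_left₀ (by linarith)
    linarith
  have h4 : (u : ℝ) ^ 20 * θ ^ u < 1 / (C * (2 * (4 * s : ℝ)) ^ 10) := hu0 u (by omega)
  have h5 : (2 * (T : ℝ)) ^ 8 * (C * θ ^ u) * (T : ℝ) ^ 2 ≤ 1 := by
    calc (2 * (T : ℝ)) ^ 8 * (C * θ ^ u) * (T : ℝ) ^ 2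
        ≤ (2 * (T : ℝ)) ^ 8 * (C * θ ^ u) * (2 * (T : ℝ)) ^ 2 := by
          apply mul_le_mul_of_nonneg_left _ (by positivity)
          apply pow_le_pow_left₀ (by positivity)
          linarith
      _ = C * θ ^ u * (2 * (T : ℝ)) ^ 10 := by ring
      _ ≤ C * θ ^ u * (2 * (4 * s * (u : ℝ) ^ 2)) ^ 10 := by
          apply mul_le_mul_of_nonneg_left _ (by positivity)
          apply pow_le_pow_left₀ (by positivity)
          linarith
      _ = C * (2 * (4 * s : ℝ)) ^ 10 * ((u : ℝ) ^ 20 * θ ^ u) := by ring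
      _ ≤ C * (2 * (4 * s : ℝ)) ^ 10 * (1 / (C * (2 * (4 * s : ℝ)) ^ 10)) := by
          apply mul_le_mul_of_nonneg_left h4.le hCs.le
      _ = 1 := by field_simp
  have hblk0 : 0 ≤ ∑ j ∈ range (T / 3), blk κ b T j := by
    apply Finset.sum_nonneg
    intro j _
    unfold blk
    apply Finset.sum_nonneg
    intro q _
    have := Psi_nonneg κ b T q
    positivity
  calc errSum κ b T N0 Q ≤ 2 ^ T * hsum 3 Q * ∑ j ∈ range (T / 3), blk κ b T j := h1
    _ ≤ 2 ^ T * (2 * (T : ℝ)) ^ 8 * (C * θ ^ u) := by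
        apply mul_le_mul _ h2 hblk0 (by positivity)
        exact mul_le_mul_of_nonneg_left h3 (by positivity)
    _ ≤ 2 ^ T / (T : ℝ) ^ 2 := by
        rw [le_div_iff₀ (by positivity)]
        calc 2 ^ T * (2 * (T : ℝ)) ^ 8 * (C * θ ^ u) * (T : ℝ) ^ 2
            = 2 ^ T * ((2 * (T : ℝ)) ^ 8 * (C * θ ^ u) * (T : ℝ) ^ 2) := by ring
          _ ≤ 2 ^ T * 1 := mul_le_mul_of_nonneg_left h5 (by positivity)
          _ = 2 ^ T := mul_one _

end Pool.Agent.Helper10
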