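import Pool.Agent.Helper10.SieveMain
import Pool.Agent.Helper10.ErrSum

/-! Sieve results for the two-point digit families. -/

namespace Pool.Agent.Helper10

open Finset Filter

lemma coprime_pow_ten (g q : ℕ) (hg : 0 < g) : q.Coprime (10 ^ g) ↔ q.Coprime 10 :=
  Nat.coprime_pow_right_iff hg q 10

/-- the error bound in the form needed by the sieve -/
lemma family_hr (κ b T N0 q : ℕ) :
    |((((Icc 1 T).powerset).filter (fun e => q ∣ N0 + MM κ b T e)).card : ℝ) - 2 ^ T / q| ≤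
      |(cnt κ b T N0 q : ℝ) - 2 ^ T / q| := le_of_eq rfl

lemma errTot_eq (κ g T N0 Q : ℕ) (hg : 0 < g) :
    errTot (fun q => |(cnt κ (10 ^ g) T N0 q : ℝ) - 2 ^ T / q|) Q = errSum κ (10 ^ g) T N0 Q := by
  unfold errTot errSum
  apply Finset.sum_congr
  · apply Finset.filter_congr
    intro q _
    rw [coprime_pow_ten g q hg]
  · intro _ _
    rfl

/-- sieve result, lower bound -/
theorem core_lower (g : ℕ) (hg : 0 < g) : ∃ T0 : ℕ, ∀ T : ℕ, T0 ≤ T → ∀ κ N0 : ℕ,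
    (∀ q : ℕ, q.Coprime 10 → q.Coprime κ) →
    ∃ e ∈ (Icc 1 T).powerset, ∀ p : ℕ, p.Prime → p.Coprime 10 → p < 2 ^ (T / 225) →
      ¬ p ∣ N0 + MM κ (10 ^ g) T e := by
  have hb : 10 ≤ 10 ^ g := by
    calc 10 = 10 ^ 1 := by norm_num
      _ ≤ 10 ^ g := Nat.pow_le_pow_right (by norm_num) hg
  have hb2 : 2 ∣ 10 ^ g := by
    have : 10 ∣ 10 ^ g := dvd_pow_self 10 hg.ne'
    exact (by norm_num : 2 ∣ 10).trans this
  obtain ⟨T1, hT1⟩ := err_small (10 ^ g) hb hb2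
  refine ⟨max T1 18000, ?_⟩
  intro T hT κ N0 hκ
  have hTT1 : T1 ≤ T := (le_max_left _ _).trans hT
  have hT18 : 18000 ≤ T := (le_max_right _ _).trans hT
  set y := T / 9 with hy
  set Y := 2 ^ y with hYdef
  set z := 2 ^ (T / 225) with hzdef
  have hY1 : 1 ≤ Y := Nat.one_le_two_pow
  have hz1 : 1 ≤ z := Nat.one_le_two_pow
  have hQ : Y * Y * z ≤ 2 ^ (T / 3) := by
    rw [hYdef, hzdef, ← pow_add, ← pow_add]
    apply Nat.pow_le_pow_right (by norm_num)
    omega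
  have herr := hT1 T hTT1 κ N0 (Y * Y * z)
    (fun q hq => hκ q ((coprime_pow_ten g q hg).mp hq)) hQ
  rw [← errTot_eq κ g T N0 _ hg] at herr
  have hTR : (18000 : ℝ) ≤ T := by exact_mod_cast hT18
  have hlog2 : (0.6931471803 : ℝ) < Real.log 2 := Real.log_two_gt_d9
  have hlog2' : Real.log 2 < (0.6931471808 : ℝ) := Real.log_two_lt_d9
  have hlogY : Real.log Y = y * Real.log 2 := by
    rw [hYdef]
    push_cast
    rw [Real.log_pow]
  have hlogz : Real.log z = ((T / 225 : ℕ) : ℝ) * Real.log 2 := by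
    rw [hzdef]
    push_cast
    rw [Real.log_pow]
  have hlog4 : Real.log 4 = 2 * Real.log 2 := by
    rw [show (4 : ℝ) = 2 ^ 2 by norm_num, Real.log_pow]
    norm_num
  have hlog10 : Real.log 10 ≤ 4 * Real.log 2 := by
    have : Real.log 10 ≤ Real.log (2 ^ 4) := Real.log_le_log (by norm_num) (by norm_num)
    rw [Real.log_pow] at this
    exact_mod_cast this
  have hyR : (T : ℝ) / 9 - 1 ≤ y := by
    have : T ≤ 9 * y + 9 := by omega
    have h2 : (T : ℝ) ≤ 9 * y + 9 := by exact_mod_cast this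
    linarith
  have hyR2 : (y : ℝ) ≤ T / 9 := by
    have : 9 * y ≤ T := by omega
    have h2 : 9 * (y : ℝ) ≤ T := by exact_mod_cast this
    linarith
  have hwR : ((T / 225 : ℕ) : ℝ) ≤ T / 225 := by
    have : 225 * (T / 225) ≤ T := Nat.mul_div_le _ _
    have h2 : 225 * ((T / 225 : ℕ) : ℝ) ≤ T := by exact_mod_cast this
    linarith
  have hH1 := HH_ge_one Y hY1
  have hHpos : 0 < HH Y := by linarith
  have hHge := HH_ge Y hY1
  have hHle := HH_le Y hY1
  rw [hlogY] at hHge hHle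
  have hnum : 1 ≤ 5 / 12 * HH Y - 2 * (Real.log z + Real.log 4) := by
    rw [hlogz, hlog4]
    nlinarith
  have hHT : HH Y < T := by
    nlinarith
  have hmain : errTot (fun q => |(cnt κ (10 ^ g) T N0 q : ℝ) - 2 ^ T / q|) (Y * Y * z) <
      (2 : ℝ) ^ T * ((5 / 12 * HH Y - 2 * (Real.log z + Real.log 4)) / HH Y ^ 2) := by
    refine lt_of_le_of_lt herr ?_
    rw [div_eq_mul_one_div]
    apply mul_lt_mul_of_pos_left _ (by positivity)
    calc 1 / (T : ℝ) ^ 2 < 1 / HH Y ^ 2 := by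
          apply one_div_lt_one_div_of_lt (by positivity)
          exact pow_lt_pow_left₀ hHT hHpos.le (by norm_num)
      _ ≤ (5 / 12 * HH Y - 2 * (Real.log z + Real.log 4)) / HH Y ^ 2 :=
          div_le_div_of_nonneg_right hnum (by positivity)
  exact lower_sieve (Icc 1 T).powerset (fun e => N0 + MM κ (10 ^ g) T e) ((2 : ℝ) ^ T)
    (by positivity) (fun q => |(cnt κ (10 ^ g) T N0 q : ℝ) - 2 ^ T / q|) (fun q => abs_nonneg _)
    (fun q _ _ => family_hr κ (10 ^ g) T N0 q) Y z hY1 hz1 hmain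

/-- sieve result, upper bound -/
theorem core_upper (g : ℕ) (hg : 0 < g) : ∃ T0 : ℕ, ∀ T : ℕ, T0 ≤ T → ∀ κ N0 : ℕ,
    (∀ q : ℕ, q.Coprime 10 → q.Coprime κ) → ∀ E' ⊆ (Icc 1 T).powerset,
    (∀ e ∈ E', ∀ d : ℕ, 1 ≤ d → d ≤ 2 ^ (T / 9) → d ∣ N0 + MM κ (10 ^ g) T e → d = 1) →
      (E'.card : ℝ) ≤ 100 * 2 ^ T / T := by
  have hb : 10 ≤ 10 ^ g := by
    calc 10 = 10 ^ 1 := by norm_num
      _ ≤ 10 ^ g := Nat.pow_le_pow_right (by norm_num) hg
  have hb2 : 2 ∣ 10 ^ g := by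
    have : 10 ∣ 10 ^ g := dvd_pow_self 10 hg.ne'
    exact (by norm_num : 2 ∣ 10).trans this
  obtain ⟨T1, hT1⟩ := err_small (10 ^ g) hb hb2
  refine ⟨max T1 18000, ?_⟩
  intro T hT κ N0 hκ E' hE' hE2
  have hTT1 : T1 ≤ T := (le_max_left _ _).trans hT
  have hT18 : 18000 ≤ T := (le_max_right _ _).trans hT
  set y := T / 9 with hy
  set Y := 2 ^ y with hYdef
  have hY1 : 1 ≤ Y := Nat.one_le_two_pow
  have hQ : Y * Y * 1 ≤ 2 ^ (T / 3) := by
    rw [hYdef, mul_one, ← pow_add]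
    apply Nat.pow_le_pow_right (by norm_num)
    omega
  have herr := hT1 T hTT1 κ N0 (Y * Y * 1)
    (fun q hq => hκ q ((coprime_pow_ten g q hg).mp hq)) hQ
  rw [← errTot_eq κ g T N0 _ hg] at herr
  have hTR : (18000 : ℝ) ≤ T := by exact_mod_cast hT18
  have hlog2 : (0.6931471803 : ℝ) < Real.log 2 := Real.log_two_gt_d9
  have hlogY : Real.log Y = y * Real.log 2 := by
    rw [hYdef]
    push_cast
    rw [Real.log_pow]
  have hlog10 : Real.log 10 ≤ 4 * Real.log 2 := by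
    have : Real.log 10 ≤ Real.log (2 ^ 4) := Real.log_le_log (by norm_num) (by norm_num)
    rw [Real.log_pow] at this
    exact_mod_cast this
  have hyR : (T : ℝ) / 9 - 1 ≤ y := by
    have : T ≤ 9 * y + 9 := by omega
    have h2 : (T : ℝ) ≤ 9 * y + 9 := by exact_mod_cast this
    linarith
  have hH1 := HH_ge_one Y hY1
  have hHpos : 0 < HH Y := by linarith
  have hHge := HH_ge Y hY1
  rw [hlogY] at hHge
  have hHT : (T : ℝ) / 90 ≤ HH Y := by nlinarith
  have hup := upper_sieve (Icc 1 T).powerset (fun e => N0 + MM κ (10 ^ g) T e) ((2 : ℝ) ^ T)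
    (by positivity) (fun q => |(cnt κ (10 ^ g) T N0 q : ℝ) - 2 ^ T / q|) (fun q => abs_nonneg _)
    (fun q _ _ => family_hr κ (10 ^ g) T N0 q) Y hY1 E' hE' (by
      intro e he d hd hdv
      have h1 := (mem_DD Y d).mp hd
      exact hE2 e he d h1.1.1 h1.1.2 hdv)
  refine hup.trans ?_
  have h2T : (0 : ℝ) < 2 ^ T := by positivity
  have hTpos : (0 : ℝ) < T := by linarith
  have h1 : (2 : ℝ) ^ T / HH Y ≤ 90 * 2 ^ T / T := by
    rw [div_le_div_iff₀ hHpos hTpos]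
    nlinarith
  have h2 : (2 : ℝ) ^ T / (T : ℝ) ^ 2 ≤ 10 * 2 ^ T / T := by
    rw [div_le_div_iff₀ (by positivity) hTpos]
    nlinarith [mul_pos h2T hTpos]
  have h3 : 100 * (2 : ℝ) ^ T / T = 90 * 2 ^ T / T + 10 * 2 ^ T / T := by ring
  rw [h3]
  exact add_le_add h1 (herr.trans h2)

end Pool.Agent.Helper10
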