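import Pool.Agent.Helper10.Moments

/-! Counting members of the family divisible by `q`. -/

namespace Pool.Agent.Helper10

open Finset

/-- decomposition of the fractions `a/q` by their reduced denominators -/
lemma sum_fractions (q : ℕ) (hq : 0 < q) (f : ℝ → ℂ) :
    ∑ a ∈ range q, f ((a : ℝ) / q) = ∑ d ∈ q.divisors, ∑ a ∈ AA d, f ((a : ℝ) / d) := by
  rw [Finset.sum_sigma' q.divisors AA (fun d a => f ((a : ℝ) / d))]
  apply Finset.sum_nbij' (i := fun a => (⟨q / Nat.gcd a q, a / Nat.gcd a q⟩ : Σ _ : ℕ, ℕ))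
    (j := fun p => p.2 * (q / p.1))
  · intro a ha
    rw [Finset.mem_range] at ha
    have hg : 0 < Nat.gcd a q := Nat.gcd_pos_of_pos_right _ hq
    rw [Finset.mem_sigma]
    unfold AA
    rw [Nat.mem_divisors, Finset.mem_filter, Finset.mem_range]
    refine ⟨⟨Nat.div_dvd_of_dvd (Nat.gcd_dvd_right a q), hq.ne'⟩, ?_, ?_⟩
    · exact Nat.div_lt_div_of_lt_of_dvd (Nat.gcd_dvd_right a q) ha
    · exact Nat.coprime_div_gcd_div_gcd hg
  · intro p hp
    rw [Finset.mem_sigma] at hp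
    unfold AA at hp
    rw [Nat.mem_divisors, Finset.mem_filter, Finset.mem_range] at hp
    obtain ⟨⟨h1, h2⟩, h3, h4⟩ := hp
    rw [Finset.mem_range]
    have hpos : 0 < q / p.1 := Nat.div_pos (Nat.le_of_dvd hq h1) (Nat.pos_of_dvd_of_pos h1 hq)
    calc p.2 * (q / p.1) < p.1 * (q / p.1) := Nat.mul_lt_mul_of_pos_right h3 hpos
      _ = q := Nat.mul_div_cancel' h1
  · intro a ha
    have hg : 0 < Nat.gcd a q := Nat.gcd_pos_of_pos_right _ hq
    show a / Nat.gcd a q * (q / (q / Nat.gcd a q)) = a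
    rw [Nat.div_div_self (Nat.gcd_dvd_right a q) hq.ne']
    exact Nat.div_mul_cancel (Nat.gcd_dvd_left a q)
  · intro p hp
    rw [Finset.mem_sigma] at hp
    unfold AA at hp
    rw [Nat.mem_divisors, Finset.mem_filter, Finset.mem_range] at hp
    obtain ⟨⟨h1, h2⟩, h3, h4⟩ := hp
    obtain ⟨d, a⟩ := p
    simp only at h1 h3 h4 ⊢
    obtain ⟨e, rfl⟩ := h1
    have hd : 0 < d := Nat.pos_of_mul_pos_right hq
    have he : 0 < e := Nat.pos_of_mul_pos_left hq
    have e1 : d * e / d = e := Nat.mul_div_cancel_left e hd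
    rw [e1]
    have e2 : Nat.gcd (a * e) (d * e) = e := by
      rw [Nat.gcd_mul_right, h4, one_mul]
    rw [e2, Nat.mul_div_cancel _ he, Nat.mul_div_cancel _ he]
  · intro a ha
    have hg : 0 < Nat.gcd a q := Nat.gcd_pos_of_pos_right _ hq
    show f ((a : ℝ) / q) = f (((a / Nat.gcd a q : ℕ) : ℝ) / ((q / Nat.gcd a q : ℕ) : ℝ))
    congr 1
    rw [Nat.cast_div (Nat.gcd_dvd_left a q) (by positivity),
      Nat.cast_div (Nat.gcd_dvd_right a q) (by positivity)]
    have : ((Nat.gcd a q : ℕ) : ℝ) ≠ 0 := by positivity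
    field_simp

/-- sum of `FF` over reduced residues modulo `d` -/
noncomputable def Psi (κ b T d : ℕ) : ℝ := ∑ a ∈ AA d, FF κ b T (Icc 1 T) ((a : ℝ) / d)

lemma Psi_nonneg (κ b T d : ℕ) : 0 ≤ Psi κ b T d :=
  Finset.sum_nonneg fun _ _ => FF_nonneg _ _ _ _ _

/-- number of members of the family divisible by `q` -/
def cnt (κ b T N0 q : ℕ) : ℕ := ((Icc 1 T).powerset.filter (fun ε => q ∣ N0 + MM κ b T ε)).card

theorem count_bound (κ b T N0 q : ℕ) (hq : 0 < q) :
    |(cnt κ b T N0 q : ℝ) - 2 ^ T / q| ≤ 2 ^ T / q * ∑ d ∈ q.divisors.erase 1, Psi κ b T d := by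
  have hq' : (0 : ℝ) < q := by exact_mod_cast hq
  set G : ℝ → ℂ := fun α => ∑ ε ∈ (Icc 1 T).powerset, ee (α * ((N0 + MM κ b T ε : ℕ) : ℝ)) with hG
  have h1 : (q : ℂ) * (cnt κ b T N0 q : ℂ) = ∑ a ∈ range q, G ((a : ℝ) / q) := by
    simp only [hG]
    rw [Finset.sum_comm]
    have e1 : ∀ ε ∈ (Icc 1 T).powerset, ∑ a ∈ range q,
        ee ((a : ℝ) / q * ((N0 + MM κ b T ε : ℕ) : ℝ)) =
        if q ∣ N0 + MM κ b T ε then (q : ℂ) else 0 := by
      intro ε _
      have := sum_ee_eq q hq ((N0 + MM κ b T ε : ℕ) : ℤ)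
      simp only [Int.natCast_dvd_natCast] at this
      rw [← this]
      apply Finset.sum_congr rfl
      intro a _
      congr 1
      push_cast
      ring
    rw [Finset.sum_congr rfl e1, ← Finset.sum_filter, Finset.sum_const, nsmul_eq_mul]
    unfold cnt
    ring
  have h2 : ∑ a ∈ range q, G ((a : ℝ) / q) =
      2 ^ T + ∑ d ∈ q.divisors.erase 1, ∑ a ∈ AA d, G ((a : ℝ) / d) := by
    rw [sum_fractions q hq G, ← Finset.add_sum_erase _ _ (Nat.one_mem_divisors.mpr hq.ne')]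
    congr 1
    have : AA 1 = {0} := by
      unfold AA
      ext x
      simp
    rw [this, Finset.sum_singleton]
    simp only [hG]
    simp [ee_zero]
  have h3 : ‖(q : ℂ) * (cnt κ b T N0 q : ℂ) - 2 ^ T‖ ≤
      2 ^ T * ∑ d ∈ q.divisors.erase 1, Psi κ b T d := by
    rw [h1, h2, add_sub_cancel_left]
    refine (norm_sum_le _ _).trans ?_
    rw [Finset.mul_sum]
    apply Finset.sum_le_sum
    intro d _
    refine (norm_sum_le _ _).trans ?_
    unfold Psi
    rw [Finset.mul_sum]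
    apply Finset.sum_le_sum
    intro a _
    have e1 : G ((a : ℝ) / d) = ee ((a : ℝ) / d * N0) *
        ∑ ε ∈ (Icc 1 T).powerset, ee ((a : ℝ) / d * (MM κ b T ε : ℝ)) := by
      simp only [hG]
      rw [Finset.mul_sum]
      apply Finset.sum_congr rfl
      intro ε _
      rw [← ee_add]
      congr 1
      push_cast
      ring
    rw [e1, norm_mul, norm_ee, one_mul, ← FF_eq, Nat.card_Icc, Nat.add_sub_cancel]
  have h4 : ‖(q : ℂ) * (cnt κ b T N0 q : ℂ) - 2 ^ T‖ = |(q : ℝ) * (cnt κ b T N0 q : ℝ) - 2 ^ T| := by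
    rw [← Real.norm_eq_abs, ← Complex.norm_real]
    congr 1
    push_cast
    rfl
  rw [h4] at h3
  have h5 : (cnt κ b T N0 q : ℝ) - 2 ^ T / q = ((q : ℝ) * (cnt κ b T N0 q : ℝ) - 2 ^ T) / q := by
    field_simp
  rw [h5, abs_div, abs_of_pos hq', div_mul_eq_mul_div]
  exact div_le_div_of_nonneg_right h3 hq'.le

end Pool.Agent.Helper10
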