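import Mathlib

/-! The divisor bound, and weighted divisor sums. -/

namespace Pool.Agent.Helper10

open Finset

/-- number of divisors -/
def tau (n : ℕ) : ℕ := n.divisors.card

lemma succ_pow_le (k a : ℕ) : (a + 1) ^ k ≤ (k.factorial * 2 ^ k) * 2 ^ a := by
  have h1 : (a + 1) ^ k ≤ (a + 1).ascFactorial k := Nat.pow_succ_le_ascFactorial (a + 1) k
  have h2 : (a + 1).ascFactorial k = k.factorial * (a + k).choose k :=
    Nat.ascFactorial_eq_factorial_mul_choose a k
  have h3 : (a + k).choose k ≤ 2 ^ (a + k) := Nat.choose_le_two_pow _ _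
  calc (a + 1) ^ k ≤ k.factorial * (a + k).choose k := h1.trans_eq h2
    _ ≤ k.factorial * 2 ^ (a + k) := Nat.mul_le_mul_left _ h3
    _ = (k.factorial * 2 ^ k) * 2 ^ a := by rw [pow_add]; ring

theorem divisor_bound (k : ℕ) : ∃ C : ℕ, 1 ≤ C ∧ ∀ n : ℕ, n ≠ 0 → tau n ^ k ≤ C * n := by
  set A := k.factorial * 2 ^ k with hA
  have hA1 : 1 ≤ A := Nat.mul_pos (Nat.factorial_pos k) (by positivity)
  refine ⟨A ^ (2 ^ k), Nat.one_le_pow _ _ hA1, ?_⟩
  intro n hn
  unfold tau
  rw [Nat.card_divisors hn, ← Finset.prod_pow]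
  have h1 : ∏ p ∈ n.primeFactors, (n.factorization p + 1) ^ k ≤
      ∏ p ∈ n.primeFactors, ((if p < 2 ^ k then A else 1) * p ^ n.factorization p) := by
    apply Finset.prod_le_prod'
    intro p hp
    have hp' := Nat.prime_of_mem_primeFactors hp
    split_ifs with h
    · calc (n.factorization p + 1) ^ k ≤ A * 2 ^ n.factorization p := succ_pow_le k _
        _ ≤ A * p ^ n.factorization p :=
          Nat.mul_le_mul_left _ (Nat.pow_le_pow_left hp'.two_le _)
    · push Not at h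
      rw [one_mul]
      have h2 : n.factorization p + 1 ≤ 2 ^ n.factorization p := Nat.lt_two_pow_self
      calc (n.factorization p + 1) ^ k ≤ (2 ^ n.factorization p) ^ k := Nat.pow_le_pow_left h2 k
        _ = (2 ^ k) ^ n.factorization p := by rw [← pow_mul, ← pow_mul, mul_comm]
        _ ≤ p ^ n.factorization p := Nat.pow_le_pow_left h _
  refine h1.trans ?_
  rw [Finset.prod_mul_distrib]
  have h3 : ∏ p ∈ n.primeFactors, p ^ n.factorization p = n := Nat.prod_factorization_pow_eq_self hn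
  rw [h3]
  apply Nat.mul_le_mul_right
  rw [← Finset.prod_filter, Finset.prod_const]
  apply Nat.pow_le_pow_right hA1
  calc (n.primeFactors.filter (fun p => p < 2 ^ k)).card ≤ (range (2 ^ k)).card := by
        apply Finset.card_le_card
        intro p hp
        rw [Finset.mem_filter] at hp
        exact Finset.mem_range.mpr hp.2
    _ = 2 ^ k := Finset.card_range _

lemma tau_pos (n : ℕ) (hn : n ≠ 0) : 1 ≤ tau n := by
  unfold tau
  exact Finset.card_pos.mpr ⟨1, Nat.one_mem_divisors.mpr hn⟩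

lemma tau_mul_le (m n : ℕ) : tau (m * n) ≤ tau m * tau n := by
  unfold tau
  rcases eq_or_ne (m * n) 0 with h | h
  · simp [h]
  rw [← Finset.card_product]
  -- every divisor of m n is a product of divisors
  have hsub : (m * n).divisors ⊆ (m.divisors ×ˢ n.divisors).image (fun x => x.1 * x.2) := by
    intro d hd
    rw [Nat.mem_divisors] at hd
    obtain ⟨a, b, ha, hb, hab⟩ := (Nat.dvd_mul.mp hd.1)
    rw [Finset.mem_image]
    refine ⟨(a, b), ?_, hab⟩
    rw [Finset.mem_product, Nat.mem_divisors, Nat.mem_divisors]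
    exact ⟨⟨ha, fun h0 => h (by rw [h0, zero_mul])⟩, ⟨hb, fun h0 => h (by rw [h0, mul_zero])⟩⟩
  exact (Finset.card_le_card hsub).trans Finset.card_image_le

/-- `h_j(M) = sum_{1 ≤ m ≤ M} tau(m)^j / m` -/
noncomputable def hsum (j M : ℕ) : ℝ := ∑ m ∈ Icc 1 M, (tau m : ℝ) ^ j / m

lemma hsum_nonneg (j M : ℕ) : 0 ≤ hsum j M := by
  unfold hsum
  positivity

lemma hsum_succ_le (j M : ℕ) : hsum (j + 1) M ≤ hsum j M ^ 2 := by
  unfold hsum
  have h1 : ∀ m ∈ Icc 1 M, (tau m : ℝ) ^ (j + 1) / m =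
      ∑ x ∈ m.divisorsAntidiagonal, (tau (x.1 * x.2) : ℝ) ^ j / ((x.1 * x.2 : ℕ) : ℝ) := by
    intro m _
    have : ∀ x ∈ m.divisorsAntidiagonal, (tau (x.1 * x.2) : ℝ) ^ j / ((x.1 * x.2 : ℕ) : ℝ) =
        (tau m : ℝ) ^ j / m := by
      intro x hx
      rw [Nat.mem_divisorsAntidiagonal] at hx
      rw [hx.1]
    rw [Finset.sum_congr rfl this, Finset.sum_const]
    have hc : (m.divisorsAntidiagonal).card = tau m := by
      unfold tau
      rw [← Nat.map_div_right_divisors, Finset.card_map]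
    rw [hc, nsmul_eq_mul, pow_succ]
    ring
  rw [Finset.sum_congr rfl h1]
  rw [sq, Finset.sum_mul_sum, ← Finset.sum_product', Finset.sum_sigma']
  have h2 : ∑ s ∈ (Icc 1 M).sigma (fun m => m.divisorsAntidiagonal),
      (tau (s.2.1 * s.2.2) : ℝ) ^ j / ((s.2.1 * s.2.2 : ℕ) : ℝ) ≤
      ∑ x ∈ Icc 1 M ×ˢ Icc 1 M, (tau (x.1 * x.2) : ℝ) ^ j / ((x.1 * x.2 : ℕ) : ℝ) := by
    rw [← Finset.sum_image (s := (Icc 1 M).sigma (fun m => m.divisorsAntidiagonal))
      (g := fun s : (_ : ℕ) × (ℕ × ℕ) => s.2)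
      (f := fun x : ℕ × ℕ => (tau (x.1 * x.2) : ℝ) ^ j / ((x.1 * x.2 : ℕ) : ℝ))]
    · apply Finset.sum_le_sum_of_subset_of_nonneg
      · intro x hx
        rw [Finset.mem_image] at hx
        obtain ⟨s, hs, rfl⟩ := hx
        rw [Finset.mem_sigma, Finset.mem_Icc, Nat.mem_divisorsAntidiagonal] at hs
        obtain ⟨⟨h1, h2⟩, h3, h4⟩ := hs
        rw [Finset.mem_product, Finset.mem_Icc, Finset.mem_Icc]
        have hne1 : s.2.1 ≠ 0 := by
          intro h0
          rw [h0, zero_mul] at h3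
          exact h4 h3.symm
        have hne2 : s.2.2 ≠ 0 := by
          intro h0
          rw [h0, mul_zero] at h3
          exact h4 h3.symm
        refine ⟨⟨by omega, ?_⟩, ⟨by omega, ?_⟩⟩
        · calc s.2.1 ≤ s.2.1 * s.2.2 := Nat.le_mul_of_pos_right _ (by omega)
            _ ≤ M := by rw [h3]; exact h2
        · calc s.2.2 ≤ s.2.1 * s.2.2 := Nat.le_mul_of_pos_left _ (by omega)
            _ ≤ M := by rw [h3]; exact h2
      · intro _ _ _
        positivity
    · intro s hs s' hs' hss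
      simp only [Finset.coe_sigma, Set.mem_sigma_iff, Finset.mem_coe, Finset.mem_Icc,
        Nat.mem_divisorsAntidiagonal] at hs hs'
      obtain ⟨m, x⟩ := s
      obtain ⟨m', x'⟩ := s'
      simp only at hss hs hs'
      subst hss
      have : m = m' := by rw [← hs.2.1, ← hs'.2.1]
      subst this
      rfl
  refine h2.trans ?_
  apply Finset.sum_le_sum
  intro x hx
  rw [Finset.mem_product, Finset.mem_Icc, Finset.mem_Icc] at hx
  have hpos1 : (0 : ℝ) < x.1 := by exact_mod_cast (by omega : 0 < x.1)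
  have hpos2 : (0 : ℝ) < x.2 := by exact_mod_cast (by omega : 0 < x.2)
  rw [div_mul_div_comm, ← mul_pow]
  push_cast
  apply div_le_div_of_nonneg_right _ (by positivity)
  apply pow_le_pow_left₀ (by positivity)
  exact_mod_cast tau_mul_le x.1 x.2

lemma harmonic_Icc_le (M : ℕ) (hM : 1 ≤ M) : ∑ m ∈ Icc 1 M, (1 : ℝ) / m ≤ 1 + Real.log M := by
  have h := harmonic_le_one_add_log M
  rw [harmonic_eq_sum_Icc] at h
  push_cast at h
  simpa [one_div] using h

lemma hsum_le (j M : ℕ) (hM : 1 ≤ M) : hsum j M ≤ (1 + Real.log M) ^ (2 ^ j) := by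
  induction j with
  | zero =>
    unfold hsum
    simpa using harmonic_Icc_le M hM
  | succ j ih =>
    calc hsum (j + 1) M ≤ hsum j M ^ 2 := hsum_succ_le j M
      _ ≤ ((1 + Real.log M) ^ (2 ^ j)) ^ 2 := pow_le_pow_left₀ (hsum_nonneg j M) ih 2
      _ = (1 + Real.log M) ^ (2 ^ (j + 1)) := by rw [← pow_mul, pow_succ]

end Pool.Agent.Helper10
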