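import Mathlib

/-! Basic facts about decimal palindromes given by digit functions. -/

namespace Pool.Agent.Helper10

/-- value of a digit list given by a function. -/
lemma ofDigits_map_range (f : ℕ → ℕ) (l : ℕ) :
    Nat.ofDigits 10 ((List.range l).map f) = ∑ i ∈ Finset.range l, f i * 10 ^ i := by
  induction l with
  | zero => simp
  | succ l ih =>
    rw [List.range_succ, List.map_append, Nat.ofDigits_append, ih, Finset.sum_range_succ]
    simp
    ring

lemma digits_sum_range (f : ℕ → ℕ) (l : ℕ) (hl : 0 < l) (hf : ∀ i < l, f i < 10)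
    (htop : f (l - 1) ≠ 0) :
    Nat.digits 10 (∑ i ∈ Finset.range l, f i * 10 ^ i) = (List.range l).map f := by
  rw [← ofDigits_map_range]
  apply Nat.digits_ofDigits 10 (by norm_num)
  · intro d hd
    simp only [List.mem_map, List.mem_range] at hd
    obtain ⟨i, hi, rfl⟩ := hd
    exact hf i hi
  · intro h
    rw [List.getLast_map]
    rw [List.getLast_range]
    exact htop

lemma reverse_map_range (f : ℕ → ℕ) (l : ℕ) (hsym : ∀ i < l, f (l - 1 - i) = f i) :
    ((List.range l).map f).reverse = (List.range l).map f := by
  apply List.ext_getElem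
  · simp
  · intro i h1 h2
    simp only [List.length_reverse, List.length_map, List.length_range] at h1
    simp [List.getElem_reverse, hsym i h1]

lemma digit_sum_range (f : ℕ → ℕ) (l : ℕ) (hl : 0 < l) (hf : ∀ i < l, f i < 10)
    (htop : f (l - 1) ≠ 0) (i : ℕ) :
    (∑ i ∈ Finset.range l, f i * 10 ^ i) / 10 ^ i % 10 = if i < l then f i else 0 := by
  rw [← Nat.getD_digits _ _ (by norm_num), digits_sum_range f l hl hf htop]
  split_ifs with h
  · simp [List.getD, h]
  · simp [List.getD, h]

/-- a number with `l` digits is the sum of its digits times powers of ten. -/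
lemma eq_sum_digits (N l : ℕ) (hl : (Nat.digits 10 N).length = l) :
    N = ∑ i ∈ Finset.range l, (N / 10 ^ i % 10) * 10 ^ i := by
  conv_lhs => rw [← Nat.ofDigits_digits 10 N]
  rw [← ofDigits_map_range]
  congr 1
  apply List.ext_getElem
  · simp [hl]
  · intro i h1 h2
    simp only [List.getElem_map, List.getElem_range]
    rw [← Nat.getD_digits _ _ (by norm_num)]
    simp [List.getD, h1]

lemma digit_symm (N l : ℕ) (hl : (Nat.digits 10 N).length = l)
    (hrev : (Nat.digits 10 N).reverse = Nat.digits 10 N) (i : ℕ) (hi : i < l) :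
    N / 10 ^ (l - 1 - i) % 10 = N / 10 ^ i % 10 := by
  rw [← Nat.getD_digits _ _ (by norm_num), ← Nat.getD_digits _ _ (by norm_num)]
  conv_rhs => rw [← hrev]
  have h1 : i < (Nat.digits 10 N).reverse.length := by simpa [hl] using hi
  have h2 : l - 1 - i < (Nat.digits 10 N).length := by omega
  rw [List.getD_eq_getElem _ _ h1, List.getD_eq_getElem _ _ h2, List.getElem_reverse]
  congr 1
  omega

end Pool.Agent.Helper10
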