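import Pool.Agent.Helper10.Moments

/-! The `2m`-th moment of the inner block over reduced fractions, by the large sieve. -/

namespace Pool.Agent.Helper10

open Finset

/-- the set of reduced fractions as a single finset -/
def farey (b R : ℕ) : Finset (Σ _ : ℕ, ℕ) := (QQ b R).sigma (fun q => AA q)

lemma mem_farey (b R : ℕ) (p : Σ _ : ℕ, ℕ) : p ∈ farey b R ↔
    (R < p.1 ∧ p.1 ≤ 2 * R ∧ p.1.Coprime b) ∧ p.2 < p.1 ∧ p.2.Coprime p.1 := by
  unfold farey QQ AA
  rw [Finset.mem_sigma, Finset.mem_filter, Finset.mem_filter, Finset.mem_Ioc, Finset.mem_range]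
  tauto

lemma nd_ge_of_not_dvd (n : ℤ) (Q : ℕ) (hQ : 0 < Q) (h : ¬ (Q : ℤ) ∣ n) :
    1 / (Q : ℝ) ≤ nd ((n : ℝ) / Q) := by
  unfold nd
  set k := round ((n : ℝ) / Q) with hk
  have hQ' : (0 : ℝ) < Q := by exact_mod_cast hQ
  have h1 : (n : ℝ) / Q - k = ((n - k * Q : ℤ) : ℝ) / Q := by
    push_cast
    field_simp
  rw [h1, abs_div, abs_of_pos hQ']
  apply div_le_div_of_nonneg_right _ hQ'.le
  have h2 : n - k * Q ≠ 0 := by
    intro h0
    apply h
    exact ⟨k, by linarith⟩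
  have h3 : 1 ≤ |n - k * Q| := Int.one_le_abs h2
  exact_mod_cast h3

lemma farey_spacing (b R κ' : ℕ) (hκ : ∀ q : ℕ, q.Coprime b → q.Coprime κ')
    (p p' : Σ _ : ℕ, ℕ) (hp : p ∈ farey b R) (hp' : p' ∈ farey b R) (hne : p ≠ p') :
    1 / ((2 * R : ℝ) ^ 2) ≤ nd ((κ' : ℝ) * ((p.2 : ℝ) / p.1) - (κ' : ℝ) * ((p'.2 : ℝ) / p'.1)) := by
  rw [mem_farey] at hp hp'
  obtain ⟨q, a⟩ := p
  obtain ⟨q', a'⟩ := p'
  simp only at hp hp' ⊢
  obtain ⟨⟨h1, h2, h3⟩, h4, h5⟩ := hp
  obtain ⟨⟨h1', h2', h3'⟩, h4', h5'⟩ := hp'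
  have hq : 0 < q := by omega
  have hq' : 0 < q' := by omega
  have hqR : (0 : ℝ) < q := by exact_mod_cast hq
  have hqR' : (0 : ℝ) < q' := by exact_mod_cast hq'
  have e1 : (κ' : ℝ) * ((a : ℝ) / q) - (κ' : ℝ) * ((a' : ℝ) / q') =
      (((κ' : ℤ) * ((a : ℤ) * q' - a' * q) : ℤ) : ℝ) / ((q * q' : ℕ) : ℝ) := by
    push_cast
    field_simp
  rw [e1]
  have hnd : ¬ ((q * q' : ℕ) : ℤ) ∣ (κ' : ℤ) * ((a : ℤ) * q' - a' * q) := by
    intro hdv
    apply hne
    have hcop : IsCoprime ((q * q' : ℕ) : ℤ) (κ' : ℤ) := by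
      rw [Nat.isCoprime_iff_coprime]
      exact Nat.Coprime.mul_left (hκ q h3) (hκ q' h3')
    have hdv2 := hcop.dvd_of_dvd_mul_left hdv
    have hA : (q : ℤ) ∣ (a : ℤ) * q' := by
      have : (q : ℤ) ∣ (a : ℤ) * q' - a' * q := (Dvd.intro (q' : ℤ) (by push_cast; ring)).trans hdv2
      have h6 := dvd_add this (Dvd.intro_left (a' : ℤ) rfl : (q : ℤ) ∣ (a' : ℤ) * q)
      simpa using h6
    have hB : (q' : ℤ) ∣ (a' : ℤ) * q := by
      have : (q' : ℤ) ∣ (a : ℤ) * q' - a' * q :=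
        (Dvd.intro_left (q : ℤ) (by push_cast; ring)).trans hdv2
      have h6 := dvd_sub (Dvd.intro_left (a : ℤ) rfl : (q' : ℤ) ∣ (a : ℤ) * q') this
      simpa using h6
    have hA' : q ∣ q' := by
      have : q ∣ a * q' := by exact_mod_cast hA
      exact (Nat.Coprime.dvd_of_dvd_mul_left h5.symm this)
    have hB' : q' ∣ q := by
      have : q' ∣ a' * q := by exact_mod_cast hB
      exact (Nat.Coprime.dvd_of_dvd_mul_left h5'.symm this)
    have hqq := Nat.dvd_antisymm hA' hB'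
    subst hqq
    have hC : (q : ℤ) ∣ (a : ℤ) - a' := by
      have e2 : (a : ℤ) * q - a' * q = (q : ℤ) * ((a : ℤ) - a') := by ring
      rw [e2] at hdv2
      push_cast at hdv2
      exact Int.dvd_of_mul_dvd_mul_left (by exact_mod_cast hq.ne') hdv2
    have hD : (a : ℤ) - a' = 0 := by
      apply Int.eq_zero_of_abs_lt_dvd hC
      rw [abs_lt]
      constructor <;> push_cast <;> omega
    have : a = a' := by
      have : (a : ℤ) = a' := by linarith
      exact_mod_cast this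
    rw [this]
  refine le_trans ?_ (nd_ge_of_not_dvd _ _ (Nat.mul_pos hq hq') hnd)
  apply one_div_le_one_div_of_le (by positivity)
  push_cast
  rw [sq]
  apply mul_le_mul _ _ hqR'.le (by positivity)
  · exact_mod_cast h2
  · exact_mod_cast h2'

lemma prod_Icc_fin {M : Type*} [CommMonoid M] (L : ℕ) (g : ℕ → M) :
    ∏ t ∈ Icc 1 L, g t = ∏ i : Fin L, g ((i : ℕ) + 1) := by
  rw [← Finset.prod_range (fun i => g (i + 1))]
  rw [Finset.range_eq_Ico, Finset.prod_Ico_add' (fun i => g i) 0 L 1]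
  rfl

lemma sum_Icc_fin {M : Type*} [AddCommMonoid M] (L : ℕ) (g : ℕ → M) :
    ∑ t ∈ Icc 1 L, g t = ∑ i : Fin L, g ((i : ℕ) + 1) := by
  rw [← Finset.sum_range (fun i => g (i + 1))]
  rw [Finset.range_eq_Ico, Finset.sum_Ico_add' (fun i => g i) 0 L 1]
  rfl

lemma centralBinom_sum (m : ℕ) :
    ∑ k ∈ range (m + 1), ((m.choose k : ℝ) / 2 ^ m) ^ 2 = (Nat.centralBinom m : ℝ) / 4 ^ m := by
  have h := Nat.sum_range_choose_sq m
  rw [Nat.centralBinom_eq_two_mul_choose, ← h]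
  push_cast
  rw [Finset.sum_div]
  apply Finset.sum_congr rfl
  intro k _
  rw [div_pow, ← pow_mul, mul_comm m 2, pow_mul]
  norm_num

/-- the inner moment -/
theorem inner_moment (κ b T L R m : ℕ) (hb : 2 ≤ b) (hm : m ≤ (b - 1) ^ 2)
    (hκ : ∀ q : ℕ, q.Coprime b → q.Coprime κ) (hL : L ≤ T) (hR : 1 ≤ R)
    (hU : (2 * R) ^ 2 ≤ m * b ^ (2 * L + 1) + 1) :
    ∑ q ∈ QQ b R, ∑ a ∈ AA q, FF κ b T (Icc 1 L) ((a : ℝ) / q) ^ (2 * m) ≤
      5 * ((m * b ^ (2 * L + 1) + 1 : ℕ) : ℝ) * ((Nat.centralBinom m : ℝ) / 4 ^ m) ^ L := by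
  classical
  set κ' : ℕ := κ * b ^ (T - L) with hκ'
  have hκ'c : ∀ q : ℕ, q.Coprime b → q.Coprime κ' := fun q hq =>
    Nat.Coprime.mul_right (hκ q hq) (Nat.Coprime.pow_right _ hq)
  rw [Finset.sum_sigma' (QQ b R) AA (fun q a => FF κ b T (Icc 1 L) ((a : ℝ) / q) ^ (2 * m))] 
  set K : Finset (Fin L → ℕ) := Fintype.piFinset (fun _ => range (m + 1)) with hK
  set u : (Fin L → ℕ) → ℕ := fun p => ∑ i, p i * ww b L ((i : ℕ) + 1) with hu
  set c : (Fin L → ℕ) → ℂ := fun p => ∏ i, ((m.choose (p i) : ℂ) / 2 ^ m) with hc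
  have hR' : (0 : ℝ) < R := by exact_mod_cast hR
  have LS := large_sieve (farey b R)
    (fun p : (Σ _ : ℕ, ℕ) => (κ' : ℝ) * ((p.2 : ℝ) / p.1)) (1 / (2 * R : ℝ) ^ 2) (by positivity)
    (fun p hp p' hp' hne => farey_spacing b R κ' hκ'c p p' hp hp' hne) K u
    (by
      intro p hp p' hp' hpp
      rw [Finset.mem_coe, hK, Fintype.mem_piFinset] at hp hp'
      have key := uniq b hb L
        (fun t => if h : t - 1 < L then ((p ⟨t - 1, h⟩ : ℤ) - p' ⟨t - 1, h⟩) else 0)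
        (by
          intro t _
          have hbc : ((b - 1 : ℕ) : ℤ) = (b : ℤ) - 1 := by
            rw [Nat.cast_sub (by omega)]; simp
          have hm' : (m : ℤ) ≤ ((b : ℤ) - 1) ^ 2 := by
            rw [← hbc]
            exact_mod_cast hm
          refine le_trans ?_ hm'
          split_ifs with h
          · have h1 := Finset.mem_range.mp (hp ⟨t - 1, h⟩)
            have h2 := Finset.mem_range.mp (hp' ⟨t - 1, h⟩)
            rw [abs_le]
            constructor <;> omega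
          · simp)
        (by
          rw [sum_Icc_fin]
          have e1 : ∀ i : Fin L, (if h : ((i : ℕ) + 1) - 1 < L then
              ((p ⟨((i : ℕ) + 1) - 1, h⟩ : ℤ) - p' ⟨((i : ℕ) + 1) - 1, h⟩) else 0) *
              (ww b L ((i : ℕ) + 1) : ℤ) =
              (p i : ℤ) * (ww b L ((i : ℕ) + 1) : ℤ) - (p' i : ℤ) * (ww b L ((i : ℕ) + 1) : ℤ) := by
            intro i
            rw [dif_pos (by simp)]
            simp only [Nat.add_sub_cancel, Fin.eta]
            ring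
          rw [Finset.sum_congr rfl (fun i _ => e1 i), Finset.sum_sub_distrib, sub_eq_zero]
          simp only [hu] at hpp
          exact_mod_cast hpp)
      funext i
      have := key ((i : ℕ) + 1) (by rw [Finset.mem_Icc]; omega)
      simp only [Nat.add_sub_cancel, Fin.is_lt, dif_pos, Fin.eta] at this
      omega)
    (m * b ^ (2 * L + 1) + 1)
    (by
      intro p hp
      rw [hK, Fintype.mem_piFinset] at hp
      rw [Nat.lt_succ_iff]
      calc u p = ∑ i, p i * ww b L ((i : ℕ) + 1) := rfl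
        _ ≤ ∑ i : Fin L, m * ww b L ((i : ℕ) + 1) := by
            apply Finset.sum_le_sum
            intro i _
            apply Nat.mul_le_mul_right
            have := Finset.mem_range.mp (hp i)
            omega
        _ = m * ∑ t ∈ Icc 1 L, ww b L t := by rw [← Finset.mul_sum, sum_Icc_fin]
        _ ≤ m * b ^ (2 * L + 1) := Nat.mul_le_mul_left _ (sum_ww_le b L hb))
    (by
      rw [one_div_one_div]
      exact_mod_cast hU)
    c
  have hcn : ∑ p ∈ K, ‖c p‖ ^ 2 = ((Nat.centralBinom m : ℝ) / 4 ^ m) ^ L := by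
    have e1 : ∀ p ∈ K, ‖c p‖ ^ 2 = ∏ i : Fin L, ((m.choose (p i) : ℝ) / 2 ^ m) ^ 2 := by
      intro p _
      rw [hc]
      simp only
      rw [norm_prod, ← Finset.prod_pow]
      apply Finset.prod_congr rfl
      intro i _
      rw [norm_div, norm_pow, Complex.norm_natCast]
      norm_num
    rw [Finset.sum_congr rfl e1, hK,
      ← Finset.prod_univ_sum (fun _ : Fin L => range (m + 1))
        (fun _ k => ((m.choose k : ℝ) / 2 ^ m) ^ 2)]
    rw [Finset.prod_const, centralBinom_sum, Finset.card_univ, Fintype.card_fin]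
  rw [hcn] at LS
  refine le_trans (le_of_eq ?_) LS
  unfold farey
  apply Finset.sum_congr rfl
  intro p _
  rw [pow_mul']
  congr 1
  -- FF^m = norm of the expansion
  unfold FF
  rw [prod_Icc_fin, ← Finset.prod_pow]
  have e2 : ∀ i : Fin L, ‖(1 + ee ((p.2 : ℝ) / p.1 * ((κ * ww b T ((i : ℕ) + 1) : ℕ) : ℝ))) / 2‖ ^ m =
      ‖∑ k ∈ range (m + 1), ((m.choose k : ℂ) / 2 ^ m) *
        ee ((κ' : ℝ) * ((p.2 : ℝ) / p.1) * (ww b L ((i : ℕ) + 1) : ℝ)) ^ k‖ := by
    intro i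
    have hi : (i : ℕ) + 1 ≤ L := i.isLt
    have h2 := ww_add_left b L ((i : ℕ) + 1) (T - L) hi
    rw [show L + (T - L) = T by omega] at h2
    rw [h2, ← norm_pow]
    have e3 : (p.2 : ℝ) / p.1 * ((κ * (b ^ (T - L) * ww b L ((i : ℕ) + 1)) : ℕ) : ℝ) =
        (κ' : ℝ) * ((p.2 : ℝ) / p.1) * (ww b L ((i : ℕ) + 1) : ℝ) := by
      rw [hκ']
      push_cast
      ring
    rw [e3]
    congr 1
    rw [div_pow, add_comm, add_pow, Finset.sum_div]
    apply Finset.sum_congr rfl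
    intro k _
    rw [one_pow, mul_one]
    ring
  rw [Finset.prod_congr rfl (fun i _ => e2 i), ← norm_prod,
    Finset.prod_univ_sum (fun _ : Fin L => range (m + 1))]
  congr 1
  apply Finset.sum_congr rfl
  intro k _
  rw [Finset.prod_mul_distrib]
  congr 1
  simp only [hu]
  push_cast
  rw [Finset.sum_mul, ee_sum]
  apply Finset.prod_congr rfl
  intro i _
  rw [← ee_nat_mul]
  congr 1
  ring

end Pool.Agent.Helper10
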