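import Mathlib
import Pool.Agent.Helper10.Circ

/-! An elementary large sieve inequality with constant `5 U`. -/

namespace Pool.Agent.Helper10

open Finset

lemma sum_inv_sq_le_two (K : Finset ℕ) (hK : ∀ k ∈ K, 1 ≤ k) :
    ∑ k ∈ K, (1 : ℝ) / (k : ℝ) ^ 2 ≤ 2 := by
  have h1 : K ⊆ Finset.Ioo 0 (K.sup id + 1) := by
    intro k hk
    rw [Finset.mem_Ioo]
    refine ⟨hK k hk, ?_⟩
    have : k ≤ K.sup id := Finset.le_sup (f := id) hk
    omega
  have h2 := sum_Ioo_inv_sq_le (α := ℝ) 0 (K.sup id + 1)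
  norm_num at h2
  calc ∑ k ∈ K, (1 : ℝ) / (k : ℝ) ^ 2 ≤ ∑ k ∈ Finset.Ioo 0 (K.sup id + 1), (1 : ℝ) / (k : ℝ) ^ 2 :=
        Finset.sum_le_sum_of_subset_of_nonneg h1 (fun _ _ _ => by positivity)
    _ ≤ 2 := by simpa [one_div] using h2

/-- one side of the spacing estimate. -/
lemma spacing_one_side {ι : Type*} (P : Finset ι) (x : ι → ℝ) (δ : ℝ) (hδ : 0 < δ)
    (hx : ∀ s ∈ P, δ ≤ x s) (hsp : ∀ s ∈ P, ∀ t ∈ P, s ≠ t → δ ≤ |x s - x t|) :
    ∑ s ∈ P, 1 / (x s) ^ 2 ≤ 2 / δ ^ 2 := by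
  classical
  set k : ι → ℕ := fun s => ⌊x s / δ⌋₊ with hk
  have hk1 : ∀ s ∈ P, 1 ≤ k s := by
    intro s hs
    rw [hk]
    apply Nat.le_floor
    rw [Nat.cast_one, le_div_iff₀ hδ, one_mul]
    exact hx s hs
  have hinj : Set.InjOn k P := by
    intro s hs t ht hst
    by_contra hne
    have h1 := hsp s hs t ht hne
    have hs0 : 0 ≤ x s / δ := div_nonneg (hδ.le.trans (hx s hs)) hδ.le
    have ht0 : 0 ≤ x t / δ := div_nonneg (hδ.le.trans (hx t ht)) hδ.le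
    have a1 := Nat.floor_le hs0
    have a2 := Nat.lt_floor_add_one (x s / δ)
    have b1 := Nat.floor_le ht0
    have b2 := Nat.lt_floor_add_one (x t / δ)
    have hst' : (⌊x s / δ⌋₊ : ℝ) = ⌊x t / δ⌋₊ := by exact_mod_cast hst
    rw [hst'] at a1 a2
    have h2 : |x s / δ - x t / δ| < 1 := by
      rw [abs_lt]
      constructor <;> linarith
    rw [← sub_div, abs_div, abs_of_pos hδ, div_lt_one hδ] at h2
    linarith
  calc ∑ s ∈ P, 1 / (x s) ^ 2 ≤ ∑ s ∈ P, (1 / δ ^ 2) * (1 / (k s : ℝ) ^ 2) := by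
        apply Finset.sum_le_sum
        intro s hs
        have hks : (1 : ℝ) ≤ k s := by exact_mod_cast hk1 s hs
        have h1 : (k s : ℝ) * δ ≤ x s := by
          have hs0 : 0 ≤ x s / δ := div_nonneg (hδ.le.trans (hx s hs)) hδ.le
          have := Nat.floor_le hs0
          rwa [le_div_iff₀ hδ] at this
        rw [one_div_mul_one_div, ← mul_pow]
        apply one_div_le_one_div_of_le (by positivity)
        apply pow_le_pow_left₀ (by positivity)
        rw [mul_comm]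
        exact h1
    _ = (1 / δ ^ 2) * ∑ m ∈ P.image k, (1 : ℝ) / (m : ℝ) ^ 2 := by
        rw [Finset.sum_image hinj, Finset.mul_sum]
    _ ≤ (1 / δ ^ 2) * 2 := by
        apply mul_le_mul_of_nonneg_left _ (by positivity)
        apply sum_inv_sq_le_two
        intro m hm
        rw [Finset.mem_image] at hm
        obtain ⟨s, hs, rfl⟩ := hm
        exact hk1 s hs
    _ = 2 / δ ^ 2 := by ring

lemma spacing {ι : Type*} [DecidableEq ι] (A : Finset ι) (α : ι → ℝ) (δ : ℝ) (hδ : 0 < δ)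
    (hsp : ∀ r ∈ A, ∀ s ∈ A, r ≠ s → δ ≤ nd (α r - α s)) (r : ι) (hr : r ∈ A) :
    ∑ s ∈ A.erase r, 1 / (nd (α r - α s)) ^ 2 ≤ 4 / δ ^ 2 := by
  set x : ι → ℝ := fun s => (α s - α r) - round (α s - α r) with hx
  have hnd : ∀ s, nd (α r - α s) = |x s| := by
    intro s
    rw [← nd_neg, neg_sub]
    rfl
  have hdist : ∀ s ∈ A, ∀ t ∈ A, s ≠ t → δ ≤ |x s - x t| := by
    intro s hs t ht hst
    refine (hsp s hs t ht hst).trans ?_
    have := nd_le (α s - α t) (round (α s - α r) - round (α t - α r))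
    refine this.trans (le_of_eq ?_)
    rw [hx]
    congr 1
    push_cast
    ring
  have hge : ∀ s ∈ A.erase r, δ ≤ |x s| := by
    intro s hs
    rw [Finset.mem_erase] at hs
    rw [← hnd]
    exact hsp r hr s hs.2 (Ne.symm hs.1)
  have h1 : ∀ s ∈ A.erase r, 1 / (nd (α r - α s)) ^ 2 = 1 / (x s) ^ 2 := by
    intro s _
    rw [hnd, sq_abs]
  rw [Finset.sum_congr rfl h1]
  rw [← Finset.sum_filter_add_sum_filter_not (A.erase r) (fun s => 0 < x s)]
  have hpos : ∑ s ∈ (A.erase r).filter (fun s => 0 < x s), 1 / (x s) ^ 2 ≤ 2 / δ ^ 2 := by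
    apply spacing_one_side _ _ _ hδ
    · intro s hs
      rw [Finset.mem_filter] at hs
      have := hge s hs.1
      rwa [abs_of_pos hs.2] at this
    · intro s hs t ht hst
      rw [Finset.mem_filter] at hs ht
      exact hdist s (Finset.mem_of_mem_erase hs.1) t (Finset.mem_of_mem_erase ht.1) hst
  have hneg : ∑ s ∈ (A.erase r).filter (fun s => ¬ 0 < x s), 1 / (x s) ^ 2 ≤ 2 / δ ^ 2 := by
    have : ∀ s ∈ (A.erase r).filter (fun s => ¬ 0 < x s), 1 / (x s) ^ 2 = 1 / (-x s) ^ 2 := by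
      intro s _
      rw [neg_sq]
    rw [Finset.sum_congr rfl this]
    apply spacing_one_side _ (fun s => - x s) _ hδ
    · intro s hs
      rw [Finset.mem_filter] at hs
      have := hge s hs.1
      have h0 : x s ≤ 0 := not_lt.mp hs.2
      rwa [abs_of_nonpos h0] at this
    · intro s hs t ht hst
      rw [Finset.mem_filter] at hs ht
      have := hdist s (Finset.mem_of_mem_erase hs.1) t (Finset.mem_of_mem_erase ht.1) hst
      rwa [show -x s - -x t = -(x s - x t) by ring, abs_neg]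
  have : (4 : ℝ) / δ ^ 2 = 2 / δ ^ 2 + 2 / δ ^ 2 := by ring
  rw [this]
  exact add_le_add hpos hneg

/-- row sums of the squared Dirichlet kernel. -/
lemma row_sum {ι : Type*} [DecidableEq ι] (A : Finset ι) (α : ι → ℝ) (δ : ℝ) (hδ : 0 < δ)
    (hsp : ∀ r ∈ A, ∀ s ∈ A, r ≠ s → δ ≤ nd (α r - α s)) (r : ι) (hr : r ∈ A) (H : ℕ) :
    ∑ s ∈ A, ‖∑ j ∈ range H, ee (j * (α r - α s))‖ ^ 2 ≤ (H : ℝ) ^ 2 + 1 / δ ^ 2 := by
  rw [← Finset.add_sum_erase A _ hr]
  apply add_le_add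
  · apply pow_le_pow_left₀ (norm_nonneg _)
    exact norm_geom_ee' H _
  · calc ∑ s ∈ A.erase r, ‖∑ j ∈ range H, ee (j * (α r - α s))‖ ^ 2
        ≤ ∑ s ∈ A.erase r, (1 / 4) * (1 / (nd (α r - α s)) ^ 2) := by
          apply Finset.sum_le_sum
          intro s hs
          rw [Finset.mem_erase] at hs
          have hpos : 0 < nd (α r - α s) := hδ.trans_le (hsp r hr s hs.2 (Ne.symm hs.1))
          have := norm_geom_ee H _ hpos
          calc ‖∑ j ∈ range H, ee (j * (α r - α s))‖ ^ 2 ≤ (1 / (2 * nd (α r - α s))) ^ 2 :=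
                pow_le_pow_left₀ (norm_nonneg _) this 2
            _ = (1 / 4) * (1 / (nd (α r - α s)) ^ 2) := by
                field_simp
                norm_num
      _ = (1 / 4) * ∑ s ∈ A.erase r, 1 / (nd (α r - α s)) ^ 2 := by rw [Finset.mul_sum]
      _ ≤ (1 / 4) * (4 / δ ^ 2) := by
          apply mul_le_mul_of_nonneg_left _ (by norm_num)
          exact spacing A α δ hδ hsp r hr
      _ = 1 / δ ^ 2 := by ring

lemma ofReal_norm_sq (z : ℂ) : ((‖z‖ ^ 2 : ℝ) : ℂ) = z * (starRingEnd ℂ) z := by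
  rw [Complex.mul_conj, Complex.normSq_eq_norm_sq]

/-- expansion of the double sum. -/
lemma double_sum_expand {ι : Type*} (A : Finset ι) (α : ι → ℝ) (b : ι → ℂ) (H : ℕ) :
    ((∑ i ∈ range H, ∑ j ∈ range H, ‖∑ r ∈ A, b r * ee (((i : ℝ) - j) * α r)‖ ^ 2 : ℝ) : ℂ) =
      ∑ r ∈ A, ∑ s ∈ A, b r * (starRingEnd ℂ) (b s) *
        ((‖∑ j ∈ range H, ee (j * (α r - α s))‖ ^ 2 : ℝ) : ℂ) := by
  push_cast
  have h1 : ∀ i ∈ range H, ∀ j ∈ range H,
      ((‖∑ r ∈ A, b r * ee (((i : ℝ) - j) * α r)‖ : ℂ)) ^ 2 =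
        ∑ r ∈ A, ∑ s ∈ A, b r * (starRingEnd ℂ) (b s) *
          (ee (i * (α r - α s)) * (starRingEnd ℂ) (ee (j * (α r - α s)))) := by
    intro i _ j _
    have := ofReal_norm_sq (∑ r ∈ A, b r * ee (((i : ℝ) - j) * α r))
    push_cast at this
    rw [this, map_sum, Finset.sum_mul_sum]
    apply Finset.sum_congr rfl
    intro r _
    apply Finset.sum_congr rfl
    intro s _
    rw [map_mul, ← ee_neg, ← ee_neg]
    have : ee (((i : ℝ) - j) * α r) * ee (-(((i : ℝ) - j) * α s)) =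
        ee (i * (α r - α s)) * ee (-(j * (α r - α s))) := by
      rw [← ee_add, ← ee_add]
      congr 1
      ring
    calc b r * ee (((i : ℝ) - j) * α r) * ((starRingEnd ℂ) (b s) * ee (-(((i : ℝ) - j) * α s)))
        = b r * (starRingEnd ℂ) (b s) *
          (ee (((i : ℝ) - j) * α r) * ee (-(((i : ℝ) - j) * α s))) := by ring
      _ = _ := by rw [this]
  rw [Finset.sum_congr rfl (fun i hi => Finset.sum_congr rfl (fun j hj => h1 i hi j hj))]
  -- swap sums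
  have h2 : ∀ r ∈ A, ∀ s ∈ A, b r * (starRingEnd ℂ) (b s) *
        ((‖∑ j ∈ range H, ee (j * (α r - α s))‖ : ℂ)) ^ 2 =
      ∑ i ∈ range H, ∑ j ∈ range H, b r * (starRingEnd ℂ) (b s) *
          (ee (i * (α r - α s)) * (starRingEnd ℂ) (ee (j * (α r - α s)))) := by
    intro r _ s _
    have := ofReal_norm_sq (∑ j ∈ range H, ee (j * (α r - α s)))
    push_cast at this
    rw [this, map_sum, Finset.sum_mul_sum, Finset.mul_sum]
    apply Finset.sum_congr rfl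
    intro i _
    rw [Finset.mul_sum]
  rw [Finset.sum_congr rfl (fun r hr => Finset.sum_congr rfl (fun s hs => h2 r hr s hs))]
  calc ∑ i ∈ range H, ∑ j ∈ range H, ∑ r ∈ A, ∑ s ∈ A, b r * (starRingEnd ℂ) (b s) *
          (ee (i * (α r - α s)) * (starRingEnd ℂ) (ee (j * (α r - α s))))
      = ∑ i ∈ range H, ∑ r ∈ A, ∑ j ∈ range H, ∑ s ∈ A, b r * (starRingEnd ℂ) (b s) *
          (ee (i * (α r - α s)) * (starRingEnd ℂ) (ee (j * (α r - α s)))) := by
        apply Finset.sum_congr rfl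
        intro i _
        exact Finset.sum_comm
    _ = ∑ r ∈ A, ∑ i ∈ range H, ∑ j ∈ range H, ∑ s ∈ A, b r * (starRingEnd ℂ) (b s) *
          (ee (i * (α r - α s)) * (starRingEnd ℂ) (ee (j * (α r - α s)))) := Finset.sum_comm
    _ = ∑ r ∈ A, ∑ i ∈ range H, ∑ s ∈ A, ∑ j ∈ range H, b r * (starRingEnd ℂ) (b s) *
          (ee (i * (α r - α s)) * (starRingEnd ℂ) (ee (j * (α r - α s)))) := by
        apply Finset.sum_congr rfl
        intro r _
        apply Finset.sum_congr rfl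
        intro i _
        exact Finset.sum_comm
    _ = _ := by
        apply Finset.sum_congr rfl
        intro r _
        exact Finset.sum_comm

/-- the dual large sieve inequality. -/
lemma dual_large_sieve {ι : Type*} (A : Finset ι) (α : ι → ℝ) (δ : ℝ) (hδ : 0 < δ)
    (hsp : ∀ r ∈ A, ∀ s ∈ A, r ≠ s → δ ≤ nd (α r - α s)) (U : ℕ) (hU : 1 / δ ≤ U)
    (b : ι → ℂ) :
    ∑ u ∈ range U, ‖∑ r ∈ A, b r * ee (u * α r)‖ ^ 2 ≤ 5 * U * ∑ r ∈ A, ‖b r‖ ^ 2 := by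
  classical
  have hUpos : (0 : ℝ) < U := lt_of_lt_of_le (by positivity) hU
  set H := 2 * U with hH
  have hrow := row_sum A α δ hδ hsp
  -- upper bound for the double sum
  have hD : ∑ i ∈ range H, ∑ j ∈ range H, ‖∑ r ∈ A, b r * ee (((i : ℝ) - j) * α r)‖ ^ 2 ≤
      ((H : ℝ) ^ 2 + 1 / δ ^ 2) * ∑ r ∈ A, ‖b r‖ ^ 2 := by
    have h0 : 0 ≤ ∑ i ∈ range H, ∑ j ∈ range H, ‖∑ r ∈ A, b r * ee (((i : ℝ) - j) * α r)‖ ^ 2 := by
      positivity
    have h1 : ∑ i ∈ range H, ∑ j ∈ range H, ‖∑ r ∈ A, b r * ee (((i : ℝ) - j) * α r)‖ ^ 2 =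
        ‖∑ r ∈ A, ∑ s ∈ A, b r * (starRingEnd ℂ) (b s) *
        ((‖∑ j ∈ range H, ee (j * (α r - α s))‖ ^ 2 : ℝ) : ℂ)‖ := by
      rw [← double_sum_expand, Complex.norm_real, Real.norm_of_nonneg h0]
    rw [h1]
    calc ‖∑ r ∈ A, ∑ s ∈ A, b r * (starRingEnd ℂ) (b s) *
        ((‖∑ j ∈ range H, ee (j * (α r - α s))‖ ^ 2 : ℝ) : ℂ)‖
        ≤ ∑ r ∈ A, ∑ s ∈ A, ‖b r‖ * ‖b s‖ * ‖∑ j ∈ range H, ee (j * (α r - α s))‖ ^ 2 := by
          refine (norm_sum_le _ _).trans ?_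
          apply Finset.sum_le_sum
          intro r _
          refine (norm_sum_le _ _).trans ?_
          apply Finset.sum_le_sum
          intro s _
          rw [norm_mul, norm_mul, Complex.norm_real, Real.norm_of_nonneg (by positivity)]
          rw [RCLike.norm_conj]
      _ ≤ ∑ r ∈ A, ∑ s ∈ A, ((‖b r‖ ^ 2 * ‖∑ j ∈ range H, ee (j * (α r - α s))‖ ^ 2) / 2 +
            (‖b s‖ ^ 2 * ‖∑ j ∈ range H, ee (j * (α r - α s))‖ ^ 2) / 2) := by
          apply Finset.sum_le_sum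
          intro r _
          apply Finset.sum_le_sum
          intro s _
          have h2 : ‖b r‖ * ‖b s‖ ≤ (‖b r‖ ^ 2 + ‖b s‖ ^ 2) / 2 := by
            nlinarith [sq_nonneg (‖b r‖ - ‖b s‖)]
          have h3 : 0 ≤ ‖∑ j ∈ range H, ee (j * (α r - α s))‖ ^ 2 := by positivity
          nlinarith [mul_le_mul_of_nonneg_right h2 h3]
      _ = (∑ r ∈ A, ‖b r‖ ^ 2 * ∑ s ∈ A, ‖∑ j ∈ range H, ee (j * (α r - α s))‖ ^ 2) / 2 +
          (∑ s ∈ A, ‖b s‖ ^ 2 * ∑ r ∈ A, ‖∑ j ∈ range H, ee (j * (α r - α s))‖ ^ 2) / 2 := by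
          simp only [Finset.sum_add_distrib]
          congr 1
          · rw [Finset.sum_div]
            apply Finset.sum_congr rfl
            intro r _
            rw [Finset.mul_sum, Finset.sum_div]
          · rw [Finset.sum_comm, Finset.sum_div]
            apply Finset.sum_congr rfl
            intro r _
            rw [Finset.mul_sum, Finset.sum_div]
      _ ≤ (∑ r ∈ A, ‖b r‖ ^ 2 * ((H : ℝ) ^ 2 + 1 / δ ^ 2)) / 2 +
          (∑ s ∈ A, ‖b s‖ ^ 2 * ((H : ℝ) ^ 2 + 1 / δ ^ 2)) / 2 := by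
          gcongr with r hr s hs
          · exact hrow r hr H
          · have h4 := hrow s hs H
            have h5 : ∀ r ∈ A, ‖∑ j ∈ range H, ee (j * (α r - α s))‖ ^ 2 =
                ‖∑ j ∈ range H, ee (j * (α s - α r))‖ ^ 2 := by
              intro r _
              congr 1
              rw [← RCLike.norm_conj (∑ j ∈ range H, ee (j * (α s - α r))), map_sum]
              congr 1
              apply Finset.sum_congr rfl
              intro j _
              rw [← ee_neg]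
              congr 1
              ring
            rw [Finset.sum_congr rfl h5]
            exact h4
      _ = ((H : ℝ) ^ 2 + 1 / δ ^ 2) * ∑ r ∈ A, ‖b r‖ ^ 2 := by
          rw [← Finset.sum_mul]
          ring
  -- lower bound for the double sum
  have hL : (U : ℝ) * ∑ u ∈ range U, ‖∑ r ∈ A, b r * ee (u * α r)‖ ^ 2 ≤
      ∑ i ∈ range H, ∑ j ∈ range H, ‖∑ r ∈ A, b r * ee (((i : ℝ) - j) * α r)‖ ^ 2 := by
    rw [← Finset.sum_product']
    have h1 : (U : ℝ) * ∑ u ∈ range U, ‖∑ r ∈ A, b r * ee (u * α r)‖ ^ 2 =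
        ∑ p ∈ range U ×ˢ range U, ‖∑ r ∈ A, b r * ee (p.1 * α r)‖ ^ 2 := by
      rw [Finset.sum_product, Finset.mul_sum]
      apply Finset.sum_congr rfl
      intro u _
      simp
    rw [h1]
    have h2 : ∀ p ∈ range U ×ˢ range U, ‖∑ r ∈ A, b r * ee ((p.1 : ℝ) * α r)‖ ^ 2 =
        (fun x : ℕ × ℕ => ‖∑ r ∈ A, b r * ee (((x.1 : ℝ) - x.2) * α r)‖ ^ 2)
          ((fun p : ℕ × ℕ => (p.1 + p.2, p.2)) p) := by
      intro p _
      simp only
      congr 2
      apply Finset.sum_congr rfl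
      intro r _
      congr 3
      push_cast
      ring
    rw [Finset.sum_congr rfl h2]
    rw [← Finset.sum_image (f := fun x : ℕ × ℕ => ‖∑ r ∈ A, b r * ee (((x.1 : ℝ) - x.2) * α r)‖ ^ 2)
      (g := fun p : ℕ × ℕ => (p.1 + p.2, p.2))]
    · apply Finset.sum_le_sum_of_subset_of_nonneg
      · intro x hx
        rw [Finset.mem_image] at hx
        obtain ⟨p, hp, rfl⟩ := hx
        rw [Finset.mem_product, Finset.mem_range, Finset.mem_range] at hp ⊢
        simp only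
        omega
      · intro _ _ _
        positivity
    · intro p _ p' _ h
      simp only [Prod.mk.injEq] at h
      ext <;> omega
  have hfin := hL.trans hD
  have hδU : 1 / δ ^ 2 ≤ (U : ℝ) ^ 2 := by
    have : (1 / δ) ^ 2 ≤ (U : ℝ) ^ 2 := pow_le_pow_left₀ (by positivity) hU 2
    rwa [div_pow, one_pow] at this
  have hB : 0 ≤ ∑ r ∈ A, ‖b r‖ ^ 2 := by positivity
  have hHr : (H : ℝ) = 2 * U := by rw [hH]; push_cast; ring
  rw [hHr] at hfin
  have h6 : (U : ℝ) * ∑ u ∈ range U, ‖∑ r ∈ A, b r * ee (u * α r)‖ ^ 2 ≤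
      U * (5 * U * ∑ r ∈ A, ‖b r‖ ^ 2) := by
    refine hfin.trans ?_
    have : ((2 * (U : ℝ)) ^ 2 + 1 / δ ^ 2) ≤ 5 * U ^ 2 := by nlinarith
    calc ((2 * (U : ℝ)) ^ 2 + 1 / δ ^ 2) * ∑ r ∈ A, ‖b r‖ ^ 2 ≤ 5 * U ^ 2 * ∑ r ∈ A, ‖b r‖ ^ 2 :=
          mul_le_mul_of_nonneg_right this hB
      _ = U * (5 * U * ∑ r ∈ A, ‖b r‖ ^ 2) := by ring
  exact le_of_mul_le_mul_left h6 hUpos

/-- the large sieve inequality. -/
theorem large_sieve {ι κ : Type*} (A : Finset ι) (α : ι → ℝ) (δ : ℝ) (hδ : 0 < δ)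
    (hsp : ∀ r ∈ A, ∀ s ∈ A, r ≠ s → δ ≤ nd (α r - α s))
    (K : Finset κ) (u : κ → ℕ) (hu : Set.InjOn u K) (U : ℕ) (hU : ∀ k ∈ K, u k < U)
    (hUδ : 1 / δ ≤ U) (a : κ → ℂ) :
    ∑ r ∈ A, ‖∑ k ∈ K, a k * ee (u k * α r)‖ ^ 2 ≤ 5 * U * ∑ k ∈ K, ‖a k‖ ^ 2 := by
  classical
  set S : ι → ℂ := fun r => ∑ k ∈ K, a k * ee (u k * α r) with hS
  set T : ℝ := ∑ r ∈ A, ‖S r‖ ^ 2 with hT
  set b : ι → ℂ := fun r => (starRingEnd ℂ) (S r) with hb
  have hT0 : 0 ≤ T := by positivity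
  have hTb : ∑ r ∈ A, ‖b r‖ ^ 2 = T := by
    rw [hT]
    apply Finset.sum_congr rfl
    intro r _
    rw [hb]
    simp only
    rw [RCLike.norm_conj]
  have h1 : (T : ℂ) = ∑ k ∈ K, a k * ∑ r ∈ A, b r * ee (u k * α r) := by
    rw [hT]
    push_cast
    have : ∀ r ∈ A, ((‖S r‖ : ℂ)) ^ 2 = ∑ k ∈ K, a k * (b r * ee (u k * α r)) := by
      intro r _
      have h := ofReal_norm_sq (S r)
      push_cast at h
      rw [h]
      conv_lhs => rw [hS]
      simp only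
      rw [Finset.sum_mul]
      apply Finset.sum_congr rfl
      intro k _
      rw [hb]
      simp only [hS]
      ring
    rw [Finset.sum_congr rfl this, Finset.sum_comm]
    apply Finset.sum_congr rfl
    intro k _
    rw [Finset.mul_sum]
  have h2 : T ≤ ∑ k ∈ K, ‖a k‖ * ‖∑ r ∈ A, b r * ee (u k * α r)‖ := by
    have : T = ‖(T : ℂ)‖ := by rw [Complex.norm_real, Real.norm_of_nonneg hT0]
    rw [this, h1]
    refine (norm_sum_le _ _).trans ?_
    apply Finset.sum_le_sum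
    intro k _
    rw [norm_mul]
  have h3 : T ^ 2 ≤ (∑ k ∈ K, ‖a k‖ ^ 2) * (∑ k ∈ K, ‖∑ r ∈ A, b r * ee (u k * α r)‖ ^ 2) := by
    calc T ^ 2 ≤ (∑ k ∈ K, ‖a k‖ * ‖∑ r ∈ A, b r * ee (u k * α r)‖) ^ 2 :=
          pow_le_pow_left₀ hT0 h2 2
      _ ≤ _ := Finset.sum_mul_sq_le_sq_mul_sq _ _ _
  have h4 : ∑ k ∈ K, ‖∑ r ∈ A, b r * ee (u k * α r)‖ ^ 2 ≤ 5 * U * T := by
    have : ∑ k ∈ K, ‖∑ r ∈ A, b r * ee (u k * α r)‖ ^ 2 =
        ∑ v ∈ K.image u, ‖∑ r ∈ A, b r * ee (v * α r)‖ ^ 2 := by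
      rw [Finset.sum_image hu]
    rw [this, ← hTb]
    refine le_trans ?_ (dual_large_sieve A α δ hδ hsp U hUδ b)
    apply Finset.sum_le_sum_of_subset_of_nonneg
    · intro v hv
      rw [Finset.mem_image] at hv
      obtain ⟨k, hk, rfl⟩ := hv
      exact Finset.mem_range.mpr (hU k hk)
    · intro _ _ _
      positivity
  have hA : 0 ≤ ∑ k ∈ K, ‖a k‖ ^ 2 := by positivity
  have h5 : T ^ 2 ≤ (5 * U * ∑ k ∈ K, ‖a k‖ ^ 2) * T := by
    calc T ^ 2 ≤ (∑ k ∈ K, ‖a k‖ ^ 2) * (5 * U * T) :=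
          h3.trans (mul_le_mul_of_nonneg_left h4 hA)
      _ = _ := by ring
  rcases hT0.lt_or_eq with hpos | hzero
  · rw [sq] at h5
    exact le_of_mul_le_mul_right h5 hpos
  · rw [← hzero]
    positivity

end Pool.Agent.Helper10
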