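import Pool.Agent.Helper10.ArithSums

/-! Reciprocal sums over integers composed of primes in a class modulo four. -/

namespace Pool.Agent.Helper10

open Finset

/-- the character modulo four as an arithmetic function -/
def chi : ArithmeticFunction ℤ := ⟨fun n => ZMod.χ₄ (n : ZMod 4), by simp⟩

lemma chi_apply (n : ℕ) : chi n = ZMod.χ₄ (n : ZMod 4) := rfl

lemma chi_mult : chi.IsMultiplicative := by
  refine ⟨by simp [chi_apply], ?_⟩
  intro m n _
  rw [chi_apply, chi_apply, chi_apply]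
  push_cast
  rw [map_mul]

/-- `f = zeta * chi` -/
def ff : ArithmeticFunction ℤ := (ArithmeticFunction.zeta : ArithmeticFunction ℤ) * chi

lemma ff_apply (n : ℕ) : ff n = ∑ d ∈ n.divisors, ZMod.χ₄ (d : ZMod 4) := by
  unfold ff
  rw [ArithmeticFunction.coe_zeta_mul_apply]
  rfl

lemma ff_mult : ff.IsMultiplicative := by
  unfold ff
  exact ArithmeticFunction.isMultiplicative_zeta.natCast.mul chi_mult

lemma ff_prime_pow_nonneg (p k : ℕ) (hp : p.Prime) : 0 ≤ ff (p ^ k) := by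
  rw [ff_apply, Nat.sum_divisors_prime_pow hp]
  have h1 : ∀ j ∈ range (k + 1), ZMod.χ₄ ((p ^ j : ℕ) : ZMod 4) = (ZMod.χ₄ (p : ZMod 4)) ^ j := by
    intro j _
    push_cast
    rw [map_pow]
  rw [Finset.sum_congr rfl h1]
  have h2 : ZMod.χ₄ (p : ZMod 4) = 0 ∨ ZMod.χ₄ (p : ZMod 4) = 1 ∨ ZMod.χ₄ (p : ZMod 4) = -1 := by
    generalize (p : ZMod 4) = x
    revert x
    decide
  rcases h2 with h | h | h
  · rw [h]
    apply Finset.sum_nonneg
    intro j _
    positivity
  · rw [h]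
    simp
    positivity
  · rw [h, neg_one_geom_sum]
    split_ifs <;> norm_num

lemma ff_nonneg (n : ℕ) : 0 ≤ ff n := by
  rcases Nat.eq_zero_or_pos n with h | h
  · subst h
    simp
  · rw [ff_mult.multiplicative_factorization _ h.ne']
    apply Finset.prod_nonneg
    intro p hp
    exact ff_prime_pow_nonneg p _ (Nat.prime_of_mem_primeFactors hp)

lemma ff_eq_tau (n : ℕ) (hn : n ≠ 0) (h : ∀ p : ℕ, p.Prime → p ∣ n → p % 4 = 1) :
    ff n = (tau n : ℤ) := by
  have key : ∀ d : ℕ, d ≠ 0 → (∀ p : ℕ, p.Prime → p ∣ d → p % 4 = 1) → d % 4 = 1 := by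
    intro d
    induction d using Nat.recOnMul with
    | zero => intro h; exact absurd rfl h
    | one => intro _ _; rfl
    | prime p hp =>
      intro _ h
      exact h p hp (dvd_refl _)
    | mul a b iha ihb =>
      intro h0 h
      have ha := iha (left_ne_zero_of_mul h0) (fun p hp hpa => h p hp (hpa.mul_right b))
      have hb := ihb (right_ne_zero_of_mul h0) (fun p hp hpb => h p hp (hpb.mul_left a))
      rw [Nat.mul_mod, ha, hb]
  rw [ff_apply]
  have h1 : ∀ d ∈ n.divisors, ZMod.χ₄ (d : ZMod 4) = 1 := by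
    intro d hd
    rw [Nat.mem_divisors] at hd
    have hd0 : d ≠ 0 := by
      rintro rfl
      exact hn (Nat.eq_zero_of_zero_dvd hd.1)
    have := key d hd0 (fun p hp hpd => h p hp (hpd.trans hd.1))
    exact ZMod.χ₄_nat_one_mod_four this
  rw [Finset.sum_congr rfl h1]
  unfold tau
  simp

/-- harmonic partial sums -/
noncomputable def hh (n : ℕ) : ℝ := ∑ m ∈ Icc 1 n, (1 : ℝ) / m

lemma hh_nonneg (n : ℕ) : 0 ≤ hh n := by unfold hh; positivity

lemma hh_mono {m n : ℕ} (h : m ≤ n) : hh m ≤ hh n := by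
  unfold hh
  exact Finset.sum_le_sum_of_subset_of_nonneg (Finset.Icc_subset_Icc_right h)
    (fun _ _ _ => by positivity)

/-- alternating sum bound -/
lemma alt_sum (a : ℕ → ℝ) (ha : ∀ d, 1 ≤ d → a (d + 1) ≤ a d) (ha0 : ∀ d, 0 ≤ a d) (k : ℕ) :
    ∑ d ∈ Icc 1 (4 * k), ((ZMod.χ₄ (d : ZMod 4) : ℤ) : ℝ) * a d ≤ a 1 := by
  have key : ∑ d ∈ Icc 1 (4 * k), ((ZMod.χ₄ (d : ZMod 4) : ℤ) : ℝ) * a d ≤ a 1 - a (4 * k + 1) := by
    induction k with
    | zero => simp
    | succ k ih =>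
      have e1 : 4 * (k + 1) = 4 * k + 1 + 1 + 1 + 1 := by ring
      rw [e1, Finset.sum_Icc_succ_top (by omega), Finset.sum_Icc_succ_top (by omega),
        Finset.sum_Icc_succ_top (by omega), Finset.sum_Icc_succ_top (by omega)]
      have c1 : ZMod.χ₄ ((4 * k + 1 : ℕ) : ZMod 4) = 1 := ZMod.χ₄_nat_one_mod_four (by omega)
      have c2 : ZMod.χ₄ ((4 * k + 1 + 1 : ℕ) : ZMod 4) = 0 := by
        rw [ZMod.χ₄_nat_eq_if_mod_four]
        rw [if_pos (by omega)]
      have c3 : ZMod.χ₄ ((4 * k + 1 + 1 + 1 : ℕ) : ZMod 4) = -1 :=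
        ZMod.χ₄_nat_three_mod_four (by omega)
      have c4 : ZMod.χ₄ ((4 * k + 1 + 1 + 1 + 1 : ℕ) : ZMod 4) = 0 := by
        rw [ZMod.χ₄_nat_eq_if_mod_four]
        rw [if_pos (by omega)]
      rw [c1, c2, c3, c4]
      push_cast
      have h1 := ha (4 * k + 1 + 1 + 1) (by omega)
      have h2 := ha (4 * k + 1 + 1 + 1 + 1) (by omega)
      linarith
  have := ha0 (4 * k + 1)
  linarith

lemma sum_ff_le (Z : ℕ) : ∑ n ∈ Icc 1 Z, ((ff n : ℤ) : ℝ) / n ≤ hh Z := by
  classical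
  set a : ℕ → ℝ := fun d => hh (Z / d) / d with ha
  have h1 : ∑ n ∈ Icc 1 Z, ((ff n : ℤ) : ℝ) / n =
      ∑ d ∈ Icc 1 (4 * Z), ((ZMod.χ₄ (d : ZMod 4) : ℤ) : ℝ) * a d := by
    have e1 : ∀ n ∈ Icc 1 Z, ((ff n : ℤ) : ℝ) / n =
        ∑ x ∈ n.divisorsAntidiagonal, ((ZMod.χ₄ (x.1 : ZMod 4) : ℤ) : ℝ) / x.1 * (1 / x.2) := by
      intro n hn
      rw [Finset.mem_Icc] at hn
      rw [Nat.sum_divisorsAntidiagonal
        (f := fun a b : ℕ => ((ZMod.χ₄ (a : ZMod 4) : ℤ) : ℝ) / a * (1 / b)), ff_apply]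
      push_cast
      rw [Finset.sum_div]
      apply Finset.sum_congr rfl
      intro d hd
      rw [Nat.mem_divisors] at hd
      have hd0 : (d : ℝ) ≠ 0 := by
        have := Nat.pos_of_dvd_of_pos hd.1 (by omega)
        positivity
      have hn0 : (n : ℝ) ≠ 0 := by
        have : 0 < n := by omega
        positivity
      rw [Nat.cast_div hd.1 hd0]
      field_simp
    rw [Finset.sum_congr rfl e1, Finset.sum_sigma']
    have e2 : ∑ d ∈ Icc 1 (4 * Z), ((ZMod.χ₄ (d : ZMod 4) : ℤ) : ℝ) * a d =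
        ∑ y ∈ (Icc 1 Z).sigma (fun d => Icc 1 (Z / d)),
          ((ZMod.χ₄ (y.1 : ZMod 4) : ℤ) : ℝ) / y.1 * (1 / y.2) := by
      rw [Finset.sum_sigma]
      have e3 : ∑ d ∈ Icc 1 (4 * Z), ((ZMod.χ₄ (d : ZMod 4) : ℤ) : ℝ) * a d =
          ∑ d ∈ Icc 1 Z, ((ZMod.χ₄ (d : ZMod 4) : ℤ) : ℝ) * a d := by
        symm
        apply Finset.sum_subset (Finset.Icc_subset_Icc_right (by omega))
        intro d hd hd'
        rw [Finset.mem_Icc] at hd hd'
        have : Z / d = 0 := Nat.div_eq_of_lt (by omega)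
        simp only [ha, this]
        unfold hh
        simp
      rw [e3]
      apply Finset.sum_congr rfl
      intro d _
      simp only [ha]
      unfold hh
      rw [Finset.sum_div, Finset.mul_sum]
      apply Finset.sum_congr rfl
      intro m _
      ring
    rw [e2]
    apply Finset.sum_nbij' (i := fun x : (_ : ℕ) × (ℕ × ℕ) => (⟨x.2.1, x.2.2⟩ : (_ : ℕ) × ℕ))
      (j := fun y : (_ : ℕ) × ℕ => (⟨y.1 * y.2, (y.1, y.2)⟩ : (_ : ℕ) × (ℕ × ℕ)))
    · intro x hx
      rw [Finset.mem_sigma, Finset.mem_Icc, Nat.mem_divisorsAntidiagonal] at hx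
      rw [Finset.mem_sigma, Finset.mem_Icc, Finset.mem_Icc]
      obtain ⟨⟨h1, h2⟩, h3, h4⟩ := hx
      have hp1 : 0 < x.2.1 := Nat.pos_of_ne_zero (fun h => h4 (by rw [← h3, h, zero_mul]))
      have hp2 : 0 < x.2.2 := Nat.pos_of_ne_zero (fun h => h4 (by rw [← h3, h, mul_zero]))
      refine ⟨⟨hp1, ?_⟩, hp2, ?_⟩
      · calc x.2.1 ≤ x.2.1 * x.2.2 := Nat.le_mul_of_pos_right _ hp2
          _ ≤ Z := by rw [h3]; exact h2
      · show x.2.2 ≤ Z / x.2.1
        rw [Nat.le_div_iff_mul_le hp1, mul_comm, h3]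
        exact h2
    · intro y hy
      rw [Finset.mem_sigma, Finset.mem_Icc, Finset.mem_Icc] at hy
      rw [Finset.mem_sigma, Finset.mem_Icc, Nat.mem_divisorsAntidiagonal]
      obtain ⟨⟨h1, h2⟩, h3, h4⟩ := hy
      rw [Nat.le_div_iff_mul_le (by omega)] at h4
      have : 0 < y.1 * y.2 := Nat.mul_pos (by omega) (by omega)
      refine ⟨⟨this, ?_⟩, rfl, this.ne'⟩
      show y.1 * y.2 ≤ Z
      rw [mul_comm]
      exact h4
    · intro x hx
      rw [Finset.mem_sigma, Finset.mem_Icc, Nat.mem_divisorsAntidiagonal] at hx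
      obtain ⟨n, p, q⟩ := x
      simp only at hx ⊢
      rw [hx.2.1]
    · intro y _
      rfl
    · intro x _
      rfl
  rw [h1]
  have h2 := alt_sum a (by
    intro d hd
    simp only [ha]
    have e1 : hh (Z / (d + 1)) ≤ hh (Z / d) := hh_mono (Nat.div_le_div_left (by omega) hd)
    have hd0 : (0 : ℝ) < d := by exact_mod_cast hd
    calc hh (Z / (d + 1)) / ((d + 1 : ℕ) : ℝ) ≤ hh (Z / d) / ((d + 1 : ℕ) : ℝ) :=
          div_le_div_of_nonneg_right e1 (by positivity)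
      _ ≤ hh (Z / d) / d := by
          apply div_le_div_of_nonneg_left (hh_nonneg _) hd0
          push_cast
          linarith) (by
    intro d
    simp only [ha]
    have := hh_nonneg (Z / d)
    positivity) Z
  refine h2.trans ?_
  simp only [ha]
  simp

/-- integers up to `Y` composed of primes that are `1` modulo `4` -/
def A1 (Y : ℕ) : Finset ℕ := (Icc 1 Y).filter (fun d => ∀ p ∈ d.primeFactors, p % 4 = 1)

/-- square-free integers up to `Y` composed of primes `≥ 11` that are `3` modulo `4` -/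
def A3 (Y : ℕ) : Finset ℕ :=
  (Icc 1 Y).filter (fun d => Squarefree d ∧ ∀ p ∈ d.primeFactors, p % 4 = 3 ∧ 11 ≤ p)

noncomputable def H1 (Y : ℕ) : ℝ := ∑ d ∈ A1 Y, (1 : ℝ) / d

noncomputable def H3 (Y : ℕ) : ℝ := ∑ d ∈ A3 Y, (1 : ℝ) / d

lemma H1_sq_le (Y : ℕ) : H1 Y ^ 2 ≤ hh (Y * Y) := by
  classical
  refine le_trans ?_ (sum_ff_le (Y * Y))
  have h1 : H1 Y ^ 2 = ∑ x ∈ A1 Y ×ˢ A1 Y, (1 : ℝ) / ((x.1 * x.2 : ℕ) : ℝ) := by
    unfold H1
    rw [sq, Finset.sum_mul_sum, ← Finset.sum_product']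
    apply Finset.sum_congr rfl
    intro x _
    push_cast
    rw [div_mul_div_comm, one_mul]
  rw [h1]
  have hmaps : ∀ x ∈ A1 Y ×ˢ A1 Y, x.1 * x.2 ∈ Icc 1 (Y * Y) := by
    intro x hx
    unfold A1 at hx
    rw [Finset.mem_product, Finset.mem_filter, Finset.mem_filter, Finset.mem_Icc,
      Finset.mem_Icc] at hx
    rw [Finset.mem_Icc]
    exact ⟨Nat.mul_pos (by omega) (by omega), Nat.mul_le_mul hx.1.1.2 hx.2.1.2⟩
  rw [← Finset.sum_fiberwise_of_maps_to hmaps]
  apply Finset.sum_le_sum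
  intro n hn
  rw [Finset.mem_Icc] at hn
  have hn0 : (0 : ℝ) < n := by exact_mod_cast hn.1
  have e1 : ∀ x ∈ (A1 Y ×ˢ A1 Y).filter (fun x => x.1 * x.2 = n),
      (1 : ℝ) / ((x.1 * x.2 : ℕ) : ℝ) = 1 / n := by
    intro x hx
    rw [Finset.mem_filter] at hx
    rw [hx.2]
  rw [Finset.sum_congr rfl e1, Finset.sum_const, nsmul_eq_mul, ← mul_div_assoc, mul_one]
  apply div_le_div_of_nonneg_right _ hn0.le
  by_cases hne : ((A1 Y ×ˢ A1 Y).filter (fun x => x.1 * x.2 = n)).Nonempty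
  · obtain ⟨x, hx⟩ := hne
    rw [Finset.mem_filter, Finset.mem_product] at hx
    unfold A1 at hx
    rw [Finset.mem_filter, Finset.mem_filter] at hx
    have hprime : ∀ p : ℕ, p.Prime → p ∣ n → p % 4 = 1 := by
      intro p hp hpn
      rw [← hx.2] at hpn
      rcases (Nat.Prime.dvd_mul hp).mp hpn with h | h
      · exact hx.1.1.2 p (Nat.mem_primeFactors.mpr ⟨hp, h, by
          have := (Finset.mem_Icc.mp hx.1.1.1).1; omega⟩)
      · exact hx.1.2.2 p (Nat.mem_primeFactors.mpr ⟨hp, h, by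
          have := (Finset.mem_Icc.mp hx.1.2.1).1; omega⟩)
    rw [ff_eq_tau n (by omega) hprime]
    have hc : ((A1 Y ×ˢ A1 Y).filter (fun x => x.1 * x.2 = n)).card ≤ tau n := by
      unfold tau
      apply Finset.card_le_card_of_injOn (fun x => x.1)
      · intro x hx
        rw [Finset.mem_coe, Finset.mem_filter] at hx
        rw [Finset.mem_coe, Nat.mem_divisors]
        exact ⟨Dvd.intro _ hx.2, by omega⟩
      · intro x hx y hy hxy
        rw [Finset.mem_coe, Finset.mem_filter] at hx hy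
        simp only at hxy
        have hx1 : 0 < x.1 := by
          rcases Nat.eq_zero_or_pos x.1 with h | h
          · rw [h, zero_mul] at hx; omega
          · exact h
        have : x.1 * x.2 = x.1 * y.2 := by rw [hx.2, hxy, hy.2]
        exact Prod.ext hxy (Nat.eq_of_mul_eq_mul_left hx1 this)
    exact_mod_cast hc
  · rw [Finset.not_nonempty_iff_eq_empty] at hne
    rw [hne, Finset.card_empty]
    have := ff_nonneg n
    exact_mod_cast this

/-- the product inequality -/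
lemma hh_le_prod (Y : ℕ) : hh Y ≤ 32 / 7 * (H1 Y * H3 Y) := by
  classical
  set B : Finset ℕ := (42 : ℕ).divisors with hB
  have hex : ∀ m : ℕ, ∃ x : ℕ × ℕ, x.2 ^ 2 * x.1 = m ∧ Squarefree x.1 := by
    intro m
    obtain ⟨a, b, h1, h2⟩ := Nat.sq_mul_squarefree m
    exact ⟨(a, b), h1, h2⟩
  choose g hg using hex
  -- the three parts
  set P0 : ℕ → ℕ := fun a => ∏ p ∈ a.primeFactors.filter (fun p => ¬ p % 4 = 1 ∧ ¬ (p % 4 = 3 ∧ 11 ≤ p)), p with hP0
  set P1 : ℕ → ℕ := fun a => ∏ p ∈ a.primeFactors.filter (fun p => p % 4 = 1), p with hP1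
  set P3 : ℕ → ℕ := fun a => ∏ p ∈ a.primeFactors.filter (fun p => ¬ p % 4 = 1 ∧ (p % 4 = 3 ∧ 11 ≤ p)), p with hP3
  have hprod : ∀ a : ℕ, Squarefree a → a = P1 a * (P3 a * P0 a) := by
    intro a ha
    conv_lhs => rw [← Nat.prod_primeFactors_of_squarefree ha]
    rw [← Finset.prod_filter_mul_prod_filter_not a.primeFactors (fun p => p % 4 = 1)]
    congr 1
    rw [← Finset.prod_filter_mul_prod_filter_not (a.primeFactors.filter (fun p => ¬ p % 4 = 1))
      (fun p => p % 4 = 3 ∧ 11 ≤ p), Finset.filter_filter, Finset.filter_filter]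
  have hpf : ∀ (a : ℕ) (S : Finset ℕ), S ⊆ a.primeFactors → (∏ p ∈ S, p).primeFactors ⊆ S := by
    intro a S hS q hq
    have hqp := Nat.prime_of_mem_primeFactors hq
    have hqd := Nat.dvd_of_mem_primeFactors hq
    obtain ⟨p, hp, hqp'⟩ := (hqp.prime.dvd_finsetProd_iff _).mp hqd
    have hpp := Nat.prime_of_mem_primeFactors (hS hp)
    rw [(Nat.prime_dvd_prime_iff_eq hqp hpp).mp hqp']
    exact hp
  have hdv : ∀ (a : ℕ), Squarefree a → P1 a ∣ a ∧ P3 a ∣ a ∧ P0 a ∣ a := by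
    intro a ha
    have h := hprod a ha
    refine ⟨Dvd.intro _ h.symm, ?_, ?_⟩
    · exact Dvd.intro (P1 a * P0 a) (by rw [mul_left_comm]; exact h.symm)
    · exact Dvd.intro_left (P1 a * P3 a) (by rw [mul_assoc]; exact h.symm)
  set G : ℕ → ℕ × (ℕ × (ℕ × ℕ)) := fun m =>
    ((g m).2, (P0 (g m).1, (P1 (g m).1, P3 (g m).1))) with hG
  have hval : ∀ m, (G m).1 ^ 2 * ((G m).2.2.1 * ((G m).2.2.2 * (G m).2.1)) = m := by
    intro m
    simp only [hG]
    rw [← hprod _ (hg m).2]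
    exact (hg m).1
  have h1 : hh Y = ∑ m ∈ Icc 1 Y, 1 / ((G m).1 : ℝ) ^ 2 * (1 / ((G m).2.1 : ℝ) *
      (1 / ((G m).2.2.1 : ℝ) * (1 / ((G m).2.2.2 : ℝ)))) := by
    unfold hh
    apply Finset.sum_congr rfl
    intro m _
    have h2 : (m : ℝ) = ((G m).1 : ℝ) ^ 2 * (((G m).2.2.1 : ℝ) * (((G m).2.2.2 : ℝ) *
        ((G m).2.1 : ℝ))) := by exact_mod_cast (hval m).symm
    rw [h2]
    simp only [one_div, mul_inv]
    ring
  have h2 : ∑ m ∈ Icc 1 Y, 1 / ((G m).1 : ℝ) ^ 2 * (1 / ((G m).2.1 : ℝ) *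
      (1 / ((G m).2.2.1 : ℝ) * (1 / ((G m).2.2.2 : ℝ)))) ≤
      ∑ x ∈ Icc 1 Y ×ˢ (B ×ˢ (A1 Y ×ˢ A3 Y)), 1 / (x.1 : ℝ) ^ 2 * (1 / (x.2.1 : ℝ) *
      (1 / (x.2.2.1 : ℝ) * (1 / (x.2.2.2 : ℝ)))) := by
    rw [← Finset.sum_image (s := Icc 1 Y) (g := G)
      (f := fun x : ℕ × (ℕ × (ℕ × ℕ)) => 1 / (x.1 : ℝ) ^ 2 * (1 / (x.2.1 : ℝ) *
      (1 / (x.2.2.1 : ℝ) * (1 / (x.2.2.2 : ℝ)))))]
    · apply Finset.sum_le_sum_of_subset_of_nonneg
      · intro x hx
        rw [Finset.mem_image] at hx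
        obtain ⟨m, hm, rfl⟩ := hx
        rw [Finset.mem_Icc] at hm
        have hsq := (hg m).2
        have h3 := (hg m).1
        have ha : (g m).1 ∣ m := Dvd.intro_left _ h3
        have hb : (g m).2 ∣ m := by
          rw [sq, mul_assoc] at h3
          exact Dvd.intro _ h3
        have hm0 : 0 < m := by omega
        have hapos := Nat.pos_of_dvd_of_pos ha hm0
        have hale := (Nat.le_of_dvd hm0 ha).trans hm.2
        obtain ⟨hd1, hd3, hd0⟩ := hdv _ hsq
        rw [Finset.mem_product, Finset.mem_product, Finset.mem_product]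
        refine ⟨?_, ?_, ?_, ?_⟩
        · rw [Finset.mem_Icc]
          exact ⟨Nat.pos_of_dvd_of_pos hb hm0, (Nat.le_of_dvd hm0 hb).trans hm.2⟩
        · rw [hB, Nat.mem_divisors]
          refine ⟨?_, by norm_num⟩
          show P0 (g m).1 ∣ 42
          simp only [hP0]
          have hsub : (g m).1.primeFactors.filter
              (fun p => ¬ p % 4 = 1 ∧ ¬ (p % 4 = 3 ∧ 11 ≤ p)) ⊆ {2, 3, 7} := by
            intro p hp
            rw [Finset.mem_filter] at hp
            have hpp := Nat.prime_of_mem_primeFactors hp.1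
            have h2 := hpp.two_le
            have hp4 := hp.2.1
            simp only [Finset.mem_insert, Finset.mem_singleton]
            rcases hpp.eq_two_or_odd with h | h
            · left; exact h
            · have h5 : p < 11 := by
                by_contra hcon
                push Not at hcon
                exact hp.2.2 ⟨by omega, hcon⟩
              clear hp
              have h9 : p ≠ 9 := by
                rintro rfl
                norm_num at hpp
              omega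
          have h42 : ∏ p ∈ ({2, 3, 7} : Finset ℕ), p = 42 := by norm_num
          rw [← h42]
          exact Finset.prod_dvd_prod_of_subset _ _ _ hsub
        · unfold A1
          rw [Finset.mem_filter, Finset.mem_Icc]
          refine ⟨⟨Nat.pos_of_dvd_of_pos hd1 hapos, (Nat.le_of_dvd hapos hd1).trans hale⟩, ?_⟩
          intro p hp
          have := hpf _ _ (Finset.filter_subset _ _) hp
          rw [Finset.mem_filter] at this
          exact this.2
        · unfold A3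
          rw [Finset.mem_filter, Finset.mem_Icc]
          refine ⟨⟨Nat.pos_of_dvd_of_pos hd3 hapos, (Nat.le_of_dvd hapos hd3).trans hale⟩,
            hsq.squarefree_of_dvd hd3, ?_⟩
          intro p hp
          have := hpf _ _ (Finset.filter_subset _ _) hp
          rw [Finset.mem_filter] at this
          exact this.2.2
      · intro _ _ _
        positivity
    · intro m _ m' _ h
      rw [← hval m, ← hval m', h]
  have h3 : ∑ x ∈ Icc 1 Y ×ˢ (B ×ˢ (A1 Y ×ˢ A3 Y)), 1 / (x.1 : ℝ) ^ 2 * (1 / (x.2.1 : ℝ) *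
      (1 / (x.2.2.1 : ℝ) * (1 / (x.2.2.2 : ℝ)))) =
      (∑ b ∈ Icc 1 Y, 1 / (b : ℝ) ^ 2) * ((∑ e ∈ B, 1 / (e : ℝ)) * (H1 Y * H3 Y)) := by
    unfold H1 H3
    rw [Finset.sum_mul_sum, ← Finset.sum_product', Finset.sum_mul_sum, ← Finset.sum_product',
      Finset.sum_mul_sum, ← Finset.sum_product']
  have h4 : ∑ b ∈ Icc 1 Y, 1 / (b : ℝ) ^ 2 ≤ 2 :=
    sum_inv_sq_le_two (Icc 1 Y) (by intro m hm; exact (Finset.mem_Icc.mp hm).1)
  have h5 : ∑ e ∈ B, 1 / (e : ℝ) = 16 / 7 := by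
    have : B = {1, 2, 3, 6, 7, 14, 21, 42} := by rw [hB]; decide
    rw [this]
    norm_num
  have hH1 : 0 ≤ H1 Y := by unfold H1; positivity
  have hH3 : 0 ≤ H3 Y := by unfold H3; positivity
  rw [h1]
  refine h2.trans ?_
  rw [h3, h5]
  have h6 : 0 ≤ 16 / 7 * (H1 Y * H3 Y) := by positivity
  nlinarith [mul_le_mul_of_nonneg_right h4 h6]

end Pool.Agent.Helper10
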