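import Mathlib

/-! Uniqueness of two-sided expansions, and the three-term recurrence. -/

namespace Pool.Agent.Helper10

open Finset

/-- `w b L t = b^(L-t) + b^(L+t)`: the weight of the mirror pair at distance `t`. -/
def ww (b L t : ℕ) : ℕ := b ^ (L - t) + b ^ (L + t)

lemma ww_succ_left (b L t : ℕ) (ht : t ≤ L) : ww b (L + 1) t = b * ww b L t := by
  unfold ww
  rw [show L + 1 - t = (L - t) + 1 by omega, show L + 1 + t = (L + t) + 1 by ring]
  ring

lemma ww_add_left (b L t s : ℕ) (ht : t ≤ L) : ww b (L + s) t = b ^ s * ww b L t := by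
  induction s with
  | zero => simp
  | succ s ih =>
    rw [← add_assoc, ww_succ_left b (L + s) t (by omega), ih]
    ring

lemma ww_pos (b L t : ℕ) (hb : 0 < b) : 0 < ww b L t := by
  unfold ww
  positivity

/-- three term recurrence -/
lemma ww_rec (b L t : ℕ) (ht : 1 ≤ t) (htL : t + 1 ≤ L) :
    b * (ww b L (t + 1) + ww b L (t - 1)) = (b ^ 2 + 1) * ww b L t := by
  obtain ⟨s, rfl⟩ : ∃ s, t = s + 1 := ⟨t - 1, by omega⟩
  obtain ⟨r, rfl⟩ : ∃ r, L = r + (s + 1 + 1) := ⟨L - (s + 2), by omega⟩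
  unfold ww
  rw [show r + (s + 1 + 1) - (s + 1 + 1) = r by omega,
    show r + (s + 1 + 1) - (s + 1 - 1) = r + 2 by omega,
    show r + (s + 1 + 1) - (s + 1) = r + 1 by omega,
    show s + 1 - 1 = s by omega]
  ring

/-- total weight bound -/
lemma sum_ww_le (b L : ℕ) (hb : 2 ≤ b) : ∑ t ∈ Icc 1 L, ww b L t ≤ b ^ (2 * L + 1) := by
  have h1 : ∑ t ∈ Icc 1 L, ww b L t ≤ ∑ i ∈ range (2 * L + 1), b ^ i := by
    unfold ww
    rw [Finset.sum_add_distrib]
    have hA : ∑ t ∈ Icc 1 L, b ^ (L - t) = ∑ i ∈ range L, b ^ i := by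
      apply Finset.sum_nbij' (fun t => L - t) (fun i => L - i)
      · intro t ht
        rw [Finset.mem_Icc] at ht
        rw [Finset.mem_range]
        omega
      · intro i hi
        rw [Finset.mem_range] at hi
        rw [Finset.mem_Icc]
        omega
      · intro t ht
        rw [Finset.mem_Icc] at ht
        omega
      · intro i hi
        rw [Finset.mem_range] at hi
        omega
      · intro t _
        rfl
    have hB : ∑ t ∈ Icc 1 L, b ^ (L + t) = ∑ i ∈ Icc (L + 1) (2 * L), b ^ i := by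
      apply Finset.sum_nbij' (fun t => L + t) (fun i => i - L)
      · intro t ht
        rw [Finset.mem_Icc] at ht ⊢
        omega
      · intro i hi
        rw [Finset.mem_Icc] at hi ⊢
        omega
      · intro t ht
        omega
      · intro i hi
        rw [Finset.mem_Icc] at hi
        omega
      · intro t _
        rfl
    rw [hA, hB, ← Finset.sum_union]
    · apply Finset.sum_le_sum_of_subset
      intro i hi
      rw [Finset.mem_union, Finset.mem_range, Finset.mem_Icc] at hi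
      rw [Finset.mem_range]
      omega
    · rw [Finset.disjoint_left]
      intro i hi hi'
      rw [Finset.mem_range] at hi
      rw [Finset.mem_Icc] at hi'
      omega
  refine h1.trans ?_
  have h2 := Nat.geomSum_lt (m := b) (n := 2 * L + 1) (s := range (2 * L + 1)) hb
    (by intro k hk; exact Finset.mem_range.mp hk)
  exact h2.le

/-- geometric bound used in the uniqueness proof. -/
lemma sum_ww_bound (b L : ℕ) (hb : 2 ≤ b) :
    (b - 1) * ∑ t ∈ Icc 1 L, ww b (L + 1) t < b ^ (2 * (L + 1)) := by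
  have key : ∀ L : ℕ, (b - 1) * ∑ t ∈ Icc 1 L, ww b L t + b ^ (L + 1) + 1 =
      b ^ (2 * L + 1) + b ^ L := by
    intro L
    induction L with
    | zero => simp
    | succ L ih =>
      rw [Finset.sum_Icc_succ_top (by omega)]
      have h1 : ∑ t ∈ Icc 1 L, ww b (L + 1) t = b * ∑ t ∈ Icc 1 L, ww b L t := by
        rw [Finset.mul_sum]
        apply Finset.sum_congr rfl
        intro t ht
        rw [Finset.mem_Icc] at ht
        exact ww_succ_left b L t ht.2
      rw [h1]
      unfold ww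
      rw [Nat.sub_self, pow_zero]
      obtain ⟨c, rfl⟩ : ∃ c, b = c + 1 := ⟨b - 1, by omega⟩
      rw [Nat.add_sub_cancel] at ih ⊢
      have e1 : (c + 1) ^ (L + 1 + (L + 1)) = (c + 1) ^ (2 * L + 1) * (c + 1) := by
        rw [← pow_succ]; congr 1; ring
      have e2 : (c + 1) ^ (2 * (L + 1) + 1) = (c + 1) ^ (2 * L + 1) * (c + 1) * (c + 1) := by
        rw [← pow_succ, ← pow_succ]; congr 1
      have e3 : (c + 1) ^ (L + 1 + 1) = (c + 1) ^ (L + 1) * (c + 1) := pow_succ _ _
      have e4 : (c + 1) ^ (L + 1) = (c + 1) ^ L * (c + 1) := pow_succ _ _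
      rw [e1, e2, e3]
      unfold ww at ih
      nlinarith [ih, e4]
  have h := key L
  have h1 : ∑ t ∈ Icc 1 L, ww b (L + 1) t = b * ∑ t ∈ Icc 1 L, ww b L t := by
    rw [Finset.mul_sum]
    apply Finset.sum_congr rfl
    intro t ht
    rw [Finset.mem_Icc] at ht
    exact ww_succ_left b L t ht.2
  rw [h1]
  have e : b ^ (2 * (L + 1)) = b * b ^ (2 * L + 1) := by
    rw [← pow_succ']; congr 1
  rw [e]
  have h2 : (b - 1) * (b * ∑ t ∈ Icc 1 L, ww b L t) = b * ((b - 1) * ∑ t ∈ Icc 1 L, ww b L t) := by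
    ring
  rw [h2]
  have hlt : b ^ L < b ^ (L + 1) + 1 := by
    have : b ^ L ≤ b ^ (L + 1) := Nat.pow_le_pow_right (by omega) (by omega)
    omega
  apply Nat.mul_lt_mul_of_pos_left _ (by omega)
  omega

/-- **Uniqueness.** -/
theorem uniq (b : ℕ) (hb : 2 ≤ b) (L : ℕ) (e : ℕ → ℤ) (he : ∀ t ∈ Icc 1 L, |e t| ≤ ((b : ℤ) - 1) ^ 2)
    (h : ∑ t ∈ Icc 1 L, e t * (ww b L t : ℤ) = 0) : ∀ t ∈ Icc 1 L, e t = 0 := by
  induction L with
  | zero => intro t ht; simp at ht
  | succ L ih =>
    have hbZ : (2 : ℤ) ≤ b := by exact_mod_cast hb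
    rw [Finset.sum_Icc_succ_top (by omega)] at h
    have h1 : ∑ t ∈ Icc 1 L, e t * (ww b (L + 1) t : ℤ) = b * ∑ t ∈ Icc 1 L, e t * (ww b L t : ℤ) := by
      rw [Finset.mul_sum]
      apply Finset.sum_congr rfl
      intro t ht
      rw [Finset.mem_Icc] at ht
      rw [ww_succ_left b L t ht.2]
      push_cast
      ring
    have htop : (ww b (L + 1) (L + 1) : ℤ) = 1 + (b : ℤ) ^ (2 * (L + 1)) := by
      unfold ww
      rw [Nat.sub_self, pow_zero]
      push_cast
      rw [show L + 1 + (L + 1) = 2 * (L + 1) by ring]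
    -- divisibility
    have hdvd : (b : ℤ) ∣ e (L + 1) := by
      have h2 : e (L + 1) * (ww b (L + 1) (L + 1) : ℤ) = -(b * ∑ t ∈ Icc 1 L, e t * (ww b L t : ℤ)) := by
        rw [← h1]; linarith
      have h3 : (b : ℤ) ∣ e (L + 1) * (1 + (b : ℤ) ^ (2 * (L + 1))) := by
        rw [← htop, h2]
        exact Dvd.dvd.neg_right (Dvd.intro _ rfl)
      have hcop : IsCoprime (b : ℤ) (1 + (b : ℤ) ^ (2 * (L + 1))) := by
        refine ⟨-(b : ℤ) ^ (2 * L + 1), 1, ?_⟩
        rw [show 2 * (L + 1) = (2 * L + 1) + 1 by ring, pow_succ]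
        ring
      exact hcop.dvd_of_dvd_mul_right h3
    -- size
    have hsize : |e (L + 1)| * (1 + (b : ℤ) ^ (2 * (L + 1))) ≤
        ((b : ℤ) - 1) ^ 2 * ∑ t ∈ Icc 1 L, (ww b (L + 1) t : ℤ) := by
      have h2 : e (L + 1) * (ww b (L + 1) (L + 1) : ℤ) = -∑ t ∈ Icc 1 L, e t * (ww b (L + 1) t : ℤ) := by
        linarith
      have h3 : |e (L + 1)| * (1 + (b : ℤ) ^ (2 * (L + 1))) =
          |∑ t ∈ Icc 1 L, e t * (ww b (L + 1) t : ℤ)| := by
        rw [← abs_neg (∑ t ∈ Icc 1 L, e t * (ww b (L + 1) t : ℤ)), ← h2, htop, abs_mul]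
        congr 1
        rw [abs_of_pos]
        positivity
      rw [h3]
      refine (Finset.abs_sum_le_sum_abs _ _).trans ?_
      rw [Finset.mul_sum]
      apply Finset.sum_le_sum
      intro t ht
      rw [abs_mul, abs_of_nonneg (a := (ww b (L + 1) t : ℤ)) (by positivity)]
      apply mul_le_mul_of_nonneg_right _ (by positivity)
      apply he
      rw [Finset.mem_Icc] at ht ⊢
      omega
    have hb1 := sum_ww_bound b L hb
    have hb1' : ((b : ℤ) - 1) * ∑ t ∈ Icc 1 L, (ww b (L + 1) t : ℤ) < (b : ℤ) ^ (2 * (L + 1)) := by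
      have : (((b - 1 : ℕ) : ℤ)) = (b : ℤ) - 1 := by
        rw [Nat.cast_sub (by omega)]; simp
      rw [← this]
      exact_mod_cast hb1
    have hlt : |e (L + 1)| < b := by
      by_contra hcon
      push Not at hcon
      have hP : (0 : ℤ) < (b : ℤ) ^ (2 * (L + 1)) := by positivity
      have h4 : (b : ℤ) * (1 + (b : ℤ) ^ (2 * (L + 1))) ≤ |e (L + 1)| * (1 + (b : ℤ) ^ (2 * (L + 1))) :=
        mul_le_mul_of_nonneg_right hcon (by positivity)
      have h5 : ((b : ℤ) - 1) ^ 2 * ∑ t ∈ Icc 1 L, (ww b (L + 1) t : ℤ) ≤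
          ((b : ℤ) - 1) * (b : ℤ) ^ (2 * (L + 1)) := by
        have : ((b : ℤ) - 1) ^ 2 * ∑ t ∈ Icc 1 L, (ww b (L + 1) t : ℤ) =
          ((b : ℤ) - 1) * (((b : ℤ) - 1) * ∑ t ∈ Icc 1 L, (ww b (L + 1) t : ℤ)) := by ring
        rw [this]
        exact mul_le_mul_of_nonneg_left hb1'.le (by linarith)
      nlinarith
    have hzero : e (L + 1) = 0 := Int.eq_zero_of_abs_lt_dvd hdvd hlt
    intro t ht
    rw [Finset.mem_Icc] at ht
    rcases eq_or_ne t (L + 1) with rfl | hne
    · exact hzero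
    · apply ih
      · intro s hs
        apply he
        rw [Finset.mem_Icc] at hs ⊢
        omega
      · rw [hzero, zero_mul, add_zero, h1] at h
        rcases mul_eq_zero.mp h with h | h
        · omega
        · exact h
      · rw [Finset.mem_Icc]
        omega

end Pool.Agent.Helper10
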