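import Pool.Agent.Helper10.Circ
import Pool.Agent.Helper10.Uniq
import Pool.Agent.Helper10.DivBound
import Pool.Agent.Helper10.LargeSieve

/-! The normalized product `FF` and its second moment over reduced fractions. -/

namespace Pool.Agent.Helper10

open Finset

/-- normalized product of the factors `(1 + e(α v_t)) / 2`, `v_t = κ * ww b T t`. -/
noncomputable def FF (κ b T : ℕ) (J : Finset ℕ) (α : ℝ) : ℝ :=
  ∏ t ∈ J, ‖(1 + ee (α * ((κ * ww b T t : ℕ) : ℝ))) / 2‖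

/-- value of a subset -/
def MM (κ b T : ℕ) (ε : Finset ℕ) : ℕ := ∑ t ∈ ε, κ * ww b T t

/-- moduli -/
def QQ (b R : ℕ) : Finset ℕ := (Ioc R (2 * R)).filter (fun q => q.Coprime b)

/-- reduced residues -/
def AA (q : ℕ) : Finset ℕ := (range q).filter (fun a => a.Coprime q)

lemma FF_nonneg (κ b T : ℕ) (J : Finset ℕ) (α : ℝ) : 0 ≤ FF κ b T J α :=
  Finset.prod_nonneg fun _ _ => norm_nonneg _

lemma FF_le_one (κ b T : ℕ) (J : Finset ℕ) (α : ℝ) : FF κ b T J α ≤ 1 :=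
  Finset.prod_le_one (fun _ _ => norm_nonneg _) (fun _ _ => norm_one_add_ee_le _)

lemma FF_union (κ b T : ℕ) (J J' : Finset ℕ) (h : Disjoint J J') (α : ℝ) :
    FF κ b T (J ∪ J') α = FF κ b T J α * FF κ b T J' α := by
  unfold FF
  rw [Finset.prod_union h]

lemma FF_anti (κ b T : ℕ) (J J' : Finset ℕ) (h : J ⊆ J') (α : ℝ) :
    FF κ b T J' α ≤ FF κ b T J α := by
  classical
  have : J' = J ∪ (J' \ J) := by rw [Finset.union_sdiff_of_subset h]
  rw [this, FF_union _ _ _ _ _ Finset.disjoint_sdiff]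
  exact mul_le_of_le_one_right (FF_nonneg _ _ _ _ _) (FF_le_one _ _ _ _ _)

lemma FF_eq (κ b T : ℕ) (J : Finset ℕ) (α : ℝ) :
    (2 : ℝ) ^ J.card * FF κ b T J α = ‖∑ ε ∈ J.powerset, ee (α * (MM κ b T ε : ℝ))‖ := by
  have h1 : ∏ t ∈ J, (1 + ee (α * ((κ * ww b T t : ℕ) : ℝ))) =
      ∑ ε ∈ J.powerset, ee (α * (MM κ b T ε : ℝ)) := by
    rw [Finset.prod_one_add]
    apply Finset.sum_congr rfl
    intro ε _
    rw [← ee_sum]
    congr 1
    unfold MM
    rw [← Finset.mul_sum]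
    push_cast
    rfl
  rw [← h1, norm_prod]
  unfold FF
  rw [← Finset.prod_const, ← Finset.prod_mul_distrib]
  apply Finset.prod_congr rfl
  intro t _
  rw [norm_div]
  have : ‖(2 : ℂ)‖ = 2 := by norm_num
  rw [this]
  ring

/-- Parseval over all residues. -/
lemma parseval {ι : Type*} [DecidableEq ι] (q : ℕ) (hq : 0 < q) (K : Finset ι) (M : ι → ℕ) :
    ∑ a ∈ range q, ‖∑ k ∈ K, ee ((a : ℝ) / q * (M k : ℝ))‖ ^ 2 =
      (q : ℝ) * (((K ×ˢ K).filter (fun p => (q : ℤ) ∣ (M p.1 : ℤ) - M p.2)).card : ℝ) := by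
  have h1 : ((∑ a ∈ range q, ‖∑ k ∈ K, ee ((a : ℝ) / q * (M k : ℝ))‖ ^ 2 : ℝ) : ℂ) =
      (((q : ℝ) * (((K ×ˢ K).filter (fun p => (q : ℤ) ∣ (M p.1 : ℤ) - M p.2)).card : ℝ) : ℝ) : ℂ) := by
    rw [Complex.ofReal_sum]
    have h2 : ∀ a ∈ range q, ((‖∑ k ∈ K, ee ((a : ℝ) / q * (M k : ℝ))‖ ^ 2 : ℝ) : ℂ) =
        ∑ p ∈ K ×ˢ K, ee ((a : ℝ) * ((((M p.1 : ℤ) - M p.2 : ℤ) : ℝ) / q)) := by
      intro a _
      rw [ofReal_norm_sq, map_sum, Finset.sum_mul_sum, ← Finset.sum_product']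
      apply Finset.sum_congr rfl
      intro p _
      rw [← ee_neg, ← ee_add]
      congr 1
      push_cast
      ring
    rw [Finset.sum_congr rfl h2, Finset.sum_comm]
    have h3 : ∀ p ∈ K ×ˢ K, ∑ a ∈ range q, ee ((a : ℝ) * ((((M p.1 : ℤ) - M p.2 : ℤ) : ℝ) / q)) =
        if (q : ℤ) ∣ (M p.1 : ℤ) - M p.2 then (q : ℂ) else 0 := fun p _ => sum_ee_eq q hq _
    rw [Finset.sum_congr rfl h3, ← Finset.sum_filter, Finset.sum_const, nsmul_eq_mul]
    push_cast
    ring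
  exact_mod_cast h1

lemma MM_eq (κ b T t1 : ℕ) (ht : t1 ≤ T) (ε : Finset ℕ) (hε : ε ⊆ Icc 1 t1) :
    MM κ b T ε = κ * b ^ (T - t1) * ∑ t ∈ ε, ww b t1 t := by
  unfold MM
  rw [Finset.mul_sum]
  apply Finset.sum_congr rfl
  intro t hε'
  have := Finset.mem_Icc.mp (hε hε')
  have h2 := ww_add_left b t1 t (T - t1) this.2
  rw [show t1 + (T - t1) = T by omega] at h2
  rw [h2]
  ring

lemma sum_ww_inj (b t1 : ℕ) (hb : 2 ≤ b) (ε ε' : Finset ℕ) (hε : ε ⊆ Icc 1 t1)
    (hε' : ε' ⊆ Icc 1 t1) (h : ∑ t ∈ ε, ww b t1 t = ∑ t ∈ ε', ww b t1 t) : ε = ε' := by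
  classical
  have key := uniq b hb t1 (fun t => (if t ∈ ε then 1 else 0) - (if t ∈ ε' then 1 else 0))
    (by
      intro t _
      have hb' : (1 : ℤ) ≤ ((b : ℤ) - 1) ^ 2 := by
        have : (2 : ℤ) ≤ b := by exact_mod_cast hb
        nlinarith
      refine le_trans ?_ hb'
      by_cases h1 : t ∈ ε <;> by_cases h2 : t ∈ ε' <;> simp [h1, h2])
    (by
      have e1 : ∀ δ : Finset ℕ, δ ⊆ Icc 1 t1 →
          ∑ t ∈ Icc 1 t1, (if t ∈ δ then (1 : ℤ) else 0) * (ww b t1 t : ℤ) =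
            ((∑ t ∈ δ, ww b t1 t : ℕ) : ℤ) := by
        intro δ hδ
        simp only [ite_mul, one_mul, zero_mul]
        rw [← Finset.sum_filter, Finset.filter_mem_eq_inter, Finset.inter_eq_right.mpr hδ]
        push_cast
        rfl
      simp only [sub_mul]
      rw [Finset.sum_sub_distrib, e1 ε hε, e1 ε' hε', h, sub_self])
  ext t
  constructor
  · intro ht
    have := key t (hε ht)
    by_contra hcon
    simp [ht, hcon] at this
  · intro ht
    have := key t (hε' ht)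
    by_contra hcon
    simp [ht, hcon] at this

/-- the second moment -/
theorem T2_bound (κ b T t1 R D : ℕ) (hb : 2 ≤ b) (hκ : ∀ q : ℕ, q.Coprime b → q.Coprime κ)
    (ht : t1 ≤ T) (J : Finset ℕ) (hJ : J ⊆ Icc 1 t1)
    (hD : ∀ n : ℕ, 1 ≤ n → n ≤ b ^ (2 * t1 + 1) → tau n ≤ D) :
    ∑ q ∈ QQ b R, ∑ a ∈ AA q, FF κ b T J ((a : ℝ) / q) ^ 2 ≤
      2 * R * ((R : ℝ) / 2 ^ J.card + D) := by
  classical
  set K := J.powerset with hK
  set cnt : ℕ → ℕ := fun q =>
    ((K ×ˢ K).filter (fun p => (q : ℤ) ∣ (MM κ b T p.1 : ℤ) - MM κ b T p.2)).card with hcnt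
  have h2pos : (0 : ℝ) < 2 ^ J.card := by positivity
  -- step 1
  have h1 : ∀ q ∈ QQ b R, ∑ a ∈ AA q, FF κ b T J ((a : ℝ) / q) ^ 2 ≤
      2 * R * (cnt q : ℝ) / (2 ^ J.card) ^ 2 := by
    intro q hq
    unfold QQ at hq
    rw [Finset.mem_filter, Finset.mem_Ioc] at hq
    have hq0 : 0 < q := by omega
    calc ∑ a ∈ AA q, FF κ b T J ((a : ℝ) / q) ^ 2 ≤
        ∑ a ∈ range q, FF κ b T J ((a : ℝ) / q) ^ 2 := by
          apply Finset.sum_le_sum_of_subset_of_nonneg (Finset.filter_subset _ _)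
          intro _ _ _
          positivity
      _ = ∑ a ∈ range q, ‖∑ ε ∈ K, ee ((a : ℝ) / q * (MM κ b T ε : ℝ))‖ ^ 2 /
          (2 ^ J.card) ^ 2 := by
          apply Finset.sum_congr rfl
          intro a _
          rw [← FF_eq, mul_pow]
          field_simp
      _ = (q : ℝ) * (cnt q : ℝ) / (2 ^ J.card) ^ 2 := by
          rw [← Finset.sum_div, parseval q hq0 K (MM κ b T)]
      _ ≤ 2 * R * (cnt q : ℝ) / (2 ^ J.card) ^ 2 := by
          apply div_le_div_of_nonneg_right _ (by positivity)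
          apply mul_le_mul_of_nonneg_right _ (by positivity)
          exact_mod_cast hq.1.2
  -- step 2: swap
  have h2 : ∑ q ∈ QQ b R, cnt q ≤ 2 ^ J.card * R + (2 ^ J.card) ^ 2 * D := by
    have e1 : ∑ q ∈ QQ b R, cnt q = ∑ p ∈ K ×ˢ K,
        ((QQ b R).filter (fun q : ℕ => (q : ℤ) ∣ (MM κ b T p.1 : ℤ) - MM κ b T p.2)).card := by
      simp only [hcnt, Finset.card_filter]
      exact Finset.sum_comm
    rw [e1]
    have e2 : ∀ p ∈ K ×ˢ K,
        ((QQ b R).filter (fun q : ℕ => (q : ℤ) ∣ (MM κ b T p.1 : ℤ) - MM κ b T p.2)).card ≤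
          (if p.1 = p.2 then R else 0) + D := by
      intro p hp
      rw [Finset.mem_product, hK, Finset.mem_powerset, Finset.mem_powerset] at hp
      by_cases hpp : p.1 = p.2
      · rw [if_pos hpp]
        refine (Finset.card_filter_le _ _).trans ?_
        have : (QQ b R).card ≤ R := by
          unfold QQ
          refine (Finset.card_filter_le _ _).trans ?_
          rw [Nat.card_Ioc]
          omega
        omega
      · rw [if_neg hpp, zero_add]
        have hs1 : p.1 ⊆ Icc 1 t1 := hp.1.trans hJ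
        have hs2 : p.2 ⊆ Icc 1 t1 := hp.2.trans hJ
        set w1 := ∑ t ∈ p.1, ww b t1 t with hw1
        set w2 := ∑ t ∈ p.2, ww b t1 t with hw2
        have hne : (w1 : ℤ) - w2 ≠ 0 := by
          intro h0
          apply hpp
          apply sum_ww_inj b t1 hb p.1 p.2 hs1 hs2
          have : (w1 : ℤ) = w2 := by linarith
          exact_mod_cast this
        have hle : ∀ ε ⊆ Icc 1 t1, ∑ t ∈ ε, ww b t1 t ≤ b ^ (2 * t1 + 1) := fun ε hε =>
          (Finset.sum_le_sum_of_subset hε).trans (sum_ww_le b t1 hb)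
        have hl1 := hle p.1 hs1
        have hl2 := hle p.2 hs2
        have hn1 : 1 ≤ ((w1 : ℤ) - w2).natAbs := Int.natAbs_pos.mpr hne
        have hn2 : ((w1 : ℤ) - w2).natAbs ≤ b ^ (2 * t1 + 1) := by
          omega
        refine le_trans ?_ (hD _ hn1 hn2)
        unfold tau
        apply Finset.card_le_card
        intro q hq
        rw [Finset.mem_filter] at hq
        unfold QQ at hq
        rw [Finset.mem_filter] at hq
        rw [Nat.mem_divisors]
        refine ⟨?_, by omega⟩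
        have hcb := hq.1.2
        have hck := hκ q hcb
        have hdv := hq.2
        rw [MM_eq κ b T t1 ht p.1 hs1, MM_eq κ b T t1 ht p.2 hs2] at hdv
        have e3 : ((κ * b ^ (T - t1) * w1 : ℕ) : ℤ) - ((κ * b ^ (T - t1) * w2 : ℕ) : ℤ) =
            ((κ * b ^ (T - t1) : ℕ) : ℤ) * ((w1 : ℤ) - w2) := by
          push_cast
          ring
        rw [e3] at hdv
        have hcop : IsCoprime (q : ℤ) ((κ * b ^ (T - t1) : ℕ) : ℤ) := by
          rw [Nat.isCoprime_iff_coprime]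
          exact Nat.Coprime.mul_right hck (Nat.Coprime.pow_right _ hcb)
        have := hcop.dvd_of_dvd_mul_left hdv
        exact Int.natCast_dvd.mp this
    refine (Finset.sum_le_sum e2).trans ?_
    rw [Finset.sum_add_distrib, Finset.sum_const, Finset.card_product, ← Finset.sum_filter,
      Finset.sum_const]
    have e4 : ((K ×ˢ K).filter (fun p => p.1 = p.2)).card = K.card := by
      have : (K ×ˢ K).filter (fun p => p.1 = p.2) = K.diag := by
        ext p
        simp only [Finset.mem_filter, Finset.mem_product, Finset.mem_diag]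
        constructor
        · rintro ⟨⟨h1, _⟩, h3⟩
          exact ⟨h1, h3⟩
        · rintro ⟨h1, h3⟩
          exact ⟨⟨h1, h3 ▸ h1⟩, h3⟩
      rw [this, Finset.diag_card]
    rw [e4, hK, Finset.card_powerset, smul_eq_mul, smul_eq_mul]
    apply le_of_eq
    ring
  calc ∑ q ∈ QQ b R, ∑ a ∈ AA q, FF κ b T J ((a : ℝ) / q) ^ 2 ≤
      ∑ q ∈ QQ b R, 2 * R * (cnt q : ℝ) / (2 ^ J.card) ^ 2 := Finset.sum_le_sum h1
    _ = 2 * R * ((∑ q ∈ QQ b R, cnt q : ℕ) : ℝ) / (2 ^ J.card) ^ 2 := by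
        push_cast
        rw [Finset.mul_sum, Finset.sum_div]
    _ ≤ 2 * R * ((2 ^ J.card * R + (2 ^ J.card) ^ 2 * D : ℕ) : ℝ) / (2 ^ J.card) ^ 2 := by
        apply div_le_div_of_nonneg_right _ (by positivity)
        apply mul_le_mul_of_nonneg_left _ (by positivity)
        exact_mod_cast h2
    _ = 2 * R * ((R : ℝ) / 2 ^ J.card + D) := by
        push_cast
        field_simp

end Pool.Agent.Helper10
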