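import Pool.Agent.Helper10.Core
import Pool.Agent.Helper10.PalBasics

/-! The two-point digit families around a palindrome. -/

namespace Pool.Agent.Helper10

open Finset

/-- The decimal digit of `N` at position `i` (position `0` is the units digit). -/
def dig (N i : ℕ) : ℕ := N / 10 ^ i % 10

/-- `i` is a free position: its distance to the middle position `n` of a palindrome with
`2 * n + 1` digits is a positive multiple of `g` smaller than `n`. -/
def FreePos (g n i : ℕ) : Prop := ∃ t : ℕ, 1 ≤ t ∧ g * t < n ∧ (i = n + g * t ∨ i + g * t = n)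

open Classical in
/-- base digits -/
noncomputable def f0 (g n P i : ℕ) : ℕ := if FreePos g n i then min (dig P i) 8 else dig P i

/-- increments -/
def inc (g n : ℕ) (ε : Finset ℕ) (i : ℕ) : ℕ :=
  (ε.filter (fun t => i = n + g * t)).card + (ε.filter (fun t => i + g * t = n)).card

/-- base value -/
noncomputable def N0 (g n P : ℕ) : ℕ := ∑ i ∈ range (2 * n + 1), f0 g n P i * 10 ^ i

lemma dig_lt (N i : ℕ) : dig N i < 10 := Nat.mod_lt _ (by norm_num)

lemma freePos_symm (g n i : ℕ) (hi : i < 2 * n + 1) :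
    FreePos g n (2 * n - i) ↔ FreePos g n i := by
  unfold FreePos
  constructor
  · rintro ⟨t, h1, h2, h3⟩
    exact ⟨t, h1, h2, by omega⟩
  · rintro ⟨t, h1, h2, h3⟩
    exact ⟨t, h1, h2, by omega⟩

lemma not_free_zero (g n : ℕ) : ¬ FreePos g n 0 := by
  rintro ⟨t, h1, h2, h3⟩
  omega

section family

variable (g n : ℕ) (hg : 0 < g) (ε : Finset ℕ) (hε : ∀ t ∈ ε, 1 ≤ t ∧ g * t < n)

include hg hε

lemma inc_le_one (i : ℕ) : inc g n ε i ≤ 1 := by
  unfold inc
  have h1 : (ε.filter (fun t => i = n + g * t)).card ≤ 1 := by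
    rw [Finset.card_le_one]
    intro a ha c hc
    rw [Finset.mem_filter] at ha hc
    have : g * a = g * c := by omega
    exact Nat.eq_of_mul_eq_mul_left hg this
  have h2 : (ε.filter (fun t => i + g * t = n)).card ≤ 1 := by
    rw [Finset.card_le_one]
    intro a ha c hc
    rw [Finset.mem_filter] at ha hc
    have : g * a = g * c := by omega
    exact Nat.eq_of_mul_eq_mul_left hg this
  rcases Nat.lt_or_ge n i with h | h
  · have : ε.filter (fun t => i + g * t = n) = ∅ := by
      apply Finset.filter_false_of_mem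
      intro t _
      omega
    rw [this, Finset.card_empty]
    omega
  · have : ε.filter (fun t => i = n + g * t) = ∅ := by
      apply Finset.filter_false_of_mem
      intro t ht
      have := hε t ht
      have : 0 < g * t := Nat.mul_pos hg (by omega)
      omega
    rw [this, Finset.card_empty]
    omega

omit hg in
lemma inc_free (i : ℕ) (h : inc g n ε i ≠ 0) : FreePos g n i := by
  unfold inc at h
  by_contra hcon
  apply h
  have e1 : ε.filter (fun t => i = n + g * t) = ∅ := by
    apply Finset.filter_false_of_mem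
    intro t ht h2
    exact hcon ⟨t, (hε t ht).1, (hε t ht).2, Or.inl h2⟩
  have e2 : ε.filter (fun t => i + g * t = n) = ∅ := by
    apply Finset.filter_false_of_mem
    intro t ht h2
    exact hcon ⟨t, (hε t ht).1, (hε t ht).2, Or.inr h2⟩
  rw [e1, e2]
  rfl

omit hg in
lemma inc_symm (i : ℕ) (hi : i < 2 * n + 1) : inc g n ε (2 * n - i) = inc g n ε i := by
  unfold inc
  rw [add_comm]
  congr 2
  · apply Finset.filter_congr
    intro t ht
    have := hε t ht
    omega
  · apply Finset.filter_congr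
    intro t ht
    have := hε t ht
    omega

omit hg in
lemma sum_inc : ∑ i ∈ range (2 * n + 1), inc g n ε i * 10 ^ i =
    ∑ t ∈ ε, (10 ^ (n - g * t) + 10 ^ (n + g * t)) := by
  unfold inc
  have h1 : ∀ i ∈ range (2 * n + 1), ((ε.filter (fun t => i = n + g * t)).card +
      (ε.filter (fun t => i + g * t = n)).card) * 10 ^ i =
      ∑ t ∈ ε, ((if i + g * t = n then 10 ^ i else 0) + (if i = n + g * t then 10 ^ i else 0)) := by
    intro i _
    rw [Finset.sum_add_distrib, ← Finset.sum_filter, ← Finset.sum_filter, Finset.sum_const,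
      Finset.sum_const, smul_eq_mul, smul_eq_mul]
    ring
  rw [Finset.sum_congr rfl h1, Finset.sum_comm]
  apply Finset.sum_congr rfl
  intro t ht
  have h2 := hε t ht
  rw [Finset.sum_add_distrib]
  congr 1
  · have : ∀ i ∈ range (2 * n + 1), (if i + g * t = n then 10 ^ i else 0) =
        if n - g * t = i then 10 ^ i else 0 := by
      intro i _
      have : (i + g * t = n) ↔ (n - g * t = i) := by omega
      simp only [this]
    rw [Finset.sum_congr rfl this, Finset.sum_ite_eq, if_pos (Finset.mem_range.mpr (by omega))]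
  · have : ∀ i ∈ range (2 * n + 1), (if i = n + g * t then 10 ^ i else 0) =
        if n + g * t = i then 10 ^ i else 0 := by
      intro i _
      have : (i = n + g * t) ↔ (n + g * t = i) := by omega
      simp only [this]
    rw [Finset.sum_congr rfl this, Finset.sum_ite_eq, if_pos (Finset.mem_range.mpr (by omega))]

end family

lemma MM_family (g n T : ℕ) (hT : g * T ≤ n) (ε : Finset ℕ) (hε : ε ⊆ Icc 1 T) :
    MM (10 ^ (n - g * T)) (10 ^ g) T ε = ∑ t ∈ ε, (10 ^ (n - g * t) + 10 ^ (n + g * t)) := by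
  unfold MM
  apply Finset.sum_congr rfl
  intro t ht
  have h1 := Finset.mem_Icc.mp (hε ht)
  obtain ⟨s, rfl⟩ : ∃ s, T = t + s := ⟨T - t, by omega⟩
  obtain ⟨r, rfl⟩ : ∃ r, n = g * (t + s) + r := ⟨n - g * (t + s), by omega⟩
  unfold ww
  rw [Nat.add_sub_cancel_left, Nat.add_sub_cancel_left, mul_add, ← pow_mul, ← pow_mul, ← pow_add,
    ← pow_add]
  congr 2
  · have : g * (t + s) = g * t + g * s := by ring
    omega
  · have : g * (t + s + t) = g * (t + s) + g * t := by ring
    omega

section pal

variable (g n P : ℕ) (hg : 0 < g) (hlen : (Nat.digits 10 P).length = 2 * n + 1)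
  (hrev : (Nat.digits 10 P).reverse = Nat.digits 10 P) (hcop : P.Coprime 10)

lemma free_le (T : ℕ) (hn : 0 < n) (hT : T = (n - 1) / g) (ε : Finset ℕ) (hε : ε ⊆ Icc 1 T) :
    ∀ t ∈ ε, 1 ≤ t ∧ g * t < n := by
  intro t ht
  have h1 := Finset.mem_Icc.mp (hε ht)
  refine ⟨h1.1, ?_⟩
  have h2 : g * t ≤ g * T := Nat.mul_le_mul_left _ h1.2
  have h3 : g * T ≤ n - 1 := by rw [hT]; exact Nat.mul_div_le _ _
  omega

include hlen hrev in
lemma dig_symm (i : ℕ) (hi : i < 2 * n + 1) : dig P (2 * n - i) = dig P i := by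
  have := digit_symm P (2 * n + 1) hlen hrev i hi
  rw [show 2 * n + 1 - 1 - i = 2 * n - i by omega] at this
  exact this

include hlen hrev in
lemma f0_symm (i : ℕ) (hi : i < 2 * n + 1) : f0 g n P (2 * n - i) = f0 g n P i := by
  unfold f0
  rw [dig_symm n P hlen hrev i hi]
  have h := freePos_symm g n i hi
  by_cases h2 : FreePos g n i
  · rw [if_pos h2, if_pos (h.mpr h2)]
  · rw [if_neg h2, if_neg (fun h3 => h2 (h.mp h3))]

include hcop in
lemma dig_zero_ne : dig P 0 ≠ 0 := by
  unfold dig
  rw [pow_zero, Nat.div_one]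
  intro h
  have h1 : 10 ∣ P := Nat.dvd_of_mod_eq_zero h
  have h2 : 10 ∣ Nat.gcd P 10 := Nat.dvd_gcd h1 (dvd_refl _)
  rw [hcop] at h2
  norm_num at h2

/-- the member of the family with increments at `ε` -/
noncomputable def mem (ε : Finset ℕ) : ℕ :=
  ∑ i ∈ range (2 * n + 1), (f0 g n P i + inc g n ε i) * 10 ^ i

include hg hlen hrev hcop in
lemma mem_digits (ε : Finset ℕ) (hε : ∀ t ∈ ε, 1 ≤ t ∧ g * t < n) :
    Nat.digits 10 (mem g n P ε) =
      (List.range (2 * n + 1)).map (fun i => f0 g n P i + inc g n ε i) := by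
  unfold mem
  apply digits_sum_range (fun i => f0 g n P i + inc g n ε i) (2 * n + 1) (by omega)
  · intro i _
    have h1 := inc_le_one g n hg ε hε i
    have h2 := dig_lt P i
    rcases Nat.eq_zero_or_pos (inc g n ε i) with h3 | h3
    · unfold f0
      split_ifs <;> omega
    · have h4 := inc_free g n ε hε i (by omega)
      unfold f0
      rw [if_pos h4]
      omega
  · show f0 g n P (2 * n + 1 - 1) + inc g n ε (2 * n + 1 - 1) ≠ 0
    have h1 := f0_symm g n P hlen hrev 0 (by omega)
    rw [Nat.sub_zero] at h1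
    rw [show 2 * n + 1 - 1 = 2 * n by omega, h1]
    have h2 : f0 g n P 0 = dig P 0 := by
      unfold f0
      rw [if_neg (not_free_zero g n)]
    have h3 := dig_zero_ne P hcop
    omega

include hg hlen hrev hcop in
lemma mem_len (ε : Finset ℕ) (hε : ∀ t ∈ ε, 1 ≤ t ∧ g * t < n) :
    (Nat.digits 10 (mem g n P ε)).length = 2 * n + 1 := by
  rw [mem_digits g n P hg hlen hrev hcop ε hε]
  simp

include hg hlen hrev hcop in
lemma mem_rev (ε : Finset ℕ) (hε : ∀ t ∈ ε, 1 ≤ t ∧ g * t < n) :
    (Nat.digits 10 (mem g n P ε)).reverse = Nat.digits 10 (mem g n P ε) := by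
  rw [mem_digits g n P hg hlen hrev hcop ε hε]
  apply reverse_map_range
  intro i hi
  rw [show 2 * n + 1 - 1 - i = 2 * n - i by omega, f0_symm g n P hlen hrev i hi,
    inc_symm g n ε hε i hi]

include hg hlen hrev hcop in
lemma mem_dig (ε : Finset ℕ) (hε : ∀ t ∈ ε, 1 ≤ t ∧ g * t < n) (i : ℕ) (hi : i < 2 * n + 1) :
    dig (mem g n P ε) i = f0 g n P i + inc g n ε i := by
  unfold dig
  rw [← Nat.getD_digits _ _ (by norm_num), mem_digits g n P hg hlen hrev hcop ε hε]
  simp [List.getD, hi]

lemma dig_of_ge (N l i : ℕ) (hl : (Nat.digits 10 N).length = l) (hi : l ≤ i) : dig N i = 0 := by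
  unfold dig
  rw [← Nat.getD_digits _ _ (by norm_num)]
  rw [List.getD_eq_default]
  omega

lemma mem_eq (ε : Finset ℕ) (hε : ∀ t ∈ ε, 1 ≤ t ∧ g * t < n) :
    mem g n P ε = N0 g n P + ∑ t ∈ ε, (10 ^ (n - g * t) + 10 ^ (n + g * t)) := by
  unfold mem N0
  rw [← sum_inc g n ε hε, ← Finset.sum_add_distrib]
  apply Finset.sum_congr rfl
  intro i _
  ring

include hg hlen hrev hcop in
lemma mem_coprime (ε : Finset ℕ) (hε : ∀ t ∈ ε, 1 ≤ t ∧ g * t < n) :
    (mem g n P ε).Coprime 10 := by
  have h1 := mem_dig g n P hg hlen hrev hcop ε hε 0 (by omega)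
  have h2 : f0 g n P 0 = dig P 0 := by
    unfold f0
    rw [if_neg (not_free_zero g n)]
  have h3 : inc g n ε 0 = 0 := by
    by_contra h
    exact not_free_zero g n (inc_free g n ε hε 0 h)
  rw [h2, h3, add_zero] at h1
  unfold dig at h1
  rw [pow_zero, Nat.div_one, Nat.div_one] at h1
  unfold Nat.Coprime at hcop ⊢
  rw [Nat.gcd_comm, Nat.gcd_rec] at hcop ⊢
  rw [h1]
  exact hcop

end pal

/-- every prime factor at least `z` bounds the number of prime factors. -/
lemma pow_length_le (N z : ℕ) (hN : N ≠ 0) (h : ∀ p : ℕ, p.Prime → p ∣ N → z ≤ p) :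
    z ^ N.primeFactorsList.length ≤ N := by
  have h1 : ∀ l : List ℕ, (∀ p ∈ l, z ≤ p) → z ^ l.length ≤ l.prod := by
    intro l
    induction l with
    | nil => intro _; simp
    | cons a l ih =>
      intro hl
      rw [List.length_cons, List.prod_cons, pow_succ']
      exact Nat.mul_le_mul (hl a (List.mem_cons_self)) (ih fun p hp => hl p (List.mem_cons_of_mem _ hp))
  calc z ^ N.primeFactorsList.length ≤ N.primeFactorsList.prod := by
        apply h1
        intro p hp
        exact h p (Nat.prime_of_mem_primeFactorsList hp) (Nat.dvd_of_mem_primeFactorsList hp)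
    _ = N := Nat.prod_primeFactorsList hN

end Pool.Agent.Helper10
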