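import Pool.Agent.Helper10.SieveG
import Pool.Agent.Helper10.InnerBlock
import Pool.Agent.Helper10.Count
import Pool.Agent.Helper10.PalBasics

/-! Families of palindromes with independent digit sets. -/

namespace Pool.Agent.Helper10

open Finset

/-- weight of the mirror pair at distance `t` from the middle -/
def VV (n t : ℕ) : ℕ := if t = 0 then 10 ^ n else 10 ^ (n - t) + 10 ^ (n + t)

/-- value of a digit choice -/
def NN (n : ℕ) (f : Fin (n + 1) → ℕ) : ℕ := ∑ t : Fin (n + 1), f t * VV n t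

/-- all digit choices -/
def EE (n : ℕ) (D : ℕ → Finset ℕ) : Finset (Fin (n + 1) → ℕ) :=
  Fintype.piFinset (fun t : Fin (n + 1) => D t)

/-- all prime factors are at least `11` and `3` modulo `4` -/
def Good (q : ℕ) : Prop := ∀ p : ℕ, p.Prime → p ∣ q → p % 4 = 3 ∧ 11 ≤ p

lemma countG (n : ℕ) (D : ℕ → Finset ℕ) (q : ℕ) (hq : 0 < q) (ρ : ℝ) (hρ0 : 0 ≤ ρ)
    (hρ : ∀ a : ℕ, 0 < a → a < q →
      ∏ t : Fin (n + 1), ‖∑ c ∈ D t, ee ((c : ℝ) * ((a : ℝ) / q * (VV n t : ℝ)))‖ ≤ ρ) :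
    |(((EE n D).filter (fun f => q ∣ NN n f)).card : ℝ) - ((EE n D).card : ℝ) / q| ≤ ρ := by
  classical
  have hq' : (0 : ℝ) < q := by exact_mod_cast hq
  set G : ℕ → ℂ := fun a => ∑ f ∈ EE n D, ee ((a : ℝ) * ((((NN n f : ℕ) : ℤ) : ℝ) / q)) with hG
  have h1 : (q : ℂ) * (((EE n D).filter (fun f => q ∣ NN n f)).card : ℂ) = ∑ a ∈ range q, G a := by
    simp only [hG]
    rw [Finset.sum_comm]
    have e1 : ∀ f ∈ EE n D, ∑ a ∈ range q, ee ((a : ℝ) * ((((NN n f : ℕ) : ℤ) : ℝ) / q)) =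
        if q ∣ NN n f then (q : ℂ) else 0 := by
      intro f _
      have := sum_ee_eq q hq ((NN n f : ℕ) : ℤ)
      simp only [Int.natCast_dvd_natCast] at this
      exact this
    rw [Finset.sum_congr rfl e1, ← Finset.sum_filter, Finset.sum_const, nsmul_eq_mul]
    ring
  have h0 : G 0 = ((EE n D).card : ℂ) := by
    simp only [hG]
    simp [ee_zero]
  have hGa : ∀ a : ℕ, ‖G a‖ =
      ∏ t : Fin (n + 1), ‖∑ c ∈ D t, ee ((c : ℝ) * ((a : ℝ) / q * (VV n t : ℝ)))‖ := by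
    intro a
    rw [← norm_prod, Finset.prod_univ_sum (fun t : Fin (n + 1) => D t)]
    simp only [hG]
    congr 1
    apply Finset.sum_congr rfl
    intro f _
    rw [← ee_sum]
    congr 1
    unfold NN
    push_cast
    rw [Finset.sum_div, Finset.mul_sum]
    apply Finset.sum_congr rfl
    intro t _
    ring
  have h2 : ‖(q : ℂ) * (((EE n D).filter (fun f => q ∣ NN n f)).card : ℂ) - ((EE n D).card : ℂ)‖ ≤
      q * ρ := by
    have hpos : 0 ∈ range q := Finset.mem_range.mpr hq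
    rw [h1, ← Finset.add_sum_erase _ _ hpos, h0, add_sub_cancel_left]
    refine (norm_sum_le _ _).trans ?_
    calc ∑ a ∈ (range q).erase 0, ‖G a‖ ≤ ∑ a ∈ (range q).erase 0, ρ := by
          apply Finset.sum_le_sum
          intro a ha
          rw [Finset.mem_erase, Finset.mem_range] at ha
          rw [hGa]
          exact hρ a (by omega) ha.2
      _ = ((q - 1 : ℕ) : ℝ) * ρ := by
          rw [Finset.sum_const, Finset.card_erase_of_mem hpos, Finset.card_range, nsmul_eq_mul]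
      _ ≤ q * ρ := by
          apply mul_le_mul_of_nonneg_right _ hρ0
          have : q - 1 ≤ q := Nat.sub_le _ _
          exact_mod_cast this
  have h3 : ‖(q : ℂ) * (((EE n D).filter (fun f => q ∣ NN n f)).card : ℂ) - ((EE n D).card : ℂ)‖ =
      |(q : ℝ) * (((EE n D).filter (fun f => q ∣ NN n f)).card : ℝ) - ((EE n D).card : ℝ)| := by
    rw [← Real.norm_eq_abs, ← Complex.norm_real]
    congr 1
    push_cast
    rfl
  rw [h3] at h2
  have h5 : (((EE n D).filter (fun f => q ∣ NN n f)).card : ℝ) - ((EE n D).card : ℝ) / q =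
      ((q : ℝ) * (((EE n D).filter (fun f => q ∣ NN n f)).card : ℝ) - ((EE n D).card : ℝ)) / q := by
    field_simp
  rw [h5, abs_div, abs_of_pos hq', div_le_iff₀ hq']
  linarith

/-- saving from two different digits -/
lemma norm_sum_digits_le (S : Finset ℕ) (hS : S.card ≤ 10) (β δ : ℝ) (hδ : 0 ≤ δ) (c c' : ℕ)
    (hc : c ∈ S) (hc' : c' ∈ S) (hne : c ≠ c') (h : δ ≤ nd (((c : ℝ) - c') * β)) :
    ‖∑ x ∈ S, ee ((x : ℝ) * β)‖ ≤ (S.card : ℝ) * (1 - 2 / 5 * δ ^ 2) := by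
  classical
  set x := nd (((c : ℝ) - c') * β) with hx
  have hx2 : x ≤ 1 / 2 := nd_le_half _
  have hx0 : 0 ≤ x := nd_nonneg _
  have h1 : ‖(1 + ee (((c : ℝ) - c') * β)) / 2‖ ≤ 1 - 2 * x ^ 2 := by
    apply le_of_sq_le_sq _ (by nlinarith)
    refine (norm_one_add_ee_sq _).trans ?_
    rw [← hx]
    nlinarith [sq_nonneg (x ^ 2)]
  have h2 : ‖ee ((c : ℝ) * β) + ee ((c' : ℝ) * β)‖ ≤ 2 - 4 * x ^ 2 := by
    have e1 : ee ((c : ℝ) * β) + ee ((c' : ℝ) * β) =
        2 * ee ((c' : ℝ) * β) * ((1 + ee (((c : ℝ) - c') * β)) / 2) := by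
      have : ee ((c : ℝ) * β) = ee ((c' : ℝ) * β) * ee (((c : ℝ) - c') * β) := by
        rw [← ee_add]
        congr 1
        ring
      rw [this]
      ring
    rw [e1, norm_mul, norm_mul, norm_ee]
    have : ‖(2 : ℂ)‖ = 2 := by norm_num
    rw [this]
    linarith
  have hc2 : c' ∈ S.erase c := Finset.mem_erase.mpr ⟨hne.symm, hc'⟩
  rw [← Finset.add_sum_erase _ _ hc, ← Finset.add_sum_erase _ _ hc2, ← add_assoc]
  have h3 : ‖∑ y ∈ (S.erase c).erase c', ee ((y : ℝ) * β)‖ ≤ (S.card : ℝ) - 2 := by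
    refine (norm_sum_le _ _).trans ?_
    have e1 : ∀ y ∈ (S.erase c).erase c', ‖ee ((y : ℝ) * β)‖ = 1 := fun y _ => norm_ee _
    rw [Finset.sum_congr rfl e1, Finset.sum_const, Finset.card_erase_of_mem hc2,
      Finset.card_erase_of_mem hc, nsmul_eq_mul, mul_one]
    have hcard : 2 ≤ S.card := by
      have h4 := Finset.card_pos.mpr ⟨c', hc2⟩
      rw [Finset.card_erase_of_mem hc] at h4
      omega
    rw [Nat.sub_sub, Nat.cast_sub (by omega)]
    norm_num
  have hSR : (S.card : ℝ) ≤ 10 := by exact_mod_cast hS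
  calc ‖ee ((c : ℝ) * β) + ee ((c' : ℝ) * β) + ∑ y ∈ (S.erase c).erase c', ee ((y : ℝ) * β)‖
      ≤ (2 - 4 * x ^ 2) + ((S.card : ℝ) - 2) := (norm_add_le _ _).trans (add_le_add h2 h3)
    _ ≤ (S.card : ℝ) * (1 - 2 / 5 * δ ^ 2) := by
        have h5 : δ ^ 2 ≤ x ^ 2 := pow_le_pow_left₀ hδ h 2
        have h6 : (0 : ℝ) ≤ δ ^ 2 := by positivity
        nlinarith

lemma good_coprime (n t q : ℕ) (ht : 1 ≤ t) (htn : t ≤ n) (hq : Good q) (m : ℕ) (hm : 0 < m)
    (hm9 : m ≤ 9) : q.Coprime (m * VV n t) := by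
  rw [Nat.coprime_iff_gcd_eq_one]
  by_contra hne
  obtain ⟨p, hp, hpd⟩ := Nat.exists_prime_and_dvd hne
  have hpq : p ∣ q := hpd.trans (Nat.gcd_dvd_left _ _)
  have hpm : p ∣ m * VV n t := hpd.trans (Nat.gcd_dvd_right _ _)
  obtain ⟨hp4, hp11⟩ := hq p hp hpq
  have hp10 : ∀ k : ℕ, ¬ p ∣ 10 ^ k := by
    intro k h
    have := Nat.le_of_dvd (by norm_num) (hp.dvd_of_dvd_pow h)
    omega
  rcases (Nat.Prime.dvd_mul hp).mp hpm with h | h
  · have := Nat.le_of_dvd hm h
    omega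
  · unfold VV at h
    rw [if_neg (by omega)] at h
    have e1 : 10 ^ (n - t) + 10 ^ (n + t) = 10 ^ (n - t) * (1 + (10 ^ t) ^ 2) := by
      rw [mul_add, mul_one, ← pow_mul, ← pow_add]
      congr 2
      omega
    rw [e1] at h
    rcases (Nat.Prime.dvd_mul hp).mp h with h2 | h2
    · exact hp10 _ h2
    · have : Fact p.Prime := ⟨hp⟩
      have h3 : ((1 + (10 ^ t) ^ 2 : ℕ) : ZMod p) = 0 := (ZMod.natCast_eq_zero_iff _ _).mpr h2
      push_cast at h3
      have h4 : ((10 : ZMod p) ^ t) ^ 2 = -1 := by linear_combination h3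
      exact ZMod.mod_four_ne_three_of_sq_eq_neg_one h4 hp4

/-- distances with at least two allowed digits -/
def freeSet (n : ℕ) (D : ℕ → Finset ℕ) : Finset ℕ := (Icc 1 n).filter (fun t => 2 ≤ (D t).card)

lemma prod_bound (n : ℕ) (D : ℕ → Finset ℕ) (hD : ∀ t ≤ n, D t ⊆ range 10) (q Q a : ℕ)
    (hq : Good q) (hq0 : 0 < q) (hqQ : q ≤ Q) (ha0 : 0 < a) (haq : a < q) :
    ∏ t : Fin (n + 1), ‖∑ c ∈ D t, ee ((c : ℝ) * ((a : ℝ) / q * (VV n t : ℝ)))‖ ≤
      ((EE n D).card : ℝ) * (1 - 2 / 5 * (1 / (Q : ℝ)) ^ 2) ^ (freeSet n D).card := by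
  classical
  have hqR : (0 : ℝ) < q := by exact_mod_cast hq0
  have hQR : (0 : ℝ) < Q := by exact_mod_cast (by omega : 0 < Q)
  have hQ1 : (1 : ℝ) ≤ Q := by exact_mod_cast (by omega : 1 ≤ Q)
  set ρ : ℝ := 1 - 2 / 5 * (1 / (Q : ℝ)) ^ 2 with hρ
  have hinv : (1 / (Q : ℝ)) ^ 2 ≤ 1 := by
    apply pow_le_one₀ (by positivity)
    rw [div_le_one hQR]
    exact hQ1
  have hinv0 : 0 ≤ (1 / (Q : ℝ)) ^ 2 := by positivity
  have hρ0 : 0 ≤ ρ := by rw [hρ]; linarith
  have hρ1 : ρ ≤ 1 := by rw [hρ]; linarith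
  have hcard10 : ∀ t ≤ n, (D t).card ≤ 10 := fun t ht => by
    have := Finset.card_le_card (hD t ht)
    rwa [Finset.card_range] at this
  have hfac : ∀ t : Fin (n + 1), ‖∑ c ∈ D t, ee ((c : ℝ) * ((a : ℝ) / q * (VV n t : ℝ)))‖ ≤
      ((D t).card : ℝ) * (if (t : ℕ) ∈ freeSet n D then ρ else 1) := by
    intro t
    have htn : (t : ℕ) ≤ n := by have := t.isLt; omega
    split_ifs with h
    · unfold freeSet at h
      rw [Finset.mem_filter, Finset.mem_Icc] at h
      obtain ⟨c, hc, c', hc', hne⟩ := Finset.one_lt_card.mp h.2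
      rw [hρ]
      apply norm_sum_digits_le (D t) (hcard10 t htn) _ _ (by positivity) c c' hc hc' hne
      have hc10 := Finset.mem_range.mp (hD t htn hc)
      have hc10' := Finset.mem_range.mp (hD t htn hc')
      have e1 : ((c : ℝ) - c') * ((a : ℝ) / q * (VV n t : ℝ)) =
          ((((c : ℤ) - c') * ((a : ℤ) * VV n t) : ℤ) : ℝ) / (q : ℝ) := by
        push_cast
        ring
      rw [e1]
      refine le_trans ?_ (nd_ge_of_not_dvd _ q hq0 ?_)
      · apply one_div_le_one_div_of_le hqR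
        exact_mod_cast hqQ
      · intro hdv
        set m := ((c : ℤ) - c').natAbs with hm
        have hm0 : 0 < m := by
          rw [hm, Int.natAbs_pos]
          intro h0
          apply hne
          have : (c : ℤ) = c' := by linarith
          exact_mod_cast this
        have hm9 : m ≤ 9 := by omega
        have hcop := good_coprime n t q h.1.1 htn hq m hm0 hm9
        have h6 : q ∣ m * VV n t * a := by
          have h7 := Int.natCast_dvd.mp hdv
          rw [Int.natAbs_mul] at h7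
          have e2 : ((a : ℤ) * (VV n t : ℤ)).natAbs = a * VV n t := by
            rw [Int.natAbs_mul, Int.natAbs_natCast, Int.natAbs_natCast]
          rw [e2] at h7
          have e3 : m * VV n t * a = m * (a * VV n t) := by ring
          rw [e3]
          exact h7
        have h8 := Nat.Coprime.dvd_of_dvd_mul_left hcop h6
        have := Nat.le_of_dvd ha0 h8
        omega
    · rw [mul_one]
      refine (norm_sum_le _ _).trans ?_
      simp [norm_ee]
  calc ∏ t : Fin (n + 1), ‖∑ c ∈ D t, ee ((c : ℝ) * ((a : ℝ) / q * (VV n t : ℝ)))‖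
      ≤ ∏ t : Fin (n + 1), (((D t).card : ℝ) * (if (t : ℕ) ∈ freeSet n D then ρ else 1)) :=
        Finset.prod_le_prod (fun _ _ => norm_nonneg _) (fun t _ => hfac t)
    _ = ((EE n D).card : ℝ) * ρ ^ (freeSet n D).card := by
        rw [Finset.prod_mul_distrib]
        congr 1
        · unfold EE
          rw [Fintype.card_piFinset]
          push_cast
          rfl
        · rw [← Finset.prod_range (fun t => if t ∈ freeSet n D then ρ else 1),
            ← Finset.prod_filter, Finset.prod_const]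
          congr 1
          congr 1
          ext t
          rw [Finset.mem_filter, Finset.mem_range]
          constructor
          · exact fun h => h.2
          · intro h
            refine ⟨?_, h⟩
            unfold freeSet at h
            rw [Finset.mem_filter, Finset.mem_Icc] at h
            omega

lemma good_lcm (Y d1 d2 : ℕ) (h1 : d1 ∈ A3 Y) (h2 : d2 ∈ A3 Y) :
    Good (Nat.lcm d1 d2) ∧ 0 < Nat.lcm d1 d2 ∧ Nat.lcm d1 d2 ≤ Y * Y := by
  unfold A3 at h1 h2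
  rw [Finset.mem_filter, Finset.mem_Icc] at h1 h2
  refine ⟨?_, Nat.lcm_pos (by omega) (by omega), ?_⟩
  · intro p hp hpd
    have h3 : p ∣ d1 * d2 :=
      hpd.trans (Nat.lcm_dvd (Dvd.intro _ rfl) (Dvd.intro_left _ rfl))
    rcases (Nat.Prime.dvd_mul hp).mp h3 with h | h
    · exact h1.2.2 p (Nat.mem_primeFactors.mpr ⟨hp, h, by omega⟩)
    · exact h2.2.2 p (Nat.mem_primeFactors.mpr ⟨hp, h, by omega⟩)
  · have h3 : Nat.lcm d1 d2 ≤ d1 * d2 := by
      apply Nat.le_of_dvd (Nat.mul_pos (by omega) (by omega))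
      exact Nat.lcm_dvd (Dvd.intro _ rfl) (Dvd.intro_left _ rfl)
    exact h3.trans (Nat.mul_le_mul h1.1.2 h2.1.2)

/-- sieve bound for the family -/
theorem family_sieve (n : ℕ) (D : ℕ → Finset ℕ) (hD : ∀ t ≤ n, D t ⊆ range 10) (Y : ℕ)
    (hY : 1 ≤ Y) (E' : Finset (Fin (n + 1) → ℕ)) (hE' : E' ⊆ EE n D)
    (hprime : ∀ f ∈ E', (NN n f).Prime ∧ Y < NN n f) :
    (E'.card : ℝ) ≤ ((EE n D).card : ℝ) / H3 Y + (Y : ℝ) ^ 2 * (((EE n D).card : ℝ) *
      (1 - 2 / 5 * (1 / ((Y * Y : ℕ) : ℝ)) ^ 2) ^ (freeSet n D).card) := by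
  classical
  set ρ : ℝ := ((EE n D).card : ℝ) *
      (1 - 2 / 5 * (1 / ((Y * Y : ℕ) : ℝ)) ^ 2) ^ (freeSet n D).card with hρ
  have hQ1 : (1 : ℝ) ≤ ((Y * Y : ℕ) : ℝ) := by
    have : 1 ≤ Y * Y := Nat.mul_pos hY hY
    exact_mod_cast this
  have hρ0 : 0 ≤ ρ := by
    rw [hρ]
    apply mul_nonneg (by positivity)
    apply pow_nonneg
    have : (1 / ((Y * Y : ℕ) : ℝ)) ^ 2 ≤ 1 := by
      apply pow_le_one₀ (by positivity)
      rw [div_le_one (by linarith)]
      exact hQ1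
    linarith
  have hgood := goodSet_A3 Y hY
  have hmain := upper_sieveG hgood (EE n D) (NN n) ((EE n D).card : ℝ) (by positivity)
    (fun _ => ρ) (by
      intro d1 hd1 d2 hd2
      obtain ⟨hg, hpos, hle⟩ := good_lcm Y d1 d2 hd1 hd2
      apply countG n D (Nat.lcm d1 d2) hpos ρ hρ0
      intro a ha0 ha
      exact prod_bound n D hD (Nat.lcm d1 d2) (Y * Y) a hg hpos hle ha0 ha) E' hE' (by
      intro f hf d hd hdv
      obtain ⟨hp, hlt⟩ := hprime f hf
      rcases (Nat.dvd_prime hp).mp hdv with h | h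
      · exact h
      · exfalso
        unfold A3 at hd
        rw [Finset.mem_filter, Finset.mem_Icc] at hd
        omega)
  refine hmain.trans ?_
  have e1 : HG (A3 Y) = H3 Y := rfl
  rw [e1, Finset.sum_const, Finset.sum_const, nsmul_eq_mul, nsmul_eq_mul]
  have hcard : ((A3 Y).card : ℝ) ≤ Y := by
    have : (A3 Y).card ≤ Y := by
      unfold A3
      refine (Finset.card_filter_le _ _).trans ?_
      rw [Nat.card_Icc]
      omega
    exact_mod_cast this
  have h0 : (0 : ℝ) ≤ (A3 Y).card := by positivity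
  have h2 : ((A3 Y).card : ℝ) * (((A3 Y).card : ℝ) * ρ) ≤ (Y : ℝ) ^ 2 * ρ := by
    rw [← mul_assoc, sq]
    apply mul_le_mul_of_nonneg_right _ hρ0
    exact mul_le_mul hcard hcard h0 (by positivity)
  linarith

/-- lower bound for `H3` -/
lemma H3_lower (Y : ℕ) (hY : 3 ≤ Y) : Real.log (Y + 1) ≤ 63 * H3 Y ^ 2 := by
  have h1 := hh_le_prod Y
  have h2 := H1_sq_le Y
  have h3 : Real.log (Y + 1) ≤ hh Y := harm_ge Y
  have h4 : hh (Y * Y) ≤ 1 + 2 * Real.log Y := by
    have := harmonic_Icc_le (Y * Y) (Nat.mul_pos (by omega) (by omega))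
    have e1 : Real.log ((Y * Y : ℕ) : ℝ) = 2 * Real.log Y := by
      push_cast
      rw [Real.log_mul (by positivity) (by positivity)]
      ring
    rw [e1] at this
    exact this
  set L := Real.log ((Y : ℝ) + 1) with hL
  have hYR : (3 : ℝ) ≤ Y := by exact_mod_cast hY
  have hlogY : Real.log Y ≤ L := Real.log_le_log (by linarith) (by linarith)
  have hL1 : 1 ≤ L := by
    rw [hL, Real.le_log_iff_exp_le (by linarith)]
    have := Real.exp_one_lt_d9
    linarith
  have hH1 : 0 ≤ H1 Y := by unfold H1; positivity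
  have hH3 : 0 ≤ H3 Y := by unfold H3; positivity
  have h5 : H1 Y ^ 2 ≤ 3 * L := by linarith
  have h6 : L ≤ 32 / 7 * (H1 Y * H3 Y) := by linarith
  have h7 : L ^ 2 ≤ (32 / 7) ^ 2 * (H1 Y ^ 2 * H3 Y ^ 2) := by
    have : L ^ 2 ≤ (32 / 7 * (H1 Y * H3 Y)) ^ 2 := pow_le_pow_left₀ (by linarith) h6 2
    calc L ^ 2 ≤ (32 / 7 * (H1 Y * H3 Y)) ^ 2 := this
      _ = (32 / 7) ^ 2 * (H1 Y ^ 2 * H3 Y ^ 2) := by ring
  have h8 : H1 Y ^ 2 * H3 Y ^ 2 ≤ 3 * L * H3 Y ^ 2 :=
    mul_le_mul_of_nonneg_right h5 (by positivity)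
  have h9 : L * L ≤ L * (63 * H3 Y ^ 2) := by
    have : (32 / 7 : ℝ) ^ 2 * (3 * L * H3 Y ^ 2) ≤ L * (63 * H3 Y ^ 2) := by
      have h10 : 0 ≤ L * H3 Y ^ 2 := by positivity
      nlinarith
    nlinarith
  exact le_of_mul_le_mul_left h9 (by linarith)

/-- **Main inequality.** -/
theorem family_bound (n : ℕ) (D : ℕ → Finset ℕ) (hD : ∀ t ≤ n, D t ⊆ range 10)
    (s : ℕ) (hs : s = (freeSet n D).card) (hs1 : 1 ≤ s)
    (E' : Finset (Fin (n + 1) → ℕ)) (hE' : E' ⊆ EE n D)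
    (hprime : ∀ f ∈ E', (NN n f).Prime ∧ 10 ^ (2 * n) ≤ NN n f) :
    (E'.card : ℝ) * Real.sqrt (Real.log s) ≤ 50 * ((EE n D).card : ℝ) := by
  classical
  have hcardle : (E'.card : ℝ) ≤ ((EE n D).card : ℝ) := by
    exact_mod_cast Finset.card_le_card hE'
  have hsR : (1 : ℝ) ≤ s := by exact_mod_cast hs1
  have hE0 : (0 : ℝ) ≤ ((EE n D).card : ℝ) := by positivity
  have hlog2 : Real.log 2 < (0.6931471808 : ℝ) := Real.log_two_lt_d9
  rcases Nat.lt_or_ge s 6561 with hsmall | hlarge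
  · have h1 : Real.log s ≤ 50 ^ 2 := by
      have : Real.log s ≤ Real.log (2 ^ 13) := by
        apply Real.log_le_log (by linarith)
        have : (s : ℝ) ≤ 6561 := by exact_mod_cast hsmall.le
        norm_num
        linarith
      rw [Real.log_pow] at this
      push_cast at this
      linarith
    have h2 : Real.sqrt (Real.log s) ≤ 50 := by
      rw [Real.sqrt_le_left (by norm_num)]
      exact h1
    have h3 : 0 ≤ Real.sqrt (Real.log s) := Real.sqrt_nonneg _
    nlinarith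
  set Y := Nat.sqrt (Nat.sqrt (Nat.sqrt s)) with hY
  have hY8 : Y ^ 8 ≤ s := by
    have h1 : Y ^ 2 ≤ Nat.sqrt (Nat.sqrt s) := by rw [hY, sq]; exact Nat.sqrt_le _
    have h2 : (Nat.sqrt (Nat.sqrt s)) ^ 2 ≤ Nat.sqrt s := by rw [sq]; exact Nat.sqrt_le _
    have h3 : (Nat.sqrt s) ^ 2 ≤ s := by rw [sq]; exact Nat.sqrt_le _
    calc Y ^ 8 = ((Y ^ 2) ^ 2) ^ 2 := by ring
      _ ≤ ((Nat.sqrt (Nat.sqrt s)) ^ 2) ^ 2 :=
        Nat.pow_le_pow_left (Nat.pow_le_pow_left h1 2) 2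
      _ ≤ (Nat.sqrt s) ^ 2 := Nat.pow_le_pow_left h2 2
      _ ≤ s := h3
  have hsY8 : s < (Y + 1) ^ 8 := by
    have h1 : Nat.sqrt (Nat.sqrt s) < (Y + 1) ^ 2 := by rw [hY, sq]; exact Nat.lt_succ_sqrt _
    have h2 : Nat.sqrt s < (Nat.sqrt (Nat.sqrt s) + 1) ^ 2 := by rw [sq]; exact Nat.lt_succ_sqrt _
    have h3 : s < (Nat.sqrt s + 1) ^ 2 := by rw [sq]; exact Nat.lt_succ_sqrt _
    calc s < (Nat.sqrt s + 1) ^ 2 := h3
      _ ≤ ((Nat.sqrt (Nat.sqrt s) + 1) ^ 2) ^ 2 := Nat.pow_le_pow_left h2 2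
      _ ≤ (((Y + 1) ^ 2) ^ 2) ^ 2 := Nat.pow_le_pow_left (Nat.pow_le_pow_left h1 2) 2
      _ = (Y + 1) ^ 8 := by ring
  have hY3 : 3 ≤ Y := by
    by_contra hcon
    have h1 : Y + 1 ≤ 3 := by omega
    have h2 : (Y + 1) ^ 8 ≤ 3 ^ 8 := Nat.pow_le_pow_left h1 8
    norm_num at h2
    omega
  have hYR : (3 : ℝ) ≤ Y := by exact_mod_cast hY3
  have hYs : Y < 10 ^ (2 * n) := by
    have h1 : s ≤ n := by
      rw [hs]
      unfold freeSet
      refine (Finset.card_filter_le _ _).trans ?_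
      rw [Nat.card_Icc]
      omega
    have h2 : Y ≤ Y ^ 8 := Nat.le_self_pow (by norm_num) Y
    have h3 : n < 10 ^ n := Nat.lt_pow_self (by norm_num)
    have h4 : 10 ^ n ≤ 10 ^ (2 * n) := Nat.pow_le_pow_right (by norm_num) (by omega)
    omega
  have hsv := family_sieve n D hD Y (by omega) E' hE' (fun f hf => by
    obtain ⟨h1, h2⟩ := hprime f hf
    exact ⟨h1, by omega⟩)
  rw [← hs] at hsv
  set L := Real.log ((Y : ℝ) + 1) with hL
  have hLs : Real.log s ≤ 8 * L := by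
    have : Real.log s ≤ Real.log (((Y : ℝ) + 1) ^ 8) := by
      apply Real.log_le_log (by linarith)
      exact_mod_cast hsY8.le
    rw [Real.log_pow] at this
    push_cast at this
    exact this
  have hH3 := H3_lower Y hY3
  have hL1 : 1 ≤ L := by
    rw [hL, Real.le_log_iff_exp_le (by linarith)]
    have := Real.exp_one_lt_d9
    linarith
  have hH3nn : 0 ≤ H3 Y := by unfold H3; positivity
  have hH3pos : 0 < H3 Y := by
    rcases hH3nn.lt_or_eq with h | h
    · exact h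
    · rw [← h] at hH3
      norm_num at hH3
      linarith
  -- first part
  have hsq1 : Real.sqrt (Real.log s) ≤ 30 * H3 Y := by
    rw [Real.sqrt_le_left (by positivity)]
    calc Real.log s ≤ 8 * L := hLs
      _ ≤ 8 * (63 * H3 Y ^ 2) := by linarith
      _ ≤ (30 * H3 Y) ^ 2 := by nlinarith [sq_nonneg (H3 Y)]
  have hsq2 : Real.sqrt (Real.log s) ≤ 3 * Y := by
    rw [Real.sqrt_le_left (by positivity)]
    have : L ≤ Y := by
      have := Real.log_le_sub_one_of_pos (show (0 : ℝ) < (Y : ℝ) + 1 by linarith)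
      rw [hL]
      linarith
    nlinarith
  have hsq0 : 0 ≤ Real.sqrt (Real.log s) := Real.sqrt_nonneg _
  -- the power
  have hYpos : (0 : ℝ) < Y := by linarith
  set x : ℝ := 2 / 5 * (1 / ((Y * Y : ℕ) : ℝ)) ^ 2 with hx
  have hx0 : 0 < x := by
    rw [hx]
    have : (0 : ℝ) < ((Y * Y : ℕ) : ℝ) := by push_cast; positivity
    positivity
  have hxeq : x = 2 / 5 / (Y : ℝ) ^ 4 := by
    rw [hx]
    push_cast
    field_simp
  have hx1 : x ≤ 1 := by
    rw [hxeq, div_le_one (by positivity)]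
    have : (1 : ℝ) ≤ (Y : ℝ) ^ 4 := one_le_pow₀ (by linarith)
    linarith
  have hpow : (1 - x) ^ s ≤ 5 / 2 / (Y : ℝ) ^ 4 := by
    have h1 : (1 - x) ≤ Real.exp (-x) := by
      have := Real.add_one_le_exp (-x)
      linarith
    have h2 : (1 - x) ^ s ≤ Real.exp (-x) ^ s := pow_le_pow_left₀ (by linarith) h1 s
    rw [← Real.exp_nat_mul] at h2
    have h3 : Real.exp (s * -x) ≤ 1 / (s * x) := by
      rw [mul_neg, Real.exp_neg, ← one_div]
      apply one_div_le_one_div_of_le (by positivity)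
      have := Real.add_one_le_exp (s * x)
      linarith
    have h4 : 1 / (s * x) ≤ 5 / 2 / (Y : ℝ) ^ 4 := by
      rw [hxeq]
      have h5 : (Y : ℝ) ^ 8 ≤ s := by exact_mod_cast hY8
      have e1 : 1 / ((s : ℝ) * (2 / 5 / (Y : ℝ) ^ 4)) = 5 / 2 * (Y : ℝ) ^ 4 / s := by
        field_simp
      rw [e1, div_le_div_iff₀ (by linarith) (by positivity)]
      have e2 : 5 / 2 * (Y : ℝ) ^ 4 * (Y : ℝ) ^ 4 = 5 / 2 * (Y : ℝ) ^ 8 := by ring
      rw [e2]
      nlinarith
    linarith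
  calc (E'.card : ℝ) * Real.sqrt (Real.log s)
      ≤ (((EE n D).card : ℝ) / H3 Y + (Y : ℝ) ^ 2 * (((EE n D).card : ℝ) * (1 - x) ^ s)) *
          Real.sqrt (Real.log s) := mul_le_mul_of_nonneg_right hsv hsq0
    _ = ((EE n D).card : ℝ) * (Real.sqrt (Real.log s) / H3 Y) +
          ((EE n D).card : ℝ) * ((Y : ℝ) ^ 2 * (1 - x) ^ s * Real.sqrt (Real.log s)) := by ring
    _ ≤ ((EE n D).card : ℝ) * 30 + ((EE n D).card : ℝ) * 20 := by
        apply add_le_add
        · apply mul_le_mul_of_nonneg_left _ hE0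
          rw [div_le_iff₀ hH3pos]
          exact hsq1
        · apply mul_le_mul_of_nonneg_left _ hE0
          have h1x : 0 ≤ (1 - x) ^ s := pow_nonneg (by linarith) _
          calc (Y : ℝ) ^ 2 * (1 - x) ^ s * Real.sqrt (Real.log s)
              ≤ (Y : ℝ) ^ 2 * (5 / 2 / (Y : ℝ) ^ 4) * (3 * (Y : ℝ)) := by
                apply mul_le_mul _ hsq2 hsq0 (by positivity)
                exact mul_le_mul_of_nonneg_left hpow (by positivity)
            _ = 15 / 2 / (Y : ℝ) := by field_simp; ring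
            _ ≤ 20 := by
                rw [div_le_iff₀ hYpos]
                linarith
    _ = 50 * ((EE n D).card : ℝ) := by ring

end Pool.Agent.Helper10
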