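import Pool.Agent.Helper2.QP.Basic

/-!
# Backup lemmas for QP-GREEN: jump of the winding number, untouched points
-/

set_option autoImplicit false

namespace Pool.Agent.Helper10.QPGreen

open Pool.Agent.Helper2.QP

theorem psum_congr (F G : V → Fin 4 → ℤ) (p : V) (l : List (Fin 4))
    (h : ∀ v a, F v a = G v a) : psum F p l = psum G p l := by
  have : F = G := by
    funext v a
    exact h v a
  rw [this]

theorem psum_sub (F G : V → Fin 4 → ℤ) (p : V) (l : List (Fin 4)) :
    psum F p l - psum G p l = psum (fun v a => F v a - G v a) p l := by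
  induction l generalizing p with
  | nil => simp [psum]
  | cons a l ih =>
    simp only [psum]
    rw [← ih (p + stp a)]
    ring

theorem psum_tele (G : V → ℤ) (p : V) (l : List (Fin 4)) (h : dsp l = 0) :
    psum (fun v a => G (v + stp a) - G v) p l = 0 := by
  have key : ∀ (q : V) (m : List (Fin 4)),
      psum (fun v a => G (v + stp a) - G v) q m = G (q + dsp m) - G q := by
    intro q m
    induction m generalizing q with
    | nil => simp [psum, dsp]
    | cons a m ih =>
      simp only [psum, dsp]
      rw [ih (q + stp a), add_assoc]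
      ring
  rw [key, h, add_zero, sub_self]

/-- The winding number jumps by the net number of traversals when an edge is crossed. -/
theorem wd_lft_rgt (p : V) (l : List (Fin 4)) (hl : dsp l = 0) (u : V) (a : Fin 4) :
    wd p l (lft u a) - wd p l (rgt u a) = tr p l u a := by
  have main : ∀ G : V → ℤ, (∀ v b, (wdF (lft u a) v b - wdF (rgt u a) v b) - trF u a v b =
      G (v + stp b) - G v) → wd p l (lft u a) - wd p l (rgt u a) = tr p l u a := by
    intro G hG
    have h1 : (wd p l (lft u a) - wd p l (rgt u a)) - tr p l u a = 0 := by
      unfold wd tr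
      rw [psum_sub, psum_sub, psum_congr _ _ p l hG]
      exact psum_tele G p l hl
    linarith
  obtain ⟨x, y⟩ := u
  fin_cases a
  · refine main (fun v => if v.2 = y ∧ x < v.1 then -1 else 0) ?_
    rintro ⟨v1, v2⟩ b
    fin_cases b <;> simp [wdF, trF, lft, rgt, stp, opp] <;> grind
  · refine main (fun _ => 0) ?_
    rintro ⟨v1, v2⟩ b
    fin_cases b <;> simp [wdF, trF, lft, rgt, stp, opp] <;> grind
  · refine main (fun v => if v.2 = y ∧ x - 1 < v.1 then 1 else 0) ?_
    rintro ⟨v1, v2⟩ b
    fin_cases b <;> simp [wdF, trF, lft, rgt, stp, opp] <;> grind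
  · refine main (fun _ => 0) ?_
    rintro ⟨v1, v2⟩ b
    fin_cases b <;> simp [wdF, trF, lft, rgt, stp, opp] <;> grind

theorem psum_eq_zero (F : V → Fin 4 → ℤ) (l : List (Fin 4)) : ∀ p : V,
    (∀ v ∈ verts p l, ∀ b, (v + stp b ∈ verts p l ∨ v + stp b = p + dsp l) → F v b = 0) →
    psum F p l = 0 := by
  induction l with
  | nil => intro p _; rfl
  | cons a l ih =>
    intro p h
    simp only [psum]
    have h1 : F p a = 0 := by
      apply h p (by simp [verts]) a
      cases l with
      | nil => right; simp [dsp]
      | cons b l => left; simp [verts]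
    rw [h1, zero_add]
    apply ih
    intro v hv b hb
    apply h v (by simp [verts, hv]) b
    rcases hb with hb | hb
    · left
      simp [verts, hb]
    · right
      rw [hb]
      simp [dsp, add_assoc]

/-- An edge at a lattice point which is not on the closed walk is not traversed. -/
theorem tr_eq_zero (p : V) (l : List (Fin 4)) (hl : dsp l = 0) (u : V) (a : Fin 4)
    (hu : u ∉ verts p l) : tr p l u a = 0 := by
  unfold tr
  apply psum_eq_zero
  intro v hv b hb
  unfold trF
  rw [if_neg, if_neg]
  · rintro ⟨h1, h2⟩
    have h3 : v + stp b = u := by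
      rw [h1, h2, stp_opp]
      abel
    rw [h3, hl, add_zero] at hb
    rcases hb with hb | hb
    · exact hu hb
    · apply hu
      rw [hb]
      cases l with
      | nil => simp [verts] at hv
      | cons c l => simp [verts]
  · rintro ⟨h1, _⟩
    exact hu (h1 ▸ hv)

end Pool.Agent.Helper10.QPGreen
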