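import Pool.Agent.Helper10.DivBound
import Pool.Agent.Helper10.LargeSieve

/-! A Selberg-type sieve: weights, quadratic forms. -/

namespace Pool.Agent.Helper10

open Finset

/-- square-free integers up to `Y` coprime to `10` -/
def DD (Y : ℕ) : Finset ℕ := (Icc 1 Y).filter (fun d => Squarefree d ∧ d.Coprime 10)

noncomputable def HH (Y : ℕ) : ℝ := ∑ d ∈ DD Y, 1 / (d : ℝ)

/-- sieve weights -/
noncomputable def lam (Y d : ℕ) : ℝ :=
  ((ArithmeticFunction.moebius d : ℤ) : ℝ) * d / HH Y *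
    ∑ j ∈ (DD Y).filter (fun j => d ∣ j), 1 / (j : ℝ)

lemma mem_DD (Y d : ℕ) : d ∈ DD Y ↔ (1 ≤ d ∧ d ≤ Y) ∧ Squarefree d ∧ d.Coprime 10 := by
  unfold DD
  rw [Finset.mem_filter, Finset.mem_Icc]

lemma one_mem_DD (Y : ℕ) (hY : 1 ≤ Y) : 1 ∈ DD Y := by
  rw [mem_DD]
  exact ⟨⟨le_refl 1, hY⟩, squarefree_one, Nat.coprime_one_left 10⟩

lemma dvd_mem_DD (Y d k : ℕ) (hd : d ∈ DD Y) (hk : k ∣ d) : k ∈ DD Y := by
  rw [mem_DD] at hd ⊢
  obtain ⟨⟨h1, h2⟩, h3, h4⟩ := hd
  have hle := Nat.le_of_dvd (by omega) hk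
  have hpos := Nat.pos_of_dvd_of_pos hk (by omega)
  exact ⟨⟨hpos, by omega⟩, h3.squarefree_of_dvd hk, Nat.Coprime.coprime_dvd_left hk h4⟩

lemma HH_ge_one (Y : ℕ) (hY : 1 ≤ Y) : 1 ≤ HH Y := by
  unfold HH
  have := Finset.single_le_sum (f := fun d : ℕ => 1 / (d : ℝ)) (fun i _ => by positivity)
    (one_mem_DD Y hY)
  simpa using this

lemma abs_lam_le (Y d : ℕ) (hY : 1 ≤ Y) (hd : d ∈ DD Y) : |lam Y d| ≤ 1 := by
  have hH : 0 < HH Y := lt_of_lt_of_le one_pos (HH_ge_one Y hY)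
  have hd1 : 1 ≤ d := ((mem_DD Y d).mp hd).1.1
  have hdR : (0 : ℝ) < d := by exact_mod_cast hd1
  unfold lam
  have h1 : (d : ℝ) * ∑ j ∈ (DD Y).filter (fun j => d ∣ j), 1 / (j : ℝ) ≤ HH Y := by
    rw [Finset.mul_sum]
    have e1 : ∀ j ∈ (DD Y).filter (fun j => d ∣ j), (d : ℝ) * (1 / (j : ℝ)) =
        1 / ((j / d : ℕ) : ℝ) := by
      intro j hj
      rw [Finset.mem_filter] at hj
      rw [Nat.cast_div hj.2 hdR.ne']
      have : (j : ℝ) ≠ 0 := by
        have := ((mem_DD Y j).mp hj.1).1.1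
        positivity
      field_simp
    rw [Finset.sum_congr rfl e1,
      ← Finset.sum_image (s := (DD Y).filter (fun j => d ∣ j)) (g := fun j => j / d)
        (f := fun e : ℕ => 1 / (e : ℝ))]
    · unfold HH
      apply Finset.sum_le_sum_of_subset_of_nonneg
      · intro e he
        rw [Finset.mem_image] at he
        obtain ⟨j, hj, rfl⟩ := he
        rw [Finset.mem_filter] at hj
        exact dvd_mem_DD Y j _ hj.1 (Nat.div_dvd_of_dvd hj.2)
      · intro _ _ _
        positivity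
    · intro x hx y hy hxy
      rw [Finset.mem_coe, Finset.mem_filter] at hx hy
      simp only at hxy
      rw [← Nat.div_mul_cancel hx.2, ← Nat.div_mul_cancel hy.2, hxy]
  have h2 : |((ArithmeticFunction.moebius d : ℤ) : ℝ)| ≤ 1 := by
    have := ArithmeticFunction.abs_moebius_le_one (n := d)
    exact_mod_cast this
  have hsum0 : 0 ≤ ∑ j ∈ (DD Y).filter (fun j => d ∣ j), 1 / (j : ℝ) := by positivity
  have e2 : ((ArithmeticFunction.moebius d : ℤ) : ℝ) * d / HH Y *
      ∑ j ∈ (DD Y).filter (fun j => d ∣ j), 1 / (j : ℝ) =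
      ((ArithmeticFunction.moebius d : ℤ) : ℝ) *
        ((d * ∑ j ∈ (DD Y).filter (fun j => d ∣ j), 1 / (j : ℝ)) / HH Y) := by ring
  rw [e2, abs_mul]
  have h3 : |(d * ∑ j ∈ (DD Y).filter (fun j => d ∣ j), 1 / (j : ℝ)) / HH Y| ≤ 1 := by
    rw [abs_of_nonneg (by positivity), div_le_one hH]
    exact h1
  exact mul_le_one₀ h2 (abs_nonneg _) h3

lemma lam_one (Y : ℕ) (hY : 1 ≤ Y) : lam Y 1 = 1 := by
  have hH : 0 < HH Y := lt_of_lt_of_le one_pos (HH_ge_one Y hY)
  unfold lam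
  have : (DD Y).filter (fun j => 1 ∣ j) = DD Y := by
    apply Finset.filter_true_of_mem
    intro j _
    exact one_dvd j
  rw [this]
  simp only [ArithmeticFunction.moebius_apply_one, Int.cast_one, Nat.cast_one, one_mul]
  change 1 / HH Y * HH Y = 1
  field_simp

lemma sum_mu (j k : ℕ) (hj : Squarefree j) (hk : 0 < k) :
    ∑ d ∈ j.divisors.filter (fun d => k ∣ d), (ArithmeticFunction.moebius d : ℤ) =
      if j = k then ArithmeticFunction.moebius k else 0 := by
  by_cases hkj : k ∣ j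
  · obtain ⟨m, rfl⟩ := hkj
    have hkm : k * m ≠ 0 := hj.ne_zero
    have hm : 0 < m := Nat.pos_of_ne_zero (right_ne_zero_of_mul hkm)
    have e1 : (k * m).divisors.filter (fun d => k ∣ d) = m.divisors.image (fun e => k * e) := by
      ext d
      rw [Finset.mem_filter, Finset.mem_image, Nat.mem_divisors]
      constructor
      · rintro ⟨⟨h1, _⟩, e, rfl⟩
        exact ⟨e, Nat.mem_divisors.mpr ⟨Nat.dvd_of_mul_dvd_mul_left hk h1, hm.ne'⟩, rfl⟩
      · rintro ⟨e, he, rfl⟩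
        rw [Nat.mem_divisors] at he
        exact ⟨⟨Nat.mul_dvd_mul_left k he.1, hkm⟩, Dvd.intro e rfl⟩
    rw [e1, Finset.sum_image (by
      intro x _ y _ hxy
      exact Nat.eq_of_mul_eq_mul_left hk hxy)]
    have e2 : ∀ e ∈ m.divisors, ArithmeticFunction.moebius (k * e) =
        ArithmeticFunction.moebius k * ArithmeticFunction.moebius e := by
      intro e he
      rw [Nat.mem_divisors] at he
      have hsq : Squarefree (k * e) := hj.squarefree_of_dvd (Nat.mul_dvd_mul_left k he.1)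
      exact ArithmeticFunction.isMultiplicative_moebius.map_mul_of_coprime
        (Nat.coprime_of_squarefree_mul hsq)
    rw [Finset.sum_congr rfl e2, ← Finset.mul_sum]
    have e3 : ∑ e ∈ m.divisors, (ArithmeticFunction.moebius e : ℤ) = if m = 1 then 1 else 0 := by
      rw [← ArithmeticFunction.coe_mul_zeta_apply, ArithmeticFunction.moebius_mul_coe_zeta,
        ArithmeticFunction.one_apply]
    rw [e3]
    by_cases hm1 : m = 1
    · simp [hm1]
    · rw [if_neg hm1, if_neg, mul_zero]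
      intro h
      apply hm1
      have : k * m = k * 1 := by rw [h, mul_one]
      exact Nat.eq_of_mul_eq_mul_left hk this
  · have e1 : j.divisors.filter (fun d => k ∣ d) = ∅ := by
      apply Finset.filter_false_of_mem
      intro d hd h
      exact hkj (h.trans (Nat.dvd_of_mem_divisors hd))
    rw [e1, Finset.sum_empty, if_neg]
    rintro rfl
    exact hkj (dvd_refl _)

/-- the diagonalizing variables -/
noncomputable def yy (Y k : ℕ) : ℝ := ∑ d ∈ (DD Y).filter (fun d => k ∣ d), lam Y d / d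

lemma yy_eq (Y k : ℕ) (hk : 0 < k) :
    yy Y k = if k ∈ DD Y then ((ArithmeticFunction.moebius k : ℤ) : ℝ) / (k * HH Y) else 0 := by
  unfold yy
  have h1 : ∀ d ∈ (DD Y).filter (fun d => k ∣ d), lam Y d / d =
      ∑ j ∈ DD Y, if d ∣ j then (1 / HH Y) * (1 / (j : ℝ)) *
        ((ArithmeticFunction.moebius d : ℤ) : ℝ) else 0 := by
    intro d hd
    rw [Finset.mem_filter] at hd
    have hd1 : (d : ℝ) ≠ 0 := by
      have := ((mem_DD Y d).mp hd.1).1.1
      positivity
    rw [← Finset.sum_filter]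
    unfold lam
    rw [← Finset.sum_mul, ← Finset.mul_sum]
    field_simp
  rw [Finset.sum_congr rfl h1, Finset.sum_comm]
  have h2 : ∀ j ∈ DD Y, (∑ d ∈ (DD Y).filter (fun d => k ∣ d), if d ∣ j then
      (1 / HH Y) * (1 / (j : ℝ)) * ((ArithmeticFunction.moebius d : ℤ) : ℝ) else 0) =
      if j = k then (1 / HH Y) * (1 / (j : ℝ)) * ((ArithmeticFunction.moebius k : ℤ) : ℝ) else 0 := by
    intro j hj
    rw [← Finset.sum_filter, Finset.filter_filter]
    have e1 : (DD Y).filter (fun d => k ∣ d ∧ d ∣ j) = j.divisors.filter (fun d => k ∣ d) := by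
      ext d
      rw [Finset.mem_filter, Finset.mem_filter, Nat.mem_divisors]
      constructor
      · rintro ⟨h1, h2, h3⟩
        exact ⟨⟨h3, by have := ((mem_DD Y j).mp hj).1.1; omega⟩, h2⟩
      · rintro ⟨⟨h1, _⟩, h2⟩
        exact ⟨dvd_mem_DD Y j d hj h1, h2, h1⟩
    rw [e1, ← Finset.mul_sum, ← Int.cast_sum, sum_mu j k ((mem_DD Y j).mp hj).2.1 hk]
    split_ifs <;> simp
  rw [Finset.sum_congr rfl h2, Finset.sum_ite_eq']
  split_ifs with h
  · have hk1 : (k : ℝ) ≠ 0 := by positivity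
    field_simp
  · rfl

/-- diagonalization of the quadratic form. -/
lemma diag_form (Y : ℕ) (D : Finset ℕ) (s : ℕ → ℕ) (hs : ∀ d ∈ D, s d ∈ Icc 1 Y) (Λ : ℕ → ℝ) :
    ∑ d1 ∈ D, ∑ d2 ∈ D, Λ d1 * Λ d2 / ((Nat.lcm (s d1) (s d2) : ℕ) : ℝ) =
      ∑ k ∈ Icc 1 Y, (Nat.totient k : ℝ) * (∑ d ∈ D.filter (fun d => k ∣ s d), Λ d / (s d : ℝ)) ^ 2 := by
  have h1 : ∀ d1 ∈ D, ∀ d2 ∈ D, Λ d1 * Λ d2 / ((Nat.lcm (s d1) (s d2) : ℕ) : ℝ) =
      ∑ k ∈ Icc 1 Y, (Nat.totient k : ℝ) * ((if k ∣ s d1 then Λ d1 / (s d1 : ℝ) else 0) *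
        (if k ∣ s d2 then Λ d2 / (s d2 : ℝ) else 0)) := by
    intro d1 hd1 d2 hd2
    have hs1 := Finset.mem_Icc.mp (hs d1 hd1)
    have hs2 := Finset.mem_Icc.mp (hs d2 hd2)
    have hg : 0 < Nat.gcd (s d1) (s d2) := Nat.gcd_pos_of_pos_left _ (by omega)
    have e1 : (Nat.gcd (s d1) (s d2) : ℝ) = ∑ k ∈ (Icc 1 Y).filter (fun k => k ∣ s d1 ∧ k ∣ s d2),
        (Nat.totient k : ℝ) := by
      have := Nat.sum_totient (Nat.gcd (s d1) (s d2))
      have e2 : (Nat.gcd (s d1) (s d2)).divisors =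
          (Icc 1 Y).filter (fun k => k ∣ s d1 ∧ k ∣ s d2) := by
        ext k
        rw [Nat.mem_divisors, Finset.mem_filter, Finset.mem_Icc, Nat.dvd_gcd_iff]
        constructor
        · rintro ⟨⟨h1, h2⟩, _⟩
          have := Nat.le_of_dvd (by omega) h1
          have := Nat.pos_of_dvd_of_pos h1 (by omega)
          exact ⟨⟨by omega, by omega⟩, h1, h2⟩
        · rintro ⟨_, h1, h2⟩
          exact ⟨⟨h1, h2⟩, hg.ne'⟩
      rw [e2] at this
      rw [← this]
      push_cast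
      rfl
    have e3 : ((Nat.lcm (s d1) (s d2) : ℕ) : ℝ) = (s d1 : ℝ) * (s d2 : ℝ) /
        (Nat.gcd (s d1) (s d2) : ℝ) := by
      rw [eq_div_iff (by positivity)]
      have := Nat.gcd_mul_lcm (s d1) (s d2)
      rw [mul_comm] at this
      exact_mod_cast this
    have hp1 : (s d1 : ℝ) ≠ 0 := by
      have : 0 < s d1 := by omega
      positivity
    have hp2 : (s d2 : ℝ) ≠ 0 := by
      have : 0 < s d2 := by omega
      positivity
    have hp3 : (Nat.gcd (s d1) (s d2) : ℝ) ≠ 0 := by positivity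
    have e4 : Λ d1 * Λ d2 / ((Nat.lcm (s d1) (s d2) : ℕ) : ℝ) =
        (Nat.gcd (s d1) (s d2) : ℝ) * (Λ d1 / (s d1 : ℝ) * (Λ d2 / (s d2 : ℝ))) := by
      rw [e3]
      field_simp
    rw [e4, e1, Finset.sum_mul, Finset.sum_filter]
    apply Finset.sum_congr rfl
    intro k _
    by_cases ha : k ∣ s d1 <;> by_cases hb : k ∣ s d2 <;> simp [ha, hb]
  have h2 : ∑ d1 ∈ D, ∑ d2 ∈ D, Λ d1 * Λ d2 / ((Nat.lcm (s d1) (s d2) : ℕ) : ℝ) =
      ∑ d1 ∈ D, ∑ d2 ∈ D, ∑ k ∈ Icc 1 Y, (Nat.totient k : ℝ) *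
        ((if k ∣ s d1 then Λ d1 / (s d1 : ℝ) else 0) *
        (if k ∣ s d2 then Λ d2 / (s d2 : ℝ) else 0)) :=
    Finset.sum_congr rfl fun d1 hd1 => Finset.sum_congr rfl fun d2 hd2 => h1 d1 hd1 d2 hd2
  rw [h2]
  have h3 : ∀ d1 ∈ D, ∑ d2 ∈ D, ∑ k ∈ Icc 1 Y, (Nat.totient k : ℝ) *
        ((if k ∣ s d1 then Λ d1 / (s d1 : ℝ) else 0) *
        (if k ∣ s d2 then Λ d2 / (s d2 : ℝ) else 0)) = ∑ k ∈ Icc 1 Y, ∑ d2 ∈ D,
        (Nat.totient k : ℝ) * ((if k ∣ s d1 then Λ d1 / (s d1 : ℝ) else 0) *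
        (if k ∣ s d2 then Λ d2 / (s d2 : ℝ) else 0)) := fun d1 _ => Finset.sum_comm
  rw [Finset.sum_congr rfl h3, Finset.sum_comm]
  apply Finset.sum_congr rfl
  intro k _
  rw [Finset.sum_filter, sq, Finset.sum_mul_sum, Finset.mul_sum]
  apply Finset.sum_congr rfl
  intro d1 _
  rw [Finset.mul_sum]

/-- `G = sum phi(k)/k^2` -/
noncomputable def GG (Y : ℕ) : ℝ := ∑ k ∈ DD Y, (Nat.totient k : ℝ) / (k : ℝ) ^ 2

lemma mu_sq (Y k : ℕ) (hk : k ∈ DD Y) : (((ArithmeticFunction.moebius k : ℤ) : ℝ)) ^ 2 = 1 := by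
  have hsq := ((mem_DD Y k).mp hk).2.1
  have h1 := ArithmeticFunction.moebius_sq_eq_one_of_squarefree hsq
  exact_mod_cast h1

/-- main term without a prime -/
lemma Q0_eq (Y : ℕ) (hY : 1 ≤ Y) :
    ∑ d1 ∈ DD Y, ∑ d2 ∈ DD Y, lam Y d1 * lam Y d2 / ((Nat.lcm d1 d2 : ℕ) : ℝ) =
      GG Y / HH Y ^ 2 := by
  have hH : 0 < HH Y := lt_of_lt_of_le one_pos (HH_ge_one Y hY)
  have h := diag_form Y (DD Y) (fun d => d) (by
    intro d hd
    rw [Finset.mem_Icc]
    exact ((mem_DD Y d).mp hd).1) (lam Y)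
  rw [h]
  have h1 : ∀ k ∈ Icc 1 Y, (Nat.totient k : ℝ) *
      (∑ d ∈ (DD Y).filter (fun d => k ∣ d), lam Y d / (d : ℝ)) ^ 2 =
      if k ∈ DD Y then (Nat.totient k : ℝ) / (k : ℝ) ^ 2 / HH Y ^ 2 else 0 := by
    intro k hk
    have hk1 := (Finset.mem_Icc.mp hk).1
    have h2 := yy_eq Y k hk1
    unfold yy at h2
    rw [h2]
    have hk0 : (k : ℝ) ≠ 0 := by positivity
    split_ifs with h3
    · rw [div_pow, mu_sq Y k h3, mul_pow]
      field_simp
    · ring
  rw [Finset.sum_congr rfl h1, ← Finset.sum_filter]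
  have h4 : (Icc 1 Y).filter (fun k => k ∈ DD Y) = DD Y := by
    ext k
    rw [Finset.mem_filter]
    constructor
    · exact fun h => h.2
    · intro h
      exact ⟨Finset.mem_Icc.mpr ((mem_DD Y k).mp h).1, h⟩
  rw [h4]
  unfold GG
  rw [Finset.sum_div]

/-- main term with a prime -/
lemma Qp_le (Y p : ℕ) (hY : 1 ≤ Y) (hp : p.Prime) (hp10 : p.Coprime 10) :
    ∑ d1 ∈ DD Y, ∑ d2 ∈ DD Y, lam Y d1 * lam Y d2 / ((Nat.lcm (Nat.lcm d1 d2) p : ℕ) : ℝ) ≤
      (GG Y / (p : ℝ) ^ 3 +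
        (1 / p) * ∑ k ∈ (DD Y).filter (fun k => Y < k * p), 1 / (k : ℝ)) / HH Y ^ 2 := by
  have hH : 0 < HH Y := lt_of_lt_of_le one_pos (HH_ge_one Y hY)
  have hp0 : (0 : ℝ) < p := by exact_mod_cast hp.pos
  set s : ℕ → ℕ := fun d => d / Nat.gcd d p with hs
  have hslcm : ∀ d, Nat.lcm d p = p * s d := by
    intro d
    simp only [hs]
    unfold Nat.lcm
    rw [mul_comm d p, Nat.mul_div_assoc _ (Nat.gcd_dvd_left d p)]
  have h1 : ∀ d1 d2, Nat.lcm (Nat.lcm d1 d2) p = p * Nat.lcm (s d1) (s d2) := by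
    intro d1 d2
    have e1 : Nat.lcm (Nat.lcm d1 d2) p = Nat.lcm (Nat.lcm d1 p) (Nat.lcm d2 p) := by
      apply Nat.dvd_antisymm
      · apply Nat.lcm_dvd
        · apply Nat.lcm_dvd
          · exact (Nat.dvd_lcm_left d1 p).trans (Nat.dvd_lcm_left _ _)
          · exact (Nat.dvd_lcm_left d2 p).trans (Nat.dvd_lcm_right _ _)
        · exact (Nat.dvd_lcm_right d1 p).trans (Nat.dvd_lcm_left _ _)
      · apply Nat.lcm_dvd
        · apply Nat.lcm_dvd
          · exact (Nat.dvd_lcm_left d1 d2).trans (Nat.dvd_lcm_left _ _)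
          · exact Nat.dvd_lcm_right _ _
        · apply Nat.lcm_dvd
          · exact (Nat.dvd_lcm_right d1 d2).trans (Nat.dvd_lcm_left _ _)
          · exact Nat.dvd_lcm_right _ _
    rw [e1, hslcm d1, hslcm d2, Nat.lcm_mul_left]
  have h2 : ∑ d1 ∈ DD Y, ∑ d2 ∈ DD Y, lam Y d1 * lam Y d2 /
      ((Nat.lcm (Nat.lcm d1 d2) p : ℕ) : ℝ) =
      (1 / p) * ∑ d1 ∈ DD Y, ∑ d2 ∈ DD Y, lam Y d1 * lam Y d2 /
        ((Nat.lcm (s d1) (s d2) : ℕ) : ℝ) := by
    rw [Finset.mul_sum]
    apply Finset.sum_congr rfl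
    intro d1 _
    rw [Finset.mul_sum]
    apply Finset.sum_congr rfl
    intro d2 _
    rw [h1 d1 d2]
    push_cast
    rw [div_mul_div_comm, one_mul]
  have hsmem : ∀ d ∈ DD Y, s d ∈ Icc 1 Y := by
    intro d hd
    have hd' := ((mem_DD Y d).mp hd).1
    have : s d ∣ d := Nat.div_dvd_of_dvd (Nat.gcd_dvd_left d p)
    have h3 := Nat.le_of_dvd (by omega) this
    have h4 := Nat.pos_of_dvd_of_pos this (by omega)
    rw [Finset.mem_Icc]
    omega
  rw [h2, diag_form Y (DD Y) s hsmem (lam Y)]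
  -- inner sums
  have hgcd : ∀ d, Nat.gcd d p = if p ∣ d then p else 1 := by
    intro d
    split_ifs with h
    · exact Nat.gcd_eq_right h
    · exact Nat.Coprime.symm ((Nat.Prime.coprime_iff_not_dvd hp).mpr h)
  have hinner : ∀ k ∈ Icc 1 Y, (Nat.totient k : ℝ) *
      (∑ d ∈ (DD Y).filter (fun d => k ∣ s d), lam Y d / (s d : ℝ)) ^ 2 ≤
      (if k ∈ DD Y then (Nat.totient k : ℝ) / (k : ℝ) ^ 2 / (p : ℝ) ^ 2 / HH Y ^ 2 else 0) +
      (if k ∈ (DD Y).filter (fun k => Y < k * p) then 1 / (k : ℝ) / HH Y ^ 2 else 0) := by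
    intro k hk
    have hk1 := (Finset.mem_Icc.mp hk).1
    have hk0 : (0 : ℝ) < k := by exact_mod_cast hk1
    have hnn : 0 ≤ (if k ∈ DD Y then (Nat.totient k : ℝ) / (k : ℝ) ^ 2 / (p : ℝ) ^ 2 / HH Y ^ 2 else 0) +
      (if k ∈ (DD Y).filter (fun k => Y < k * p) then 1 / (k : ℝ) / HH Y ^ 2 else 0) := by
      positivity
    by_cases hpk : p ∣ k
    · -- empty sum
      have e1 : (DD Y).filter (fun d => k ∣ s d) = ∅ := by
        apply Finset.filter_false_of_mem
        intro d hd h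
        have hsq := ((mem_DD Y d).mp hd).2.1
        have hpd : p ∣ s d := hpk.trans h
        have hpd' : p ∣ d := hpd.trans (Nat.div_dvd_of_dvd (Nat.gcd_dvd_left d p))
        simp only [hs] at hpd
        rw [hgcd d, if_pos hpd'] at hpd
        have : p * p ∣ d := by
          obtain ⟨e, he⟩ := hpd
          refine ⟨e, ?_⟩
          rw [← Nat.div_mul_cancel hpd', he]
          ring
        exact hp.one_lt.ne' (Nat.isUnit_iff.mp (hsq p this))
      rw [e1]
      simpa using hnn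
    · have hcop : Nat.Coprime k p := ((Nat.Prime.coprime_iff_not_dvd hp).mpr hpk).symm
      have e1 : (DD Y).filter (fun d => k ∣ s d) = (DD Y).filter (fun d => k ∣ d) := by
        apply Finset.filter_congr
        intro d _
        constructor
        · intro h
          exact h.trans (Nat.div_dvd_of_dvd (Nat.gcd_dvd_left d p))
        · intro h
          have h5 : s d * Nat.gcd d p = d := Nat.div_mul_cancel (Nat.gcd_dvd_left d p)
          rw [← h5] at h
          exact Nat.Coprime.dvd_of_dvd_mul_right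
            (Nat.Coprime.coprime_dvd_right (Nat.gcd_dvd_right d p) hcop) h
      have e2 : ∑ d ∈ (DD Y).filter (fun d => k ∣ s d), lam Y d / (s d : ℝ) =
          yy Y k + (p - 1) * yy Y (k * p) := by
        rw [e1]
        unfold yy
        have e3 : (DD Y).filter (fun d => k * p ∣ d) =
            ((DD Y).filter (fun d => k ∣ d)).filter (fun d => p ∣ d) := by
          rw [Finset.filter_filter]
          apply Finset.filter_congr
          intro d _
          constructor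
          · intro h
            exact ⟨(Dvd.intro _ rfl).trans h, (Dvd.intro_left _ rfl).trans h⟩
          · rintro ⟨h6, h7⟩
            exact Nat.Coprime.mul_dvd_of_dvd_of_dvd hcop h6 h7
        rw [e3, Finset.sum_filter (fun d => p ∣ d), Finset.mul_sum, ← Finset.sum_add_distrib]
        apply Finset.sum_congr rfl
        intro d hd
        rw [Finset.mem_filter] at hd
        have hd0 : (d : ℝ) ≠ 0 := by
          have := ((mem_DD Y d).mp hd.1).1.1
          positivity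
        simp only [hs]
        rw [hgcd d]
        split_ifs with h8
        · rw [Nat.cast_div h8 hp0.ne']
          field_simp
          ring
        · simp
      rw [e2]
      have hy1 := yy_eq Y k hk1
      have hy2 := yy_eq Y (k * p) (Nat.mul_pos hk1 hp.pos)
      by_cases hkD : k ∈ DD Y
      · rw [if_pos hkD] at hy1
        by_cases hkp : k * p ∈ DD Y
        · rw [if_pos hkp] at hy2
          have hmu : ArithmeticFunction.moebius (k * p) = - ArithmeticFunction.moebius k := by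
            rw [ArithmeticFunction.isMultiplicative_moebius.map_mul_of_coprime hcop,
              ArithmeticFunction.moebius_apply_prime hp]
            ring
          have e4 : yy Y k + (p - 1) * yy Y (k * p) =
              ((ArithmeticFunction.moebius k : ℤ) : ℝ) / (k * p * HH Y) := by
            rw [hy1, hy2, hmu]
            push_cast
            field_simp
            ring
          rw [e4, div_pow, mu_sq Y k hkD, if_pos hkD]
          have e5 : (Nat.totient k : ℝ) * (1 / ((k : ℝ) * p * HH Y) ^ 2) =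
              (Nat.totient k : ℝ) / (k : ℝ) ^ 2 / (p : ℝ) ^ 2 / HH Y ^ 2 := by
            field_simp
          rw [e5]
          have : 0 ≤ (if k ∈ (DD Y).filter (fun k => Y < k * p) then 1 / (k : ℝ) / HH Y ^ 2 else 0) := by
            positivity
          linarith
        · rw [if_neg hkp] at hy2
          have hlt : Y < k * p := by
            by_contra hcon
            push Not at hcon
            apply hkp
            rw [mem_DD] at hkD ⊢
            refine ⟨⟨Nat.mul_pos hk1 hp.pos, hcon⟩, ?_, ?_⟩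
            · rw [Nat.squarefree_mul hcop]
              exact ⟨hkD.2.1, hp.squarefree⟩
            · exact Nat.Coprime.mul_left hkD.2.2 hp10
          rw [hy1, hy2, mul_zero, add_zero, div_pow, mu_sq Y k hkD, if_pos hkD,
            if_pos (Finset.mem_filter.mpr ⟨hkD, hlt⟩)]
          have e5 : (Nat.totient k : ℝ) * (1 / ((k : ℝ) * HH Y) ^ 2) ≤ 1 / (k : ℝ) / HH Y ^ 2 := by
            have hφ : (Nat.totient k : ℝ) ≤ k := by exact_mod_cast Nat.totient_le k
            have e6 : (Nat.totient k : ℝ) * (1 / ((k : ℝ) * HH Y) ^ 2) =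
              (Nat.totient k : ℝ) / ((k : ℝ) ^ 2 * HH Y ^ 2) := by rw [mul_pow]; ring
            have e7 : 1 / (k : ℝ) / HH Y ^ 2 = (k : ℝ) / ((k : ℝ) ^ 2 * HH Y ^ 2) := by
              field_simp
            rw [e6, e7]
            exact div_le_div_of_nonneg_right hφ (by positivity)
          have : 0 ≤ (Nat.totient k : ℝ) / (k : ℝ) ^ 2 / (p : ℝ) ^ 2 / HH Y ^ 2 := by positivity
          linarith
      · have hkp : k * p ∉ DD Y := fun h => hkD (dvd_mem_DD Y _ k h (Dvd.intro _ rfl))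
        rw [if_neg hkD] at hy1
        rw [if_neg hkp] at hy2
        rw [hy1, hy2]
        simpa using hnn
  have hfil : ∀ S : Finset ℕ, S ⊆ Icc 1 Y → (Icc 1 Y).filter (fun k => k ∈ S) = S := by
    intro S hS
    ext k
    rw [Finset.mem_filter]
    exact ⟨fun h => h.2, fun h => ⟨hS h, h⟩⟩
  have hDsub : DD Y ⊆ Icc 1 Y := Finset.filter_subset _ _
  calc (1 / (p : ℝ)) * ∑ k ∈ Icc 1 Y, (Nat.totient k : ℝ) *
        (∑ d ∈ (DD Y).filter (fun d => k ∣ s d), lam Y d / (s d : ℝ)) ^ 2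
      ≤ (1 / (p : ℝ)) * ∑ k ∈ Icc 1 Y,
        ((if k ∈ DD Y then (Nat.totient k : ℝ) / (k : ℝ) ^ 2 / (p : ℝ) ^ 2 / HH Y ^ 2 else 0) +
        (if k ∈ (DD Y).filter (fun k => Y < k * p) then 1 / (k : ℝ) / HH Y ^ 2 else 0)) := by
        apply mul_le_mul_of_nonneg_left _ (by positivity)
        exact Finset.sum_le_sum hinner
    _ = (GG Y / (p : ℝ) ^ 3 +
        (1 / p) * ∑ k ∈ (DD Y).filter (fun k => Y < k * p), 1 / (k : ℝ)) / HH Y ^ 2 := by
        rw [Finset.sum_add_distrib, ← Finset.sum_filter, ← Finset.sum_filter, hfil _ hDsub,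
          hfil _ ((Finset.filter_subset _ _).trans hDsub)]
        unfold GG
        rw [← Finset.sum_div, ← Finset.sum_div, ← Finset.sum_div]
        field_simp

end Pool.Agent.Helper10
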