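import Pool.Agent.Helper10.ModFour

/-! Selberg's upper bound sieve with a general divisor-closed set of square-free moduli. -/

namespace Pool.Agent.Helper10

open Finset

/-- a divisor-closed set of square-free positive integers containing one -/
structure GoodSet (D : Finset ℕ) : Prop where
  one_mem : 1 ∈ D
  sqfree : ∀ d ∈ D, Squarefree d
  closed : ∀ d ∈ D, ∀ k, k ∣ d → k ∈ D

noncomputable def HG (D : Finset ℕ) : ℝ := ∑ d ∈ D, 1 / (d : ℝ)

noncomputable def lamG (D : Finset ℕ) (d : ℕ) : ℝ :=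
  ((ArithmeticFunction.moebius d : ℤ) : ℝ) * d / HG D * ∑ j ∈ D.filter (fun j => d ∣ j), 1 / (j : ℝ)

section

variable {D : Finset ℕ} (hD : GoodSet D)

include hD

lemma GoodSet.pos (d : ℕ) (hd : d ∈ D) : 0 < d := Nat.pos_of_ne_zero (hD.sqfree d hd).ne_zero

lemma HG_ge_one : 1 ≤ HG D := by
  unfold HG
  have := Finset.single_le_sum (f := fun d : ℕ => 1 / (d : ℝ)) (fun i _ => by positivity) hD.one_mem
  simpa using this

lemma abs_lamG_le (d : ℕ) (hd : d ∈ D) : |lamG D d| ≤ 1 := by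
  have hH : 0 < HG D := lt_of_lt_of_le one_pos (HG_ge_one hD)
  have hd1 : 1 ≤ d := hD.pos d hd
  have hdR : (0 : ℝ) < d := by exact_mod_cast hd1
  unfold lamG
  have h1 : (d : ℝ) * ∑ j ∈ D.filter (fun j => d ∣ j), 1 / (j : ℝ) ≤ HG D := by
    rw [Finset.mul_sum]
    have e1 : ∀ j ∈ D.filter (fun j => d ∣ j), (d : ℝ) * (1 / (j : ℝ)) =
        1 / ((j / d : ℕ) : ℝ) := by
      intro j hj
      rw [Finset.mem_filter] at hj
      rw [Nat.cast_div hj.2 hdR.ne']
      have : (j : ℝ) ≠ 0 := by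
        have := hD.pos j hj.1
        positivity
      field_simp
    rw [Finset.sum_congr rfl e1,
      ← Finset.sum_image (s := D.filter (fun j => d ∣ j)) (g := fun j => j / d)
        (f := fun e : ℕ => 1 / (e : ℝ))]
    · unfold HG
      apply Finset.sum_le_sum_of_subset_of_nonneg
      · intro e he
        rw [Finset.mem_image] at he
        obtain ⟨j, hj, rfl⟩ := he
        rw [Finset.mem_filter] at hj
        exact hD.closed j hj.1 _ (Nat.div_dvd_of_dvd hj.2)
      · intro _ _ _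
        positivity
    · intro x hx y hy hxy
      rw [Finset.mem_coe, Finset.mem_filter] at hx hy
      simp only at hxy
      rw [← Nat.div_mul_cancel hx.2, ← Nat.div_mul_cancel hy.2, hxy]
  have h2 : |((ArithmeticFunction.moebius d : ℤ) : ℝ)| ≤ 1 := by
    have := ArithmeticFunction.abs_moebius_le_one (n := d)
    exact_mod_cast this
  have hsum0 : 0 ≤ ∑ j ∈ D.filter (fun j => d ∣ j), 1 / (j : ℝ) := by positivity
  have e2 : ((ArithmeticFunction.moebius d : ℤ) : ℝ) * d / HG D *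
      ∑ j ∈ D.filter (fun j => d ∣ j), 1 / (j : ℝ) =
      ((ArithmeticFunction.moebius d : ℤ) : ℝ) *
        ((d * ∑ j ∈ D.filter (fun j => d ∣ j), 1 / (j : ℝ)) / HG D) := by ring
  rw [e2, abs_mul]
  have h3 : |(d * ∑ j ∈ D.filter (fun j => d ∣ j), 1 / (j : ℝ)) / HG D| ≤ 1 := by
    rw [abs_of_nonneg (by positivity), div_le_one hH]
    exact h1
  exact mul_le_one₀ h2 (abs_nonneg _) h3

lemma lamG_one : lamG D 1 = 1 := by
  have hH : 0 < HG D := lt_of_lt_of_le one_pos (HG_ge_one hD)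
  unfold lamG
  have : D.filter (fun j => 1 ∣ j) = D := by
    apply Finset.filter_true_of_mem
    intro j _
    exact one_dvd j
  rw [this]
  simp only [ArithmeticFunction.moebius_apply_one, Int.cast_one, Nat.cast_one, one_mul]
  change 1 / HG D * HG D = 1
  field_simp

lemma yG_eq (k : ℕ) (hk : 0 < k) : ∑ d ∈ D.filter (fun d => k ∣ d), lamG D d / d =
    if k ∈ D then ((ArithmeticFunction.moebius k : ℤ) : ℝ) / (k * HG D) else 0 := by
  have h1 : ∀ d ∈ D.filter (fun d => k ∣ d), lamG D d / d =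
      ∑ j ∈ D, if d ∣ j then (1 / HG D) * (1 / (j : ℝ)) *
        ((ArithmeticFunction.moebius d : ℤ) : ℝ) else 0 := by
    intro d hd
    rw [Finset.mem_filter] at hd
    have hd1 : (d : ℝ) ≠ 0 := by
      have := hD.pos d hd.1
      positivity
    rw [← Finset.sum_filter]
    unfold lamG
    rw [← Finset.sum_mul, ← Finset.mul_sum]
    field_simp
  rw [Finset.sum_congr rfl h1, Finset.sum_comm]
  have h2 : ∀ j ∈ D, (∑ d ∈ D.filter (fun d => k ∣ d), if d ∣ j then
      (1 / HG D) * (1 / (j : ℝ)) * ((ArithmeticFunction.moebius d : ℤ) : ℝ) else 0) =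
      if j = k then (1 / HG D) * (1 / (j : ℝ)) * ((ArithmeticFunction.moebius k : ℤ) : ℝ) else 0 := by
    intro j hj
    rw [← Finset.sum_filter, Finset.filter_filter]
    have e1 : D.filter (fun d => k ∣ d ∧ d ∣ j) = j.divisors.filter (fun d => k ∣ d) := by
      ext d
      rw [Finset.mem_filter, Finset.mem_filter, Nat.mem_divisors]
      constructor
      · rintro ⟨h1, h2, h3⟩
        exact ⟨⟨h3, (hD.pos j hj).ne'⟩, h2⟩
      · rintro ⟨⟨h1, _⟩, h2⟩
        exact ⟨hD.closed j hj d h1, h2, h1⟩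
    rw [e1, ← Finset.mul_sum, ← Int.cast_sum, sum_mu j k (hD.sqfree j hj) hk]
    split_ifs <;> simp
  rw [Finset.sum_congr rfl h2, Finset.sum_ite_eq']
  split_ifs with h
  · have hk1 : (k : ℝ) ≠ 0 := by positivity
    field_simp
  · rfl

/-- the quadratic form is at most `1 / H` -/
lemma QG_le : ∑ d1 ∈ D, ∑ d2 ∈ D, lamG D d1 * lamG D d2 / ((Nat.lcm d1 d2 : ℕ) : ℝ) ≤
    1 / HG D := by
  have hH : 0 < HG D := lt_of_lt_of_le one_pos (HG_ge_one hD)
  set Y := D.sup id with hY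
  have hDY : ∀ d ∈ D, d ∈ Icc 1 Y := by
    intro d hd
    rw [Finset.mem_Icc]
    exact ⟨hD.pos d hd, Finset.le_sup (f := id) hd⟩
  have h := diag_form Y D (fun d => d) hDY (lamG D)
  rw [h]
  have h1 : ∀ k ∈ Icc 1 Y, (Nat.totient k : ℝ) *
      (∑ d ∈ D.filter (fun d => k ∣ d), lamG D d / (d : ℝ)) ^ 2 ≤
      if k ∈ D then 1 / (k : ℝ) / HG D ^ 2 else 0 := by
    intro k hk
    have hk1 := (Finset.mem_Icc.mp hk).1
    rw [yG_eq hD k hk1]
    have hk0 : (0 : ℝ) < k := by exact_mod_cast hk1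
    split_ifs with h3
    · have hsq := hD.sqfree k h3
      have hmu : (((ArithmeticFunction.moebius k : ℤ) : ℝ)) ^ 2 = 1 := by
        have h1 := ArithmeticFunction.moebius_sq_eq_one_of_squarefree hsq
        exact_mod_cast h1
      rw [div_pow, hmu, mul_pow]
      have hφ : (Nat.totient k : ℝ) ≤ k := by exact_mod_cast Nat.totient_le k
      have e6 : (Nat.totient k : ℝ) * (1 / ((k : ℝ) ^ 2 * HG D ^ 2)) =
        (Nat.totient k : ℝ) / ((k : ℝ) ^ 2 * HG D ^ 2) := by ring
      have e7 : 1 / (k : ℝ) / HG D ^ 2 = (k : ℝ) / ((k : ℝ) ^ 2 * HG D ^ 2) := by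
        field_simp
      rw [e6, e7]
      exact div_le_div_of_nonneg_right hφ (by positivity)
    · simp
  refine (Finset.sum_le_sum h1).trans ?_
  rw [← Finset.sum_filter]
  have h4 : (Icc 1 Y).filter (fun k => k ∈ D) = D := by
    ext k
    rw [Finset.mem_filter]
    exact ⟨fun h => h.2, fun h => ⟨hDY k h, h⟩⟩
  rw [h4, ← Finset.sum_div]
  change HG D / HG D ^ 2 ≤ 1 / HG D
  apply le_of_eq
  field_simp

/-- **General Selberg upper bound.** -/
theorem upper_sieveG {ι : Type*} (E : Finset ι) (N : ι → ℕ) (X : ℝ) (hX : 0 ≤ X) (r : ℕ → ℝ)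
    (hr : ∀ d1 ∈ D, ∀ d2 ∈ D, |((E.filter (fun e => Nat.lcm d1 d2 ∣ N e)).card : ℝ) -
      X / ((Nat.lcm d1 d2 : ℕ) : ℝ)| ≤ r (Nat.lcm d1 d2))
    (E' : Finset ι) (hE' : E' ⊆ E) (h : ∀ e ∈ E', ∀ d ∈ D, d ∣ N e → d = 1) :
    (E'.card : ℝ) ≤ X / HG D + ∑ d1 ∈ D, ∑ d2 ∈ D, r (Nat.lcm d1 d2) := by
  classical
  set w : ι → ℝ := fun e => (∑ d ∈ D.filter (fun d => d ∣ N e), lamG D d) ^ 2 with hw
  have hw0 : ∀ e, 0 ≤ w e := fun e => sq_nonneg _
  have h1 : (E'.card : ℝ) ≤ ∑ e ∈ E, w e := by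
    have e1 : (E'.card : ℝ) = ∑ e ∈ E', w e := by
      have : ∀ e ∈ E', w e = 1 := by
        intro e he
        have e2 : D.filter (fun d => d ∣ N e) = {1} := by
          ext d
          rw [Finset.mem_filter, Finset.mem_singleton]
          constructor
          · rintro ⟨h1, h2⟩
            exact h e he d h1 h2
          · rintro rfl
            exact ⟨hD.one_mem, one_dvd _⟩
        simp only [hw]
        rw [e2, Finset.sum_singleton, lamG_one hD]
        norm_num
      rw [Finset.sum_congr rfl this]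
      simp
    rw [e1]
    exact Finset.sum_le_sum_of_subset_of_nonneg hE' (fun e _ _ => hw0 e)
  have h2 : ∑ e ∈ E, w e = ∑ d1 ∈ D, ∑ d2 ∈ D, lamG D d1 * lamG D d2 *
      ((E.filter (fun e => Nat.lcm d1 d2 ∣ N e)).card : ℝ) := by
    have e1 : ∀ e ∈ E, w e =
        ∑ d1 ∈ D, ∑ d2 ∈ D, if (d1 ∣ N e ∧ d2 ∣ N e) then lamG D d1 * lamG D d2 else 0 := by
      intro e _
      simp only [hw]
      rw [sq, Finset.sum_mul_sum, Finset.sum_filter]
      apply Finset.sum_congr rfl
      intro d1 _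
      rw [Finset.sum_filter]
      split_ifs with h
      · apply Finset.sum_congr rfl
        intro d2 _
        simp [h]
      · symm
        apply Finset.sum_eq_zero
        intro d2 _
        simp [h]
    rw [Finset.sum_congr rfl e1, Finset.sum_comm]
    apply Finset.sum_congr rfl
    intro d1 _
    rw [Finset.sum_comm]
    apply Finset.sum_congr rfl
    intro d2 _
    rw [← Finset.sum_filter, Finset.sum_const, nsmul_eq_mul, mul_comm]
    congr 3
    apply Finset.filter_congr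
    intro e _
    rw [Nat.lcm_dvd_iff]
  have h3 : ∑ e ∈ E, w e ≤ X * ∑ d1 ∈ D, ∑ d2 ∈ D, lamG D d1 * lamG D d2 /
      ((Nat.lcm d1 d2 : ℕ) : ℝ) + ∑ d1 ∈ D, ∑ d2 ∈ D, r (Nat.lcm d1 d2) := by
    rw [h2, Finset.mul_sum, ← Finset.sum_add_distrib]
    apply Finset.sum_le_sum
    intro d1 hd1
    rw [Finset.mul_sum, ← Finset.sum_add_distrib]
    apply Finset.sum_le_sum
    intro d2 hd2
    have h4 := abs_lamG_le hD d1 hd1
    have h5 := abs_lamG_le hD d2 hd2
    have h6 : |lamG D d1 * lamG D d2| ≤ 1 := by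
      rw [abs_mul]
      exact mul_le_one₀ h4 (abs_nonneg _) h5
    have h7 := hr d1 hd1 d2 hd2
    set c : ℝ := ((E.filter (fun e => Nat.lcm d1 d2 ∣ N e)).card : ℝ) with hc
    set q : ℝ := ((Nat.lcm d1 d2 : ℕ) : ℝ) with hq
    have e1 : lamG D d1 * lamG D d2 * c - X * (lamG D d1 * lamG D d2 / q) =
        (lamG D d1 * lamG D d2) * (c - X / q) := by ring
    have h8 : (lamG D d1 * lamG D d2) * (c - X / q) ≤ r (Nat.lcm d1 d2) := by
      calc (lamG D d1 * lamG D d2) * (c - X / q) ≤ |(lamG D d1 * lamG D d2) * (c - X / q)| :=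
            le_abs_self _
        _ = |lamG D d1 * lamG D d2| * |c - X / q| := abs_mul _ _
        _ ≤ 1 * |c - X / q| := mul_le_mul_of_nonneg_right h6 (abs_nonneg _)
        _ ≤ r (Nat.lcm d1 d2) := by rw [one_mul]; exact h7
    linarith
  have h9 := mul_le_mul_of_nonneg_left (QG_le hD) hX
  have h10 : X * (1 / HG D) = X / HG D := by ring
  linarith

end

lemma goodSet_A3 (Y : ℕ) (hY : 1 ≤ Y) : GoodSet (A3 Y) := by
  refine ⟨?_, ?_, ?_⟩
  · unfold A3
    rw [Finset.mem_filter, Finset.mem_Icc]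
    exact ⟨⟨le_refl _, hY⟩, squarefree_one, by simp⟩
  · intro d hd
    unfold A3 at hd
    rw [Finset.mem_filter] at hd
    exact hd.2.1
  · intro d hd k hk
    unfold A3 at hd ⊢
    rw [Finset.mem_filter, Finset.mem_Icc] at hd ⊢
    obtain ⟨⟨h1, h2⟩, h3, h4⟩ := hd
    have hkpos := Nat.pos_of_dvd_of_pos hk (by omega)
    refine ⟨⟨hkpos, (Nat.le_of_dvd (by omega) hk).trans h2⟩, h3.squarefree_of_dvd hk, ?_⟩
    intro p hp
    exact h4 p (Nat.primeFactors_mono hk (by omega) hp)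

end Pool.Agent.Helper10
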