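import Pool.Agent.Helper10.ArithSums

/-! The sieve inequalities for a finite family of integers. -/

namespace Pool.Agent.Helper10

open Finset

variable {ι : Type*}

/-- Selberg weight of a member of the family -/
noncomputable def wt (Y n : ℕ) : ℝ := (∑ d ∈ (DD Y).filter (fun d => d ∣ n), lam Y d) ^ 2

lemma wt_nonneg (Y n : ℕ) : 0 ≤ wt Y n := sq_nonneg _

lemma wt_eq_one (Y n : ℕ) (hY : 1 ≤ Y) (h : ∀ d ∈ DD Y, d ∣ n → d = 1) : wt Y n = 1 := by
  unfold wt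
  have : (DD Y).filter (fun d => d ∣ n) = {1} := by
    ext d
    rw [Finset.mem_filter, Finset.mem_singleton]
    constructor
    · rintro ⟨h1, h2⟩
      exact h d h1 h2
    · rintro rfl
      exact ⟨one_mem_DD Y hY, one_dvd _⟩
  rw [this, Finset.sum_singleton, lam_one Y hY]
  norm_num

lemma sum_wt (E : Finset ι) (N : ι → ℕ) (Y m : ℕ) :
    ∑ e ∈ E.filter (fun e => m ∣ N e), wt Y (N e) =
      ∑ d1 ∈ DD Y, ∑ d2 ∈ DD Y, lam Y d1 * lam Y d2 *
        ((E.filter (fun e => Nat.lcm (Nat.lcm d1 d2) m ∣ N e)).card : ℝ) := by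
  classical
  have h1 : ∀ e ∈ E.filter (fun e => m ∣ N e), wt Y (N e) =
      ∑ d1 ∈ DD Y, ∑ d2 ∈ DD Y, if (d1 ∣ N e ∧ d2 ∣ N e) then lam Y d1 * lam Y d2 else 0 := by
    intro e _
    unfold wt
    rw [sq, Finset.sum_mul_sum, Finset.sum_filter]
    apply Finset.sum_congr rfl
    intro d1 _
    rw [Finset.sum_filter]
    split_ifs with h
    · apply Finset.sum_congr rfl
      intro d2 _
      simp [h]
    · symm
      apply Finset.sum_eq_zero
      intro d2 _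
      simp [h]
  rw [Finset.sum_congr rfl h1, Finset.sum_comm]
  apply Finset.sum_congr rfl
  intro d1 _
  rw [Finset.sum_comm]
  apply Finset.sum_congr rfl
  intro d2 _
  rw [← Finset.sum_filter, Finset.filter_filter, Finset.sum_const, nsmul_eq_mul, mul_comm]
  congr 3
  apply Finset.filter_congr
  intro e _
  rw [Nat.lcm_dvd_iff, Nat.lcm_dvd_iff]
  tauto

lemma lcm_coprime (a b c : ℕ) (ha : a.Coprime c) (hb : b.Coprime c) : (Nat.lcm a b).Coprime c := by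
  have h1 : Nat.lcm a b ∣ a * b := Nat.lcm_dvd (Dvd.intro _ rfl) (Dvd.intro_left _ rfl)
  exact Nat.Coprime.coprime_dvd_left h1 (Nat.Coprime.mul_left ha hb)

lemma sum_wt_approx (E : Finset ι) (N : ι → ℕ) (X : ℝ) (r : ℕ → ℝ)
    (hr : ∀ q : ℕ, 0 < q → q.Coprime 10 →
      |((E.filter (fun e => q ∣ N e)).card : ℝ) - X / q| ≤ r q)
    (Y m : ℕ) (hY : 1 ≤ Y) (hm : 0 < m) (hm10 : m.Coprime 10) :
    |∑ e ∈ E.filter (fun e => m ∣ N e), wt Y (N e) -
      X * ∑ d1 ∈ DD Y, ∑ d2 ∈ DD Y, lam Y d1 * lam Y d2 /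
        ((Nat.lcm (Nat.lcm d1 d2) m : ℕ) : ℝ)| ≤
      ∑ d1 ∈ DD Y, ∑ d2 ∈ DD Y, r (Nat.lcm (Nat.lcm d1 d2) m) := by
  rw [sum_wt, Finset.mul_sum, ← Finset.sum_sub_distrib]
  refine (Finset.abs_sum_le_sum_abs _ _).trans ?_
  apply Finset.sum_le_sum
  intro d1 hd1
  rw [Finset.mul_sum, ← Finset.sum_sub_distrib]
  refine (Finset.abs_sum_le_sum_abs _ _).trans ?_
  apply Finset.sum_le_sum
  intro d2 hd2
  have h1 := (mem_DD Y d1).mp hd1
  have h2 := (mem_DD Y d2).mp hd2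
  set q := Nat.lcm (Nat.lcm d1 d2) m with hq
  have hq0 : 0 < q := Nat.lcm_pos (Nat.lcm_pos (by omega) (by omega)) hm
  have hq10 : q.Coprime 10 := lcm_coprime _ _ _ (lcm_coprime _ _ _ h1.2.2 h2.2.2) hm10
  have e1 : lam Y d1 * lam Y d2 * ((E.filter (fun e => q ∣ N e)).card : ℝ) -
      X * (lam Y d1 * lam Y d2 / (q : ℝ)) =
      (lam Y d1 * lam Y d2) * (((E.filter (fun e => q ∣ N e)).card : ℝ) - X / q) := by ring
  rw [e1, abs_mul, abs_mul]
  have h3 := abs_lam_le Y d1 hY hd1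
  have h4 := abs_lam_le Y d2 hY hd2
  have h5 := hr q hq0 hq10
  have h6 : |lam Y d1| * |lam Y d2| ≤ 1 := mul_le_one₀ h3 (abs_nonneg _) h4
  calc |lam Y d1| * |lam Y d2| * |((E.filter (fun e => q ∣ N e)).card : ℝ) - X / q|
      ≤ 1 * |((E.filter (fun e => q ∣ N e)).card : ℝ) - X / q| :=
        mul_le_mul_of_nonneg_right h6 (abs_nonneg _)
    _ ≤ r q := by rw [one_mul]; exact h5

/-- total error -/
noncomputable def errTot (r : ℕ → ℝ) (Q : ℕ) : ℝ :=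
  ∑ q ∈ (Icc 1 Q).filter (fun q => q.Coprime 10), ((tau q : ℝ)) ^ 3 * r q

lemma err_regroup (r : ℕ → ℝ) (hr0 : ∀ q, 0 ≤ r q) (Y z : ℕ) (M : Finset ℕ)
    (hM : ∀ m ∈ M, 1 ≤ m ∧ m ≤ z ∧ m.Coprime 10) :
    ∑ m ∈ M, ∑ d1 ∈ DD Y, ∑ d2 ∈ DD Y, r (Nat.lcm (Nat.lcm d1 d2) m) ≤ errTot r (Y * Y * z) := by
  classical
  set A := M ×ˢ (DD Y ×ˢ DD Y) with hA
  set f : ℕ × (ℕ × ℕ) → ℕ := fun x => Nat.lcm (Nat.lcm x.2.1 x.2.2) x.1 with hf
  set Qs := (Icc 1 (Y * Y * z)).filter (fun q => q.Coprime 10) with hQs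
  have h1 : ∑ m ∈ M, ∑ d1 ∈ DD Y, ∑ d2 ∈ DD Y, r (Nat.lcm (Nat.lcm d1 d2) m) =
      ∑ x ∈ A, r (f x) := by
    rw [hA, Finset.sum_product]
    apply Finset.sum_congr rfl
    intro m _
    rw [Finset.sum_product]
  have hmaps : ∀ x ∈ A, f x ∈ Qs := by
    intro x hx
    rw [hA, Finset.mem_product, Finset.mem_product, mem_DD, mem_DD] at hx
    obtain ⟨h2, h3, h4⟩ := hx
    have hm := hM x.1 h2
    rw [hQs, Finset.mem_filter, Finset.mem_Icc]
    refine ⟨⟨Nat.lcm_pos (Nat.lcm_pos (by omega) (by omega)) (by omega), ?_⟩, ?_⟩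
    · have e1 : f x ≤ x.2.1 * x.2.2 * x.1 := by
        apply Nat.le_of_dvd
        · exact Nat.mul_pos (Nat.mul_pos (by omega) (by omega)) (by omega)
        · apply Nat.lcm_dvd
          · exact (Nat.lcm_dvd (Dvd.intro _ rfl) (Dvd.intro_left _ rfl)).trans (Dvd.intro _ rfl)
          · exact Dvd.intro_left _ rfl
      refine e1.trans ?_
      exact Nat.mul_le_mul (Nat.mul_le_mul h3.1.2 h4.1.2) hm.2.1
    · exact lcm_coprime _ _ _ (lcm_coprime _ _ _ h3.2.2 h4.2.2) hm.2.2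
  rw [h1, ← Finset.sum_fiberwise_of_maps_to hmaps]
  unfold errTot
  apply Finset.sum_le_sum
  intro q hq
  rw [Finset.mem_filter, Finset.mem_Icc] at hq
  have e1 : ∑ x ∈ A.filter (fun x => f x = q), r (f x) = ∑ x ∈ A.filter (fun x => f x = q), r q := by
    apply Finset.sum_congr rfl
    intro x hx
    rw [Finset.mem_filter] at hx
    rw [hx.2]
  rw [e1, Finset.sum_const, nsmul_eq_mul]
  apply mul_le_mul_of_nonneg_right _ (hr0 q)
  have e2 : (A.filter (fun x => f x = q)).card ≤ (q.divisors ×ˢ (q.divisors ×ˢ q.divisors)).card := by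
    apply Finset.card_le_card
    intro x hx
    rw [Finset.mem_filter] at hx
    rw [Finset.mem_product, Finset.mem_product, Nat.mem_divisors, Nat.mem_divisors,
      Nat.mem_divisors]
    have hq0 : q ≠ 0 := by omega
    rw [← hx.2] at hq0 ⊢
    refine ⟨⟨Nat.dvd_lcm_right _ _, hq0⟩, ⟨?_, hq0⟩, ⟨?_, hq0⟩⟩
    · exact (Nat.dvd_lcm_left _ _).trans (Nat.dvd_lcm_left _ _)
    · exact (Nat.dvd_lcm_right _ _).trans (Nat.dvd_lcm_left _ _)
  rw [Finset.card_product, Finset.card_product] at e2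
  have e3 : (A.filter (fun x => f x = q)).card ≤ tau q ^ 3 := by
    unfold tau
    calc (A.filter (fun x => f x = q)).card ≤ q.divisors.card * (q.divisors.card * q.divisors.card) := e2
      _ = q.divisors.card ^ 3 := by ring
  exact_mod_cast e3

/-- **Lower bound sieve.** -/
theorem lower_sieve (E : Finset ι) (N : ι → ℕ) (X : ℝ) (hX : 0 ≤ X) (r : ℕ → ℝ)
    (hr0 : ∀ q, 0 ≤ r q)
    (hr : ∀ q : ℕ, 0 < q → q.Coprime 10 →
      |((E.filter (fun e => q ∣ N e)).card : ℝ) - X / q| ≤ r q)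
    (Y z : ℕ) (hY : 1 ≤ Y) (hz : 1 ≤ z)
    (hmain : errTot r (Y * Y * z) <
      X * ((5 / 12 * HH Y - 2 * (Real.log z + Real.log 4)) / HH Y ^ 2)) :
    ∃ e ∈ E, ∀ p : ℕ, p.Prime → p.Coprime 10 → p < z → ¬ p ∣ N e := by
  classical
  by_contra hcon
  push Not at hcon
  have hcon' : ∀ e ∈ E, ∃ p ∈ PP z, p ∣ N e := by
    intro e he
    obtain ⟨p, h1, h2, h3, h4⟩ := hcon e he
    exact ⟨p, (mem_PP z p).mpr ⟨h3, h1, h2⟩, h4⟩
  set S : ℕ → ℝ := fun m => ∑ e ∈ E.filter (fun e => m ∣ N e), wt Y (N e) with hS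
  set Qf : ℕ → ℝ := fun m => ∑ d1 ∈ DD Y, ∑ d2 ∈ DD Y, lam Y d1 * lam Y d2 /
        ((Nat.lcm (Nat.lcm d1 d2) m : ℕ) : ℝ) with hQf
  set Rf : ℕ → ℝ := fun m => ∑ d1 ∈ DD Y, ∑ d2 ∈ DD Y, r (Nat.lcm (Nat.lcm d1 d2) m) with hRf
  have h1 : S 1 ≤ ∑ p ∈ PP z, S p := by
    have e1 : ∑ p ∈ PP z, S p = ∑ e ∈ E, ∑ p ∈ (PP z).filter (fun p => p ∣ N e), wt Y (N e) := by
      simp only [hS]
      simp only [Finset.sum_filter]
      rw [Finset.sum_comm]
    have e2 : S 1 = ∑ e ∈ E, wt Y (N e) := by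
      simp only [hS]
      congr 1
      apply Finset.filter_true_of_mem
      intro _ _
      exact one_dvd _
    rw [e1, e2]
    apply Finset.sum_le_sum
    intro e he
    obtain ⟨p, hp1, hp2⟩ := hcon' e he
    have : wt Y (N e) ≤ ∑ p ∈ (PP z).filter (fun p => p ∣ N e), wt Y (N e) :=
      Finset.single_le_sum (f := fun _ => wt Y (N e)) (fun _ _ => wt_nonneg _ _)
        (Finset.mem_filter.mpr ⟨hp1, hp2⟩)
    exact this
  have h2 : X * Qf 1 - Rf 1 ≤ S 1 := by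
    have := sum_wt_approx E N X r hr Y 1 hY (by norm_num) (Nat.coprime_one_left 10)
    have := (abs_le.mp this).1
    simp only [hS, hQf, hRf]
    linarith
  have h3 : ∀ p ∈ PP z, S p ≤ X * Qf p + Rf p := by
    intro p hp
    rw [mem_PP] at hp
    have := sum_wt_approx E N X r hr Y p hY hp.2.1.pos hp.2.2
    have := (abs_le.mp this).2
    simp only [hS, hQf, hRf]
    linarith
  have h4 : ∑ p ∈ PP z, S p ≤ X * ∑ p ∈ PP z, Qf p + ∑ p ∈ PP z, Rf p := by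
    rw [Finset.mul_sum, ← Finset.sum_add_distrib]
    exact Finset.sum_le_sum h3
  have h5 : Rf 1 + ∑ p ∈ PP z, Rf p ≤ errTot r (Y * Y * z) := by
    have hnot : 1 ∉ PP z := by
      rw [mem_PP]
      rintro ⟨_, h, _⟩
      exact Nat.not_prime_one h
    rw [← Finset.sum_insert hnot]
    apply err_regroup r hr0 Y z
    intro m hm
    rw [Finset.mem_insert] at hm
    rcases hm with rfl | hm
    · exact ⟨le_refl _, hz, Nat.coprime_one_left 10⟩
    · rw [mem_PP] at hm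
      exact ⟨hm.2.1.pos, hm.1.le, hm.2.2⟩
  have h6 := main_term Y z hY hz
  have e0 : ∑ d1 ∈ DD Y, ∑ d2 ∈ DD Y, lam Y d1 * lam Y d2 / ((Nat.lcm d1 d2 : ℕ) : ℝ) = Qf 1 := by
    simp only [hQf]
    apply Finset.sum_congr rfl
    intro d1 _
    apply Finset.sum_congr rfl
    intro d2 _
    rw [Nat.lcm_one_right]
  rw [e0] at h6
  have h7 := mul_le_mul_of_nonneg_left h6 hX
  have h8 : X * (Qf 1 - ∑ p ∈ PP z, Qf p) = X * Qf 1 - X * ∑ p ∈ PP z, Qf p := by ring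
  simp only [hQf] at h7 h8 h2 h4
  linarith

/-- **Upper bound sieve.** -/
theorem upper_sieve (E : Finset ι) (N : ι → ℕ) (X : ℝ) (hX : 0 ≤ X) (r : ℕ → ℝ)
    (hr0 : ∀ q, 0 ≤ r q)
    (hr : ∀ q : ℕ, 0 < q → q.Coprime 10 →
      |((E.filter (fun e => q ∣ N e)).card : ℝ) - X / q| ≤ r q)
    (Y : ℕ) (hY : 1 ≤ Y) (E' : Finset ι) (hE' : E' ⊆ E)
    (h : ∀ e ∈ E', ∀ d ∈ DD Y, d ∣ N e → d = 1) :
    (E'.card : ℝ) ≤ X / HH Y + errTot r (Y * Y * 1) := by
  classical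
  have hH : 0 < HH Y := lt_of_lt_of_le one_pos (HH_ge_one Y hY)
  have h1 : (E'.card : ℝ) ≤ ∑ e ∈ E.filter (fun e => 1 ∣ N e), wt Y (N e) := by
    have e1 : (E'.card : ℝ) = ∑ e ∈ E', wt Y (N e) := by
      rw [Finset.sum_congr rfl (fun e he => wt_eq_one Y (N e) hY (h e he))]
      simp
    rw [e1]
    apply Finset.sum_le_sum_of_subset_of_nonneg
    · intro e he
      exact Finset.mem_filter.mpr ⟨hE' he, one_dvd _⟩
    · intro _ _ _
      exact wt_nonneg _ _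
  have h2 := sum_wt_approx E N X r hr Y 1 hY (by norm_num) (Nat.coprime_one_left 10)
  have h3 := (abs_le.mp h2).2
  have h4 : ∑ d1 ∈ DD Y, ∑ d2 ∈ DD Y, r (Nat.lcm (Nat.lcm d1 d2) 1) ≤ errTot r (Y * Y * 1) := by
    have := err_regroup r hr0 Y 1 {1} (by
      intro m hm
      rw [Finset.mem_singleton] at hm
      subst hm
      exact ⟨le_refl _, le_refl _, Nat.coprime_one_left 10⟩)
    rw [Finset.sum_singleton] at this
    exact this
  have e0 : ∑ d1 ∈ DD Y, ∑ d2 ∈ DD Y, lam Y d1 * lam Y d2 /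
        ((Nat.lcm (Nat.lcm d1 d2) 1 : ℕ) : ℝ) = GG Y / HH Y ^ 2 := by
    rw [← Q0_eq Y hY]
    apply Finset.sum_congr rfl
    intro d1 _
    apply Finset.sum_congr rfl
    intro d2 _
    rw [Nat.lcm_one_right]
  rw [e0] at h3
  have h5 : X * (GG Y / HH Y ^ 2) ≤ X / HH Y := by
    have h6 := GG_le Y
    have h7 : GG Y / HH Y ^ 2 ≤ 1 / HH Y := by
      rw [div_le_div_iff₀ (by positivity) hH]
      nlinarith
    calc X * (GG Y / HH Y ^ 2) ≤ X * (1 / HH Y) := mul_le_mul_of_nonneg_left h7 hX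
      _ = X / HH Y := by ring
  linarith

end Pool.Agent.Helper10
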